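import Pool.Agent.P.MP_878f14_gt.HT.D.Fol

/-! Bands of agreement and low degrees. -/

namespace Pool.Agent.P.MP_878f14_gt.HT.D

open Filter Topology Function FreeAbelianGroup
open scoped ContDiff

noncomputable section

variable {n m : ℕ} {Z : Set (V n)} {F G : Raw n m}

/-- agreement spreads to a band: the set of disagreement is compact -/
theorem IsF.band (hZ : IsClosed Z) (hF : IsF Z m F) (hG : IsF Z m G) {u : V n → ℝ}
    (hu : Continuous u) (e : ∀ y : Y n m, y.2 ∈ Z → u y.2 ≤ 0 → F y = G y) :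
    ∀ᶠ δ in 𝓝[>] (0 : ℝ), ∀ y : Y n m, y.2 ∈ Z → u y.2 ≤ δ → F y = G y := by
  obtain ⟨M, hM⟩ := hF.2.2
  obtain ⟨M', hM'⟩ := hG.2.2
  have hcl : IsClosed {y : Y n m | y.2 ∈ Z ∧ F y ≠ G y} := by
    rw [← isOpen_compl_iff, isOpen_iff_mem_nhds]
    intro y hy
    by_cases hz : y.2 ∈ Z
    · have e' : F y = G y := by
        by_contra h
        exact hy ⟨hz, h⟩
      filter_upwards [hF.2.1.agree hG.2.1 hz e'] with y' h1 h2
      exact h2.2 (h1 h2.1)
    · filter_upwards [continuous_snd.continuousAt.preimage_mem_nhds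
        (hZ.isOpen_compl.mem_nhds hz)] with y' h1 h2
      exact h1 h2.1
  have hc : IsCompact {y : Y n m | y.2 ∈ Z ∧ F y ≠ G y} := by
    refine (isCompact_univ.prod (isCompact_closedBall (0 : V n) (max M M'))).of_isClosed_subset
      hcl fun y hy => ⟨trivial, ?_⟩
    rw [mem_closedBall_zero_iff]
    by_contra h
    have h' := (not_le.1 h).le
    exact hy.2 ((hM y hy.1 ((le_max_left _ _).trans h')).trans
      (hM' y hy.1 ((le_max_right _ _).trans h')).symm)
  obtain ⟨a, ha, h⟩ := hc.exists_forall_le' (f := fun y : Y n m => u y.2) (a := 0)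
    (hu.comp continuous_snd).continuousOn fun y hy => not_le.1 fun h => hy.2 (e y hy.1 h)
  filter_upwards [nhdsWithin_le_nhds (Iio_mem_nhds ha)] with δ hδ y hy h1
  by_contra h2
  exact absurd (h y ⟨hy, h2⟩) (not_le.2 (h1.trans_lt hδ))

theorem fol2_d (S : SS) (o : ∀ m, S.X m)
    (ho : ∀ (m p : ℕ) (f : Fin m → Fin p), S.pull f (o p) = o m) (k : ℕ) :
    S.d (of (o (k + 1))) = (if Even k then 1 else 0 : ℤ) • of (o k) := by
  rw [SS.d_of]
  simp only [ho]
  rw [← Finset.sum_smul, Fin.sum_univ_eq_sum_range (fun j => (-1 : ℤ) ^ j), neg_one_geom_sum]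
  simp only [Nat.even_add_one, ite_not]

theorem fol2_eq {α : Type} {a : α} {z : FA α} (hz : z ∈ Ch fun x => x = a) : z = eps z • of a := by
  rw [← map_const, map_self_on (f := fun _ => a) (fun x hx => hx.symm) hz]

set_option maxHeartbeats 400000 in
theorem fol2_kill (S : SS) (o : ∀ m, S.X m)
    (ho : ∀ (m p : ℕ) (f : Fin m → Fin p), S.pull f (o p) = o m) (k : ℕ) :
    S.Kill (fun m F => F = o m) (fun m F => F = o m) k := by
  intro z hz hc
  obtain ⟨c, rfl⟩ : ∃ c : ℤ, z = c • of (o k) := ⟨_, fol2_eq hz⟩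
  by_cases hk : Even k
  · have h0 : of (o (k + 1)) ∈ Ch fun F => F = o (k + 1) := of_mem rfl
    refine ⟨c • of (o (k + 1)), AddSubgroup.zsmul_mem _ h0 c, ?_⟩
    rw [map_zsmul, fol2_d S o ho, if_pos hk, one_smul]
  · obtain _ | k := k
    · exact absurd Even.zero hk
    · refine ⟨0, zero_mem _, ?_⟩
      have h1 : S.d (c • of (o (k + 1))) = 0 := hc
      have hk' : Even k := by simpa [Nat.even_add_one] using hk
      rw [map_zsmul, fol2_d S o ho, if_pos hk', one_smul] at h1
      have h2 := congrArg eps h1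
      rw [map_zsmul, map_zero, eps_of, smul_eq_mul, mul_one] at h2
      rw [h2, zero_smul, map_zero]

/-- the complex of a point: `d (oo (k + 1))` is `oo k` or `0` according to the parity of `k`
(`map_const`, `eps`) -/
theorem kill_oo (Z : Set (V n)) (k : ℕ) :
    (RS n).Kill (fun m F => F = oo Z m) (fun m F => F = oo Z m) k :=
  fol2_kill (RS n) (oo Z) (fun _ _ _ => pc_bm_oo _ Z) k

/-- no homology for simplices with at most one vertex -/
theorem kill_low {P Q : (RS n).Pr} (hP : ∀ m F, P m F → IsF Z m F) (hQ : ∀ m, Q m (oo Z m))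
    {k : ℕ} (hk : k ≤ 1) : (RS n).Kill P Q k := by
  intro z hz hc
  have h : ∀ F, P k F → F = oo Z k := by
    intro F hF
    obtain rfl | rfl : k = 0 ∨ k = 1 := by omega
    · exact Subsingleton.elim (α := Raw n 0) _ _
    · exact (hP 1 F hF).eq_oo
  obtain ⟨w, hw, e⟩ := kill_oo Z k z (Ch_mono h hz) hc
  exact ⟨w, Ch_mono (fun F hF => by rw [show F = oo Z (k + 1) from hF]; exact hQ _) hw, e⟩

end

end Pool.Agent.P.MP_878f14_gt.HT.D
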