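import Pool.Agent.P.MP_878f14_gt.HT.VS
import Pool.Agent.P.MP_878f14_gt.HT.LC

/-! Local homomorphisms vanish near the identity. -/

namespace Pool.Agent.P.MP_878f14_gt.HT.D

open Metric
open scoped commutatorElement Topology

variable {n : ℕ}

theorem hom_mul {g h : Gc n} {a b : ℝ} (hg : 1 + s1 g ≤ a) (hh : 1 + s1 h ≤ b) :
    1 + s1 (g * h) ≤ a * b := by
  have h1 := s1_mul g h
  have h2 := s1_nonneg g
  have h3 := s1_nonneg h
  calc 1 + s1 (g * h) ≤ (1 + s1 g) * (1 + s1 h) := by linarith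
    _ ≤ a * b := mul_le_mul hg hh (by linarith) (by linarith)

/-- a local homomorphism kills products of commutators of small elements -/
theorem hom_Phi {A : Type} [AddCommGroup A] (α : Gc n → A)
    (h : ∀ g g', s1 g ≤ 1 / 8 → s1 g' ≤ 1 / 8 → α (g * g') = α g + α g') {δ : ℝ} (h0 : 0 ≤ δ)
    (h1 : δ ≤ 1 / 16) (x : List (Gc n × Gc n)) (hx : ∀ p ∈ x, s1 p.1 ≤ δ ∧ s1 p.2 ≤ δ)
    (hq : (1 + 2 * δ) ^ (4 * x.length) ≤ 9 / 8) :
    α (Phi x) = 0 ∧ 1 + s1 (Phi x) ≤ (1 + 2 * δ) ^ (4 * x.length) := by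
  have e1 : α 1 = 0 := by
    have := h 1 1 (by rw [s1_one]; norm_num) (by rw [s1_one]; norm_num)
    rw [mul_one] at this
    exact left_eq_add.1 this
  have hinv : ∀ g : Gc n, s1 g ≤ δ → s1 g⁻¹ ≤ 2 * δ ∧ α g⁻¹ = -α g := fun g hg => by
    have i1 : s1 g⁻¹ ≤ 2 * δ := (s1_inv (by linarith)).trans (by linarith)
    have := h g g⁻¹ (by linarith) (by linarith)
    rw [mul_inv_cancel, e1] at this
    exact ⟨i1, eq_neg_of_add_eq_zero_right this.symm⟩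
  have q1 : (1 : ℝ) ≤ 1 + 2 * δ := by linarith
  induction x with
  | nil => exact ⟨e1, by simp [s1_one]⟩
  | cons p x ih =>
    have hl : 4 * (p :: x).length = 4 + 4 * x.length := by rw [List.length_cons]; ring
    rw [hl] at hq ⊢
    have hk : ∀ k, k ≤ 4 + 4 * x.length → (1 + 2 * δ) ^ k ≤ 9 / 8 := fun k hk =>
      (pow_le_pow_right₀ q1 hk).trans hq
    obtain ⟨i1, i2⟩ := ih (fun z hz => hx z (List.mem_cons_of_mem _ hz)) (hk _ (by omega))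
    obtain ⟨ha, hb⟩ := hx p List.mem_cons_self
    obtain ⟨ha', ea⟩ := hinv _ ha
    obtain ⟨hb', eb⟩ := hinv _ hb
    have m2 : 1 + s1 (p.1 * p.2) ≤ (1 + 2 * δ) ^ 2 := by
      rw [pow_two]; exact hom_mul (by linarith) (by linarith)
    have m3 : 1 + s1 (p.1 * p.2 * p.1⁻¹) ≤ (1 + 2 * δ) ^ 3 := by
      rw [pow_succ]; exact hom_mul m2 (by linarith)
    have m4 : 1 + s1 (p.1 * p.2 * p.1⁻¹ * p.2⁻¹) ≤ (1 + 2 * δ) ^ 4 := by
      rw [pow_succ]; exact hom_mul m3 (by linarith)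
    have k2 := hk 2 (by omega)
    have k3 := hk 3 (by omega)
    have k4 := hk 4 (by omega)
    have k5 := hk (4 * x.length) (by omega)
    rw [Phi_cons, commutatorElement_def]
    refine ⟨?_, by rw [pow_add]; exact hom_mul m4 i2⟩
    rw [h _ _ (by linarith) (by linarith), h _ _ (by linarith) (by linarith),
      h _ _ (by linarith) (by linarith), h _ _ (by linarith) (by linarith), i1, ea, eb]
    abel

theorem hom_delta (N : ℕ) : ∃ δ : ℝ, 0 < δ ∧ δ ≤ 1 / 16 ∧ (1 + 2 * δ) ^ N ≤ 9 / 8 := by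
  have h1 : Filter.Tendsto (fun t : ℝ => (1 + 2 * t) ^ N) (𝓝 0) (𝓝 ((1 + 2 * 0) ^ N)) :=
    (by fun_prop : Continuous fun t : ℝ => (1 + 2 * t) ^ N).tendsto 0
  rw [mul_zero, add_zero, one_pow] at h1
  have h2 : ∀ᶠ t : ℝ in 𝓝 0, (1 + 2 * t) ^ N ≤ 9 / 8 := h1.eventually_le_const (by norm_num)
  have h3 : ∀ᶠ t : ℝ in 𝓝 0, t ≤ 1 / 16 := eventually_le_nhds (by norm_num)
  obtain ⟨δ, ⟨a, b⟩, c⟩ :=
    (((h3.and h2).filter_mono (nhdsWithin_le_nhds (s := Set.Ioi (0 : ℝ)))).and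
      self_mem_nhdsWithin).exists
  exact ⟨δ, c, a, b⟩

theorem hom_unit {A : Type} [AddCommGroup A] (α : Gc n → A)
    (h : ∀ g g', s1 g ≤ 1 / 8 → s1 g' ≤ 1 / 8 → α (g * g') = α g + α g') :
    ∃ (R : ℕ) (e : ℝ), 0 < e ∧ ∀ g : Gc n, Fix (closedBall 0 1) (g : Pm n) →
      nm R (dp (g : Pm n)) ≤ e → α g = 0 := by
  obtain ⟨n₀, hv⟩ := vs_pt n
  obtain ⟨δ, d0, d1, d2⟩ := hom_delta (4 * n₀)
  obtain ⟨R, e, he, hs⟩ := vs_small hv 1 d0
  refine ⟨R, e, he, fun g hg hn => ?_⟩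
  obtain ⟨x, hx, rfl⟩ := hs g hg hn
  refine (hom_Phi α h d0.le d1 _ ((List.forall_mem_ofFn_iff).2 fun k => ?_)
    (by rwa [List.length_ofFn])).1
  exact ⟨(s1_le_nm le_rfl _).trans (hx k).1.2, (s1_le_nm le_rfl _).trans (hx k).2.2⟩

theorem hom_nm {l : ℝ} (hl : 0 < l) (R : ℕ) : ∃ C : ℝ, 0 < C ∧ ∀ g : Gc n,
    nm R (dp (cG l 0 g : Pm n)) ≤ C * nm R (dp (g : Pm n)) := by
  have h0 : 0 ≤ ∑ j ∈ Finset.range (R + 1), l / l ^ j :=
    Finset.sum_nonneg fun j _ => by positivity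
  refine ⟨∑ j ∈ Finset.range (R + 1), l / l ^ j + 1, by linarith, fun g => ?_⟩
  have h1 : nm R (dp (cG l 0 g : Pm n)) ≤
      (∑ j ∈ Finset.range (R + 1), l / l ^ j) * nm R (dp (g : Pm n)) := by
    rw [Finset.sum_mul]
    refine Finset.sum_le_sum fun j hj => ?_
    rw [coe_cG, sn_conj_aff (Gc.sm g) hl]
    exact mul_le_mul_of_nonneg_left
      (sn_le_nm (Nat.lt_succ_iff.1 (Finset.mem_range.1 hj)) _) (by positivity)
  have h2 := nm_nonneg R (dp (g : Pm n))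
  linarith [add_mul (∑ j ∈ Finset.range (R + 1), l / l ^ j) 1 (nm R (dp (g : Pm n)))]

/-- a local homomorphism vanishes near the identity (`vs_pt`, `vs_small`; conjugation by `cG`
reduces to the unit cube) -/
theorem local_hom {A : Type} [AddCommGroup A] (α : Gc n → A)
    (h : ∀ g g', s1 g ≤ 1 / 8 → s1 g' ≤ 1 / 8 → α (g * g') = α g + α g') {M : ℝ} (hM : 0 < M) :
    ∃ (R : ℕ) (e : ℝ), 0 < e ∧ ∀ g : Gc n, Fix (closedBall 0 M) (g : Pm n) →
      nm R (dp (g : Pm n)) ≤ e → α g = 0 := by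
  have hM' := inv_pos.2 hM
  obtain ⟨R, e, he, hs⟩ := hom_unit (fun g => α (cG M 0 g)) fun g g' hg hg' => by
    rw [map_mul]
    exact h _ _ (by rwa [s1_cG hM]) (by rwa [s1_cG hM])
  obtain ⟨C, hC, hn⟩ := hom_nm (n := n) hM' R
  refine ⟨R, e / C, by positivity, fun g hg hg' => ?_⟩
  have h1 : Fix (closedBall 0 1) (cG M⁻¹ 0 g : Pm n) := by
    have := hg.conj_aff hM' 0
    rwa [smul_zero, add_zero, inv_mul_cancel₀ hM.ne'] at this
  have h2 := hs _ h1 ((hn g).trans (by rwa [le_div_iff₀' hC] at hg'))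
  rwa [cG_cG hM.ne' hM'.ne', mul_inv_cancel₀ hM.ne', smul_zero, add_zero, cG_one] at h2

end Pool.Agent.P.MP_878f14_gt.HT.D
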