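import Pool.Agent.P.MP_878f14_gt.HT.D.Strt
import Pool.Agent.P.MP_878f14_gt.HT.D.Hom
import Pool.Agent.P.MP_878f14_gt.HT.D.Fol2
import Pool.Agent.P.MP_878f14_gt.HT.PartC

/-! Compactly supported foliations have no homology in degrees one and two. -/

namespace Pool.Agent.P.MP_878f14_gt.HT.D

open Filter Topology Function Metric FreeAbelianGroup
open scoped ContDiff

noncomputable section

variable {n m : ℕ}

/-- the boundaries -/
def Bd (n m : ℕ) : AddSubgroup (FA (Raw n m)) := (Ch (IsF Set.univ (m + 1))).map (RS n).d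

/-- the class of an affine simplex -/
def cls (g : Fin m → Gc n) : FA (Raw n m) ⧸ Bd n m := QuotientAddGroup.mk' _ (of (lf (afs g)))

theorem cls_mul {g g' : Fin m → Gc n} (k : Gc n) (h : ∀ i, g i = g' i * k) : cls g = cls g' := by
  rw [cls, funext h, lf_afs_mul]; rfl

theorem cls_d {g : Fin (m + 1) → Gc n} (h : ∀ i, s1 (g i) ≤ 1 / 2) :
    ∑ j : Fin (m + 1), (-1 : ℤ) ^ j.1 • cls (g ∘ j.succAbove) = 0 := by
  have := (QuotientAddGroup.eq_zero_iff _).2 (show _ ∈ Bd n m from ⟨_, of_mem (adm_afs h).isF, rfl⟩)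
  rw [SS.d_of, ← QuotientAddGroup.mk'_apply, map_sum] at this
  simp only [map_zsmul] at this
  simp only [cls, ← afs_bm]
  exact this

theorem base_M {z : FA (Raw n m)} (hz : z ∈ Ch (IsF Set.univ m)) :
    ∃ M, 0 < M ∧ z ∈ Ch fun F => IsF Set.univ _ F ∧ Hb Set.univ M F :=
  ((eventually_gt_atTop 0).and (ev_mem (l := atTop) (fun _ => AddMonoidHom.id _)
    (fun M : ℝ => Ch fun F => IsF Set.univ _ F ∧ Hb Set.univ M F) (fun F hF => by
      obtain ⟨M, hM⟩ := hF.2.2
      filter_upwards [eventually_ge_atTop M] with M' h using of_mem ⟨hF, hM.mono h⟩) hz)).exists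

open Classical in
/-- the group element with given values -/
def toG (f : V n → V n) : Gc n := if h : ∃ g : Gc n, ∀ x, (g : Pm n) x = f x then h.choose else 1

/-- the vertices of a family -/
def vt (σ : Y n m → V n) (i : Fin m) : Gc n := toG fun x => σ (vx i, x)

theorem vt_spec {σ : Y n m → V n} (h : Adm σ) (i : Fin m) (x : V n) :
    (vt σ i : Pm n) x = σ (vx i, x) := by
  rw [vt, toG, dif_pos (h.exists_Gc _)]
  exact (h.exists_Gc _).choose_spec x

theorem vt_pull {p : ℕ} (σ : Y n p → V n) (f : Fin m → Fin p) (i : Fin m) :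
    vt (σ ∘ bm fun i => vx (f i)) i = vt σ (f i) :=
  congrArg (fun t => toG fun x => σ (t, x)) (aff_vx _ i)

theorem vt_quot {σ σ' : Y n (m + 1) → V n} (h : Adm σ) (h' : Adm σ') (e : lf σ = lf σ')
    (i j : Fin (m + 1)) : vt σ i * (vt σ j)⁻¹ = vt σ' i * (vt σ' j)⁻¹ := by
  obtain ⟨g, hg⟩ := h.eq_of_lf h' e
  have : ∀ i, (vt σ' i : Pm n) = vt σ i * g := fun i => Equiv.ext fun x => by
    rw [vt_spec h', hg, Equiv.Perm.mul_apply, vt_spec h]
  refine Subtype.ext ?_
  simp only [Subgroup.coe_mul, Subgroup.coe_inv, this, mul_inv_rev, mul_assoc, mul_inv_cancel_left]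

theorem base_red (R : ℕ) {e M : ℝ} (he : 0 < e) {z : FA (Raw n (m + 2))}
    (hz : z ∈ Ch fun F => IsF Set.univ _ F ∧ Hb Set.univ M F) (hd : (RS n).d z = 0)
    (h : ∀ x ∈ Ch (TS R e (M + 1) (m + 2)), map lf ((TA n).ss.d x) = 0 →
      lift (fun σ => cls (vt σ)) x = 0) : z ∈ Bd n (m + 2) := by
  obtain ⟨x, hx, h0, w, hw, e1⟩ := straighten R he (lt_add_one M) hz hd
  have := hom_eq_on ((QuotientAddGroup.mk' (Bd n (m + 2))).comp
    (FreeAbelianGroup.map fun σ => lf ((strt n).en true _ σ))) (lift fun σ => cls (vt σ))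
    (fun σ hσ => by
      rw [lift_apply_of, AddMonoidHom.comp_apply, map_of_apply, strt_true (vt_spec hσ.1), cls]) hx
  rw [h x hx h0] at this
  rw [eq_add_of_sub_eq e1.symm]
  exact add_mem ⟨w, hw, rfl⟩ ((QuotientAddGroup.eq_zero_iff _).1 this)

theorem base_s1 {g h : Gc n} {a : ℝ} (hg : s1 g ≤ a) (hh : s1 h ≤ 1 / 8) :
    s1 (g * h) ≤ 9 / 8 * a + 1 / 8 := by
  nlinarith [s1_mul g h, s1_nonneg g, s1_nonneg h]

/-- `α g` is the class of `lf (afs ![1, g])` modulo `(Ch (IsF univ 3)).map d`; `local_hom`,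
`straighten` (find `M` by `ev_mem`), `Adm.exists_Gc`, `lf_afs_mul` -/
theorem acy_two : Acy (Set.univ : Set (V n)) 2 := fun z hz hd => by
  obtain ⟨M, hM, hz⟩ := base_M hz
  obtain ⟨R, e, he, H⟩ := local_hom (fun g : Gc n => cls ![1, g]) (fun g g' h h' => by
    have := cls_d (g := ![1, g', g * g']) fun i => by
      fin_cases i
      exacts [s1_one.trans_le (by norm_num), h'.trans (by norm_num),
        (base_s1 h h').trans (by norm_num)]
    rw [Fin.sum_univ_three, cls_mul (g' := ![1, g]) g' fun i => by fin_cases i <;> simp,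
      cls_mul (g := _ ∘ (1 : Fin 3).succAbove) (g' := ![1, g * g']) 1
        fun i => by fin_cases i <;> simp [Fin.succAbove],
      cls_mul (g := _ ∘ (2 : Fin 3).succAbove) (g' := ![1, g']) 1
        fun i => by fin_cases i <;> simp [Fin.succAbove]] at this
    norm_num at this
    rw [← sub_eq_zero, ← neg_eq_zero, ← this]
    abel) (show 0 < M + 1 by linarith)
  refine base_red R he hz hd fun x hx _ => hom_eq_on _ 0 (fun σ hσ => ?_) hx
  have := hσ.2 _ _ _ _ (vt_spec hσ.1 1) (vt_spec hσ.1 0)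
  rw [lift_apply_of, cls_mul (g' := ![1, vt σ 1 * (vt σ 0)⁻¹]) (vt σ 0)
    fun i => by fin_cases i <;> simp, H _ this.1 this.2]
  rfl

/-- `c g h` is the class of `lf (afs ![1, h, g * h]) - lf (afs ![1, 1, 1])`; `local_cob`;
`β σ = a (g₁ * g₀⁻¹)` on edges kills `d x` by `zero_of_fibres` and `Adm.eq_of_lf`;
`eps x = eps (d x) = 0` -/
theorem acy_three (hn : 2 ≤ n) : Acy (Set.univ : Set (V n)) 3 := fun z hz hd => by
  obtain ⟨M, hM, hz⟩ := base_M hz
  let c : LC n (FA (Raw n 3) ⧸ Bd n 3) := ⟨fun g h => cls ![1, h, g * h] - cls ![1, 1, 1],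
    fun g h k a1 a2 a3 => by
      have := cls_d (g := ![1, k, h * k, g * h * k]) fun i => by
        fin_cases i
        exacts [s1_one.trans_le (by norm_num), a3.trans (by norm_num),
          (base_s1 a2 a3).trans (by norm_num), (base_s1 (base_s1 a1 a2) a3).trans (by norm_num)]
      rw [Fin.sum_univ_four, cls_mul (g' := ![1, h, g * h]) k fun i => by fin_cases i <;> simp,
        cls_mul (g := _ ∘ (1 : Fin 4).succAbove) (g' := ![1, h * k, g * (h * k)]) 1
          fun i => by fin_cases i <;> simp [Fin.succAbove, mul_assoc],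
        cls_mul (g := _ ∘ (2 : Fin 4).succAbove) (g' := ![1, k, g * h * k]) 1
          fun i => by fin_cases i <;> simp [Fin.succAbove],
        cls_mul (g := _ ∘ (3 : Fin 4).succAbove) (g' := ![1, k, h * k]) 1
          fun i => by fin_cases i <;> simp [Fin.succAbove]] at this
      norm_num at this
      rw [← sub_eq_zero, ← this]
      abel, by rw [mul_one, sub_self]⟩
  obtain ⟨R, e, a, he, H⟩ := local_cob hn c (show 0 < M + 1 by linarith)
  refine base_red R he hz hd fun x hx h0 => ?_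
  have h1 : lift (fun τ : Y n 2 → V n => a (vt τ 1 * (vt τ 0)⁻¹)) ((TA n).ss.d x) = 0 :=
    zero_of_fibres (P := TS R e (M + 1) 2) lf _ (fun σ σ' hσ hσ' e => by
      rw [lift_apply_of, lift_apply_of, vt_quot hσ.1 hσ'.1 e]) (SS.d_mem (ts_cl _ _ _).ss hx) h0
  have h2 : eps ((TA n).ss.d x) = 0 := zero_of_fibres lf _ (fun _ _ _ _ _ => rfl) (mem_Ch_true _) h0
  have := hom_eq_on (lift fun σ => cls (vt σ)) ((((zmultiplesHom _ (cls ![1, 1, 1])).comp eps) -
    lift fun τ : Y n 2 → V n => a (vt τ 1 * (vt τ 0)⁻¹)).comp (TA n).ss.d) (fun σ hσ => by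
      have q := fun i j => hσ.2 _ _ _ _ (vt_spec hσ.1 i) (vt_spec hσ.1 j)
      have e1 : vt σ 2 * (vt σ 1)⁻¹ * (vt σ 1 * (vt σ 0)⁻¹) = vt σ 2 * (vt σ 0)⁻¹ := by group
      have := H _ _ (q 2 1).1 (q 1 0).1 (q 2 1).2 (q 1 0).2 (e1 ▸ (q 2 0).2)
      simp only [c, e1] at this
      rw [lift_apply_of, cls_mul (g' := ![1, vt σ 1 * (vt σ 0)⁻¹, vt σ 2 * (vt σ 0)⁻¹]) (vt σ 0)
        fun i => by fin_cases i <;> simp, AddMonoidHom.comp_apply, SS.d_of, Fin.sum_univ_three]
      simp only [map_add, map_zsmul, AddMonoidHom.sub_apply, AddMonoidHom.comp_apply, eps_of,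
        lift_apply_of, vt_pull]
      change _ = (-1 : ℤ) ^ 0 • (_ - a (vt σ 2 * (vt σ 1)⁻¹)) +
        (-1 : ℤ) ^ 1 • (_ - a (vt σ 2 * (vt σ 0)⁻¹)) + (-1 : ℤ) ^ 2 • (_ - a (vt σ 1 * (vt σ 0)⁻¹))
      rw [this]
      norm_num
      abel) hx
  rw [this, AddMonoidHom.comp_apply, AddMonoidHom.sub_apply, AddMonoidHom.comp_apply, h1, h2,
    map_zero, sub_zero]

end

end Pool.Agent.P.MP_878f14_gt.HT.D
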