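import Pool.Agent.P.MP_878f14_gt.HT.D.Cht

/-! Germs along `Δ × Z` of foliations transverse to the fibres, horizontal near infinity. -/

namespace Pool.Agent.P.MP_878f14_gt.HT.D

open Filter Topology Function FreeAbelianGroup
open scoped ContDiff

noncomputable section

variable {n k m p : ℕ}

/-- given by charts along `Z` -/
def Lc (Z : Set (V n)) (F : Raw n m) : Prop :=
  ∀ y₀ : Y n m, y₀.2 ∈ Z → ∃ σ, Cht σ y₀ ∧ ∀ᶠ y in 𝓝 y₀, y.2 ∈ Z → F y = ker σ y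

/-- horizontal outside a ball -/
def Hb (Z : Set (V n)) (M : ℝ) (F : Raw n m) : Prop :=
  ∀ y : Y n m, y.2 ∈ Z → M ≤ ‖y.2‖ → F y = hor y

/-- foliations along `Z` -/
def IsF (Z : Set (V n)) (m : ℕ) (F : Raw n m) : Prop :=
  (∀ y : Y n m, y.2 ∉ Z → F y = nul y) ∧ Lc Z F ∧ ∃ M, Hb Z M F

/-- no reduced homology for simplices with `k` vertices -/
def Acy (Z : Set (V n)) (k : ℕ) : Prop := (RS n).Kill (IsF Z) (IsF Z) k

variable {Z Z' : Set (V n)} {F G : Raw n m} {y : Y n m} {M M' : ℝ}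

theorem Hb.mono (h : Hb Z M F) (hM : M ≤ M') : Hb Z M' F := fun y hy h' => h y hy (hM.trans h')

theorem Hb.bm {F : Raw n p} (h : Hb Z M F) (v : Fin m → Δ p) : Hb Z M (pc (bm v) F) :=
  fun y hy h' => pc_congr _ (h (D.bm v y) hy h')

theorem Lc.bm {F : Raw n p} (h : Lc Z F) (v : Fin m → Δ p) : Lc Z (pc (bm v) F) := by
  intro y₀ hy
  obtain ⟨σ, hσ, he⟩ := h (D.bm v y₀) hy
  refine ⟨σ ∘ D.bm v, hσ.bm, ?_⟩
  filter_upwards [((D.bm v).continuous.tendsto y₀).eventually he] with y hy' hz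
  exact (pc_congr _ (hy' hz)).trans (congrFun (pc_ker _ σ) y)

theorem Lc.congr (h : Lc Z F) (hZ : Z' ⊆ Z) (e : ∀ y, y.2 ∈ Z' → G y = F y) : Lc Z' G := by
  intro y₀ hy
  obtain ⟨σ, hσ, he⟩ := h y₀ (hZ hy)
  refine ⟨σ, hσ, ?_⟩
  filter_upwards [he] with y hy' hz
  exact (e y hz).trans (hy' (hZ hz))

theorem lc_ker {σ : Y n m → V n} (h : ∀ y, y.2 ∈ Z → Cht σ y) : Lc Z (ker σ) :=
  fun y hy => ⟨σ, h y hy, .of_forall fun _ _ => rfl⟩

theorem lc_hor : Lc Z (hor : Raw n m) := lc_ker fun y _ => cht_snd y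

/-- being given by charts is local -/
theorem lc_of_loc (h : ∀ y₀ : Y n m, y₀.2 ∈ Z →
    ∃ G Z', y₀.2 ∈ Z' ∧ Lc Z' G ∧ ∀ᶠ y in 𝓝 y₀, y.2 ∈ Z → y.2 ∈ Z' ∧ F y = G y) : Lc Z F := by
  intro y₀ hy
  obtain ⟨G, Z', hy', hG, he⟩ := h y₀ hy
  obtain ⟨σ, hσ, he'⟩ := hG y₀ hy'
  refine ⟨σ, hσ, ?_⟩
  filter_upwards [he, he'] with y h1 h2 hz
  exact (h1 hz).2.trans (h2 (h1 hz).1)

/-- pull-back by a fibre preserving local diffeomorphism -/
theorem Lc.fb (h : Lc Z F) {c : C(Y n m, V n)} (hc : ∀ y, y.2 ∈ Z' → Cht c y ∧ c y ∈ Z) :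
    Lc Z' (pc (fb c) F) := by
  intro y₀ hy
  obtain ⟨σ, hσ, he⟩ := h (D.fb c y₀) (hc y₀ hy).2
  refine ⟨fun y => σ (y.1, c y), Cht.fib hσ (hc y₀ hy).1, ?_⟩
  filter_upwards [((D.fb c).continuous.tendsto y₀).eventually he] with y hy' hz
  exact (pc_congr _ (hy' (hc y hz).2)).trans (congrFun (pc_ker _ σ) y)

/-- agreement is an open condition -/
theorem Lc.agree (h : Lc Z F) (h' : Lc Z G) (hy : y.2 ∈ Z) (e : F y = G y) :
    ∀ᶠ y' in 𝓝 y, y'.2 ∈ Z → F y' = G y' := by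
  obtain ⟨σ, -, he⟩ := h y hy
  obtain ⟨σ', -, he'⟩ := h' y hy
  have e' : ker σ y = ker σ' y :=
    (he.self_of_nhds hy).symm.trans (e.trans (he'.self_of_nhds hy))
  filter_upwards [he, he', ker_eventually e'] with y' h1 h2 h3 hz
  rw [h1 hz, h2 hz, h3]

/-- the pull-back to a point is horizontal (`Cht.ker_eq_hor`) -/
theorem Lc.const {F : Raw n p} (h : Lc Z F) (a : Δ p) (hy : y.2 ∈ Z) :
    pc (D.bm fun _ => a) F y = hor y := by
  obtain ⟨σ, hσ, he⟩ := h (D.bm (fun _ => a) y) hy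
  refine (pc_congr _ (he.self_of_nhds hy)).trans ((congrFun (pc_ker _ σ) y).trans ?_)
  refine hσ.bm.ker_eq_hor (.of_forall fun y' => ?_)
  simp only [comp_apply, bm_apply, aff_const]

theorem isF_cl (Z : Set (V n)) : (RA n).Cl (IsF Z) := fun _ _ v _ h =>
  ⟨fun y hy => pc_congr _ (h.1 (bm v y) hy), h.2.1.bm v, h.2.2.imp fun _ h => h.bm v⟩

theorem isF_res (h : Lc Z F) (h' : Hb Z M F) : IsF Z m (res Z m F) :=
  ⟨fun _ hy => res_of_not_mem _ hy, h.congr subset_rfl fun _ hy => res_of_mem _ hy, M,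
    fun y hy hM => (res_of_mem _ hy).trans (h' y hy hM)⟩

theorem IsF.res (h : IsF Z m F) (hZ : Z' ⊆ Z) : IsF Z' m (res Z' m F) := by
  obtain ⟨M, hM⟩ := h.2.2
  exact isF_res (h.2.1.congr hZ fun _ _ => rfl) fun y hy => hM y (hZ hy)

theorem IsF.res_self (h : IsF Z m F) : D.res Z m F = F := funext fun y => by
  by_cases hy : y.2 ∈ Z
  · exact res_of_mem _ hy
  · rw [res_of_not_mem _ hy, h.1 y hy]

theorem IsF.ext (h : IsF Z m F) (h' : IsF Z m G) (e : ∀ y, y.2 ∈ Z → F y = G y) : F = G := by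
  rw [← h.res_self, ← h'.res_self, res_congr e]

/-- the horizontal simplex -/
def oo (Z : Set (V n)) (m : ℕ) : Raw n m := res Z m hor

theorem isF_oo (Z : Set (V n)) (m : ℕ) : IsF Z m (oo Z m) :=
  isF_res lc_hor (M := 0) fun _ _ _ => rfl

theorem pc_bm_oo (v : Fin m → Δ p) (Z : Set (V n)) : pc (bm v) (oo Z p) = oo Z m :=
  pc_bm_res v Z hor

/-- there is only one vertex (`Lc.const`, `Δ 1` is a point) -/
theorem IsF.eq_oo {F : Raw n 1} (h : IsF Z 1 F) : F = oo Z 1 := by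
  refine h.ext (isF_oo Z 1) fun y hy => ?_
  have e : (fun _ => vx 0 : Fin 1 → Δ 1) = vx := funext fun i => by rw [Subsingleton.elim i 0]
  have h1 := h.2.1.const (vx 0) hy
  rw [e, bm_vx, pc_id] at h1
  exact h1.trans (res_of_mem _ hy).symm

/-- cut and paste along a band -/
theorem IsF.paste (hG : IsF Z m G) (hF : IsF Z m F) {u : V n → ℝ} (hu : Continuous u) {c c' : ℝ}
    (hc : c < c') (e : ∀ y : Y n m, y.2 ∈ Z → c < u y.2 → u y.2 < c' → G y = F y) :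
    IsF Z m (sel {x | u x ≤ c} G F) := by
  have hu' : Continuous fun y : Y n m => u y.2 := hu.comp continuous_snd
  obtain ⟨M, hM⟩ := hG.2.2
  obtain ⟨M', hM'⟩ := hF.2.2
  refine ⟨fun y hy => ?_, lc_of_loc fun y₀ hy => ?_, max M M', fun y hy hn => ?_⟩
  · by_cases h : y.2 ∈ {x | u x ≤ c}
    · rw [sel_of_mem _ _ h, hG.1 y hy]
    · rw [sel_of_not_mem _ _ h, hF.1 y hy]
  · by_cases h0 : u y₀.2 < c'
    · refine ⟨G, Z, hy, hG.2.1, ?_⟩
      filter_upwards [(hu'.tendsto y₀).eventually (gt_mem_nhds h0)] with y h1 hz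
      refine ⟨hz, ?_⟩
      by_cases h : y.2 ∈ {x | u x ≤ c}
      · exact sel_of_mem _ _ h
      · rw [sel_of_not_mem _ _ h, e y hz (not_le.1 h) h1]
    · refine ⟨F, Z, hy, hF.2.1, ?_⟩
      filter_upwards [(hu'.tendsto y₀).eventually (lt_mem_nhds (hc.trans_le (not_lt.1 h0)))]
        with y h1 hz
      exact ⟨hz, sel_of_not_mem _ _ (not_le.2 h1)⟩
  · by_cases h : y.2 ∈ {x | u x ≤ c}
    · rw [sel_of_mem _ _ h, hM y hy ((le_max_left _ _).trans hn)]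
    · rw [sel_of_not_mem _ _ h, hM' y hy ((le_max_right _ _).trans hn)]

end

end Pool.Agent.P.MP_878f14_gt.HT.D
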