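import Pool.Agent.P.MP_878f14_gt.HT.D.Defs
import Pool.Agent.P.MP_878f14_gt.HT.D.Fol

/-! Comparison of the two descriptions. -/

namespace Pool.Agent.P.MP_878f14_gt.HT.D

open Filter Topology Function FreeAbelianGroup
open scoped ContDiff

noncomputable section

theorem Bridge_ex {n p : ℕ} (s : Str n p) : ∃ F : Raw n (p + 1), (∀ t, F (t, 0) = s.1 t) ∧
    ∀ y : Y n (p + 1), y.2 ≠ 0 → F y = nul y := by
  classical
  refine ⟨fun y => if h : y.2 = 0 then
    cast (congrArg (fun x : V n => Germ (𝓝 (((y.1, x), (y.1, x)) : Y n (p + 1) × Y n (p + 1))) Prop)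
      h.symm) (s.1 y.1) else nul y, fun t => ?_, fun y hy => dif_neg hy⟩
  exact dif_pos rfl

theorem Bridge_isF {n p : ℕ} (s : Str n p) {F : Raw n (p + 1)} (h0 : ∀ t, F (t, 0) = s.1 t)
    (h1 : ∀ y : Y n (p + 1), y.2 ≠ 0 → F y = nul y) : IsF {0} (p + 1) F := by
  refine ⟨h1, ?_, 1, fun y hy hM => ?_⟩
  · rintro ⟨t₀, x⟩ hx
    obtain rfl : x = 0 := hx
    obtain ⟨φ, a1, a2, a3⟩ := s.2 t₀
    refine ⟨φ ∘ amb, ⟨⟨φ, a1, .of_forall fun _ => rfl⟩, a2.1⟩, ?_⟩
    filter_upwards [(continuous_fst.tendsto ((t₀, 0) : Y n (p + 1))).eventually a3]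
    rintro ⟨t, x⟩ ht hx
    obtain rfl : x = 0 := hx
    rw [h0]
    exact ht
  · have hy' : y.2 = 0 := hy
    rw [hy', norm_zero] at hM
    exact absurd hM (by norm_num)

theorem Bridge_isStr {n p : ℕ} {F : Raw n (p + 1)} (h : IsF {0} (p + 1) F) :
    IsStr (n := n) (p := p) fun t => F (t, 0) := fun t₀ => by
  obtain ⟨σ, ⟨⟨φ, a1, a2⟩, a3⟩, a4⟩ := h.2.1 (t₀, 0) rfl
  have e : fd σ ((t₀, 0) : Y n (p + 1)) = fd (φ ∘ amb) (t₀, 0) := fd_congr a2
  rw [e] at a3
  refine ⟨φ, a1, ⟨a3, ?_⟩, ?_⟩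
  · exact (LinearMap.injective_iff_surjective
      (f := (fd (φ ∘ amb) ((t₀, 0) : Y n (p + 1))).toLinearMap)).1 a3
  · have c : Continuous fun t : Δ (p + 1) => ((t, 0) : Y n (p + 1)) :=
      continuous_id.prodMk continuous_const
    have a5 := ker_eventually (ker_congr (σ' := φ ∘ amb) a2)
    filter_upwards [(c.tendsto t₀).eventually a4, (c.tendsto t₀).eventually a5] with t b1 b2
    exact (b1 rfl).trans b2

/-- structures on simplices are the foliations along `{0}` -/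
theorem exists_bridge (n : ℕ) : ∃ ι : ∀ p, Str n p → Raw n (p + 1), (∀ p, Injective (ι p)) ∧
    (∀ p F, IsF {0} (p + 1) F ↔ ∃ s, ι p s = F) ∧
      ∀ p (j : Fin (p + 2)) (s : Str n (p + 1)),
        ι p (face j s) = (RS n).pull j.succAbove (ι (p + 1) s) := by
  choose ι h0 h1 using fun p (s : Str n p) => Bridge_ex s
  refine ⟨ι, fun p s s' e => ?_, fun p F => ⟨fun h => ?_, ?_⟩, fun p j s => ?_⟩
  · exact Subtype.ext (funext fun t => by rw [← h0, ← h0, e])
  · refine ⟨⟨_, Bridge_isStr h⟩, funext ?_⟩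
    rintro ⟨t, x⟩
    by_cases hx : x = 0
    · subst hx
      exact h0 _ _ t
    · exact (h1 _ _ (t, x) hx).trans (h.1 (t, x) hx).symm
  · rintro ⟨s, rfl⟩
    exact Bridge_isF s (h0 p s) (h1 p s)
  · let g : C(Y n (p + 1), Y n (p + 2)) := ⟨incl j, continuous_incl j⟩
    have e : bm (n := n) (fun i => vx (j.succAbove i)) = g :=
      ContinuousMap.ext fun y => Prod.ext (aff_map _ y.1) rfl
    change _ = pc (bm fun i => vx (j.succAbove i)) (ι (p + 1) s)
    rw [e]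
    funext y
    obtain ⟨t, x⟩ := y
    by_cases hx : x = 0
    · subst hx
      rw [h0]
      change _ = (ι (p + 1) s (stdSimplex.map j.succAbove t, 0)).compTendsto _ _
      rw [h0]
      rfl
    · exact (h1 _ _ (t, x) hx).trans (pc_congr g (G := nul) (h1 _ s (g (t, x)) hx)).symm

end

end Pool.Agent.P.MP_878f14_gt.HT.D
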