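import Pool.Agent.P.MP_878f14_gt.HT.D.Fol2

/-! Fillings can be squeezed into a half space. -/

namespace Pool.Agent.P.MP_878f14_gt.HT.D

open Filter Topology Function FreeAbelianGroup
open scoped ContDiff

noncomputable section

variable {n : ℕ}

/-- a direction `e` along `Ω` with a dual linear form -/
structure Dir (Ω : Set (V n)) where
  u : V n →L[ℝ] ℝ
  e : V n
  ue : u e = 1
  mv : ∀ x ∈ Ω, ∀ s : ℝ, x + s • e ∈ Ω

/-- foliations along `Z` that are horizontal below the level `c` -/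
def Fib (Z : Set (V n)) (u : V n → ℝ) (c : ℝ) (m : ℕ) (F : Raw n m) : Prop :=
  IsF Z m F ∧ ∀ y : Y n m, y.2 ∈ Z → u y.2 ≤ c → F y = hor y

theorem fib_fun {c c' K : ℝ} (hc : c' < c) (hK : 0 ≤ K) : ∃ a : ℝ → ℝ, ContDiff ℝ ∞ a ∧
    Monotone a ∧ (∀ t, -K ≤ a t ∧ a t ≤ 0) ∧ (∀ t, c ≤ t → a t = 0) ∧ ∀ t, t ≤ c' → a t = -K := by
  have hp : 0 < c - c' := sub_pos.2 hc
  refine ⟨fun t => -(K * Real.smoothTransition ((c - t) / (c - c'))),
    (contDiff_const.mul (Real.smoothTransition.contDiff.comp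
      ((contDiff_const.sub contDiff_id).div_const _))).neg, fun s t h => ?_, fun t => ⟨?_, ?_⟩,
    fun t h => ?_, fun t h => ?_⟩
  · exact neg_le_neg (mul_le_mul_of_nonneg_left (Real.smoothTransition.monotone
      (div_le_div_of_nonneg_right (by linarith) hp.le)) hK)
  · exact neg_le_neg (mul_le_of_le_one_right hK (Real.smoothTransition.le_one _))
  · exact neg_nonpos.2 (mul_nonneg hK (Real.smoothTransition.nonneg _))
  · simp only [Real.smoothTransition.zero_of_nonpos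
      (div_nonpos_of_nonpos_of_nonneg (sub_nonpos.2 h) hp.le), mul_zero, neg_zero]
  · simp only [Real.smoothTransition.one_of_one_le
      ((one_le_div hp).2 (by linarith : c - c' ≤ c - t)), mul_one]

/-- the shear -/
def fibH {Ω : Set (V n)} (D : Dir Ω) {a : ℝ → ℝ} (ha : ContDiff ℝ ∞ a) (m : ℕ) :
    C(Y n m, V n) :=
  ⟨fun y => y.2 + a (D.u y.2) • D.e, continuous_snd.add
    ((ha.continuous.comp (D.u.continuous.comp continuous_snd)).smul continuous_const)⟩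

theorem fib_cht {Ω : Set (V n)} (D : Dir Ω) {a : ℝ → ℝ} (ha : ContDiff ℝ ∞ a) (hm : Monotone a)
    {m : ℕ} (y : Y n m) : Cht (fibH D ha m) y := by
  refine cht_dir (f := fun y : Y n m => a (D.u y.2))
    ((gl_fibre (ha.comp D.u.contDiff)).smAt y) D.e ?_
  have h1 : fd (fun y : Y n m => a (D.u y.2)) y = deriv a (D.u y.2) • D.u :=
    ((ha.differentiable (by simp) _).hasDerivAt.comp_hasFDerivAt y.2 D.u.hasFDerivAt).fderiv
  rw [h1, smul_apply, D.ue, smul_eq_mul, mul_one]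
  have := hm.deriv_nonneg (x := D.u y.2)
  positivity

theorem fib_hor {Ω : Set (V n)} (D : Dir Ω) {a : ℝ → ℝ} (ha : ContDiff ℝ ∞ a) (hm : Monotone a)
    {m : ℕ} {F : Raw n m} {y : Y n m} (h : F (y.1, fibH D ha m y) = hor (y.1, fibH D ha m y)) :
    pc (fb (fibH D ha m)) F y = hor y :=
  (pc_congr (fb (fibH D ha m)) (G := hor) h).trans
    ((fib_cht D ha hm y).ker_eq_hor (.of_forall fun _ => rfl))

theorem fib_low {Ω Z : Set (V n)} {u : V n → ℝ} {c : ℝ} {m : ℕ} {F : Raw n m} (h : Fib Z u c m F)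
    {y : Y n m} (hy : y.2 ∈ Ω) (hu : u y.2 ≤ c) : sel Z F (oo Ω m) y = hor y := by
  by_cases hz : y.2 ∈ Z
  · rw [sel_of_mem _ _ hz, h.2 y hz hu]
  · rw [sel_of_not_mem _ _ hz]; exact res_of_mem _ hy

theorem fib_ext {Ω Z : Set (V n)} (D : Dir Ω) (h1 : ∀ x ∈ Ω, 0 ≤ D.u x → x ∈ Z) (h2 : Z ⊆ Ω)
    {c : ℝ} (hc : 0 < c) {m : ℕ} {F : Raw n m} (h : Fib Z D.u c m F) :
    IsF Ω m (sel Z F (oo Ω m)) := by
  have hu : Continuous fun y : Y n m => D.u y.2 := D.u.continuous.comp continuous_snd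
  obtain ⟨M, hM⟩ := h.1.2.2
  refine ⟨fun y hy => ?_, lc_of_loc fun y₀ hy₀ => ?_, M, fun y hy hy' => ?_⟩
  · rw [sel_of_not_mem _ _ fun hz => hy (h2 hz)]; exact res_of_not_mem _ hy
  · rcases lt_or_ge (D.u y₀.2) c with hl | hl
    · refine ⟨hor, Ω, hy₀, lc_hor, ?_⟩
      filter_upwards [(isOpen_lt hu continuous_const).mem_nhds hl] with y hy hy'
      exact ⟨hy', fib_low h hy' (le_of_lt hy)⟩
    · refine ⟨F, Z, h1 _ hy₀ (hc.le.trans hl), h.1.2.1, ?_⟩
      filter_upwards [(isOpen_lt continuous_const hu).mem_nhds (hc.trans_le hl)] with y hy hy'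
      exact ⟨h1 _ hy' (le_of_lt hy), sel_of_mem _ _ (h1 _ hy' (le_of_lt hy))⟩
  · by_cases hz : y.2 ∈ Z
    · rw [sel_of_mem _ _ hz, hM y hz hy']
    · rw [sel_of_not_mem _ _ hz]; exact res_of_mem _ hy

theorem fib_cyc {S T : SS} {φ : ∀ n, S.X n → T.X n} (h : S.Nat T φ) :
    ∀ {k : ℕ} {z : FA (S.X k)}, S.Cyc k z → T.Cyc k (map (φ k) z)
  | 0, _, _ => trivial
  | _ + 1, z, hz => (SS.map_d h z).trans (by rw [show S.d z = 0 from hz, map_zero])

/-- For `k = 0` use `kill_low`. Extend by `sel Z F (oo Ω)` (natural, `lc_of_loc`), fill in `Ω` by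
`w` with `Hb Ω M`, then apply `res Z ∘ pc (fb h)`,
`h x = x - (K * smoothTransition ((c - u x) / (c - c'))) • e` with `K` large; `h` is the identity
above `c`, lowers `u`, and has `M ≤ ‖h x‖` below `c'` and for `‖x‖` large. -/
theorem fib_kill {Ω Z : Set (V n)} (D : Dir Ω) (h1 : ∀ x ∈ Ω, 0 ≤ D.u x → x ∈ Z) (h2 : Z ⊆ Ω)
    {c c' : ℝ} (hc : 0 < c) (hc' : c' < c) {k : ℕ} (h : Acy Ω k) :
    (RS n).Kill (Fib Z D.u c) (Fib Z D.u c') k := by
  intro z hz hd
  have hE : (RS n).Nat (RS n) fun m (F : Raw n m) => sel Z F (oo Ω m) := fun _ _ f F =>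
    (pc_bm_sel _ Z F _).trans (by rw [pc_bm_oo])
  obtain ⟨w, hw, e⟩ := h _ (map_mem _ (fun F hF => fib_ext D h1 h2 hc hF) hz) (fib_cyc hE hd)
  obtain ⟨M, hM⟩ := (ev_mem (l := atTop) (fun _ : ℝ => AddMonoidHom.id (FA (Raw n (k + 1))))
    (fun M => Ch fun F => IsF Ω _ F ∧ Hb Ω M F) (fun F hF => by
      obtain ⟨M, hM⟩ := hF.2.2
      filter_upwards [eventually_ge_atTop M] with M' hM'
      exact of_mem ⟨hF, hM.mono hM'⟩) hw).exists
  have hK : 0 ≤ ‖D.u‖ * |M| + |c'| + 1 := by positivity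
  obtain ⟨a, ha, hm, a1, a2, a3⟩ := fib_fun hc' hK
  have hu : ∀ m (y : Y n m), D.u (fibH D ha m y) = D.u y.2 + a (D.u y.2) := fun m y => by
    change D.u (y.2 + a (D.u y.2) • D.e) = _
    rw [map_add, map_smul, D.ue, smul_eq_mul, mul_one]
  have hΩ : ∀ m (y : Y n m), y.2 ∈ Z → fibH D ha m y ∈ Ω := fun m y hy => D.mv _ (h2 hy) _
  have hN : (RS n).Nat (RS n) fun m (F : Raw n m) => res Z m (pc (fb (fibH D ha m)) F) :=
    fun _ _ f F => (pc_bm_res _ Z _).trans (by rw [pc_bm_fb]; rfl)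
  refine ⟨map (fun F => res Z _ (pc (fb (fibH D ha (k + 1))) F)) w, map_mem _ (fun F hF => ?_) hM,
    (SS.map_d hN w).trans ?_⟩
  · refine ⟨isF_res (hF.1.2.1.fb fun y hy => ⟨fib_cht D ha hm y, hΩ _ y hy⟩)
      (M := M + (‖D.u‖ * |M| + |c'| + 1) * ‖D.e‖) fun y hy hy' =>
        fib_hor D ha hm (hF.2 _ (hΩ _ y hy) ?_), fun y hy hy' =>
      (res_of_mem _ hy).trans (fib_hor D ha hm (hF.2 _ (hΩ _ y hy) ?_))⟩
    · change M ≤ ‖y.2 + a (D.u y.2) • D.e‖
      have q1 := norm_sub_le (y.2 + a (D.u y.2) • D.e) (a (D.u y.2) • D.e)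
      rw [add_sub_cancel_right, norm_smul, Real.norm_eq_abs, abs_of_nonpos (a1 _).2] at q1
      have q2 := mul_le_mul_of_nonneg_right (neg_le.1 (a1 (D.u y.2)).1) (norm_nonneg D.e)
      linarith
    · change M ≤ ‖fibH D ha _ y‖
      by_contra hlt
      have q1 := D.u.le_opNorm (fibH D ha _ y)
      rw [hu, a3 _ hy', Real.norm_eq_abs] at q1
      have q2 := mul_le_mul_of_nonneg_left ((not_le.1 hlt).le.trans (le_abs_self M))
        (norm_nonneg D.u)
      linarith [neg_le_abs (D.u y.2 + -(‖D.u‖ * |M| + |c'| + 1)), le_abs_self c']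
  · rw [e]
    refine (map_map _ _ z).trans (map_self_on (fun F hF => ?_) hz)
    refine (res_congr fun y hy => ?_).trans hF.1.res_self
    rcases le_or_gt (D.u y.2) c with hl | hl
    · rw [hF.2 y hy hl]
      exact fib_hor D ha hm (fib_low hF (hΩ _ y hy) (by rw [hu]; linarith [(a1 (D.u y.2)).2]))
    · rw [pc_eq_of_eventuallyEq (g := ContinuousMap.id _), pc_id, sel_of_mem _ _ hy]
      filter_upwards [(isOpen_lt continuous_const
        (D.u.continuous.comp continuous_snd)).mem_nhds hl] with y' hy'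
      refine Prod.ext rfl ?_
      change y'.2 + a (D.u y'.2) • D.e = y'.2
      rw [a2 (D.u y'.2) (le_of_lt hy'), zero_smul, add_zero]

end

end Pool.Agent.P.MP_878f14_gt.HT.D
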