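import Pool.Agent.P.MP_878f14_gt.HT.D.Rep
import Pool.Agent.P.MP_878f14_gt.HT.D.Fib

/-! The carriers are acyclic up to a loss of level. -/

namespace Pool.Agent.P.MP_878f14_gt.HT.D

open Filter Topology Function FreeAbelianGroup
open scoped ContDiff

noncomputable section

variable {n : ℕ}

/-- the carriers -/
def Car (Z : Set (V n)) (u : V n → ℝ) (c : ℝ) {p : ℕ} (y : Raw n p) :
    ((Fn (Fin p)).prod (RS n)).Pr := fun m a =>
  IsF Z m a.2 ∧ ∀ x : Y n m, x.2 ∈ Z → u x.2 ≤ c → a.2 x = (RS n).pull a.1 y x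

/-- damping the displacement -/
def bl (l : V n → ℝ) {m : ℕ} (σ : Y n m → V n) (κ : Fin m → Bool) : Y n m → V n :=
  fun y => y.2 + (1 - sk κ y.1.1 * l y.2) • (σ y - y.2)

theorem bl_bm (l : V n → ℝ) {m p : ℕ} (σ : Y n p → V n) (κ : Fin p → Bool) (f : Fin m → Fin p) :
    bl l σ κ ∘ bm (fun i => vx (f i)) = bl l (σ ∘ bm fun i => vx (f i)) (κ ∘ f) :=
  funext fun y => by simp only [bl, comp_apply, bm_apply, sk_aff]

theorem sml_bl {l : V n → ℝ} (hl : ContDiff ℝ ∞ l) (h0 : ∀ x, l x ∈ Set.Icc (0 : ℝ) 1) {L ε : ℝ}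
    (h1 : ∀ x, ‖fderiv ℝ l x‖ ≤ L) {m : ℕ} {σ : Y n m → V n} (h : Sml ε σ) (κ : Fin m → Bool) :
    Sml (ε + L * ε) (bl l σ κ) := by
  have ha : ∀ y : Y n m, |1 - sk κ y.1.1 * l y.2| ≤ 1 := fun y => by
    have := sk_mem κ y.1
    have := h0 y.2
    rw [abs_le]
    constructor <;> nlinarith [this.1, this.2, (sk_mem κ y.1).1, (sk_mem κ y.1).2]
  refine ⟨gl_snd.add (((gl_const 1).sub ((gl_sk κ).smul (gl_fibre hl))).smul (h.gl.sub gl_snd)),
    fun y => ?_, fun y => ?_, h.far.imp fun M hM y hy => by simp [bl, hM y hy]⟩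
  · have hL : 0 ≤ L * ε := mul_nonneg ((norm_nonneg _).trans (h1 0))
      ((norm_nonneg _).trans (h.c0 y))
    rw [bl, add_sub_cancel_left, norm_smul, Real.norm_eq_abs]
    nlinarith [ha y, h.c0 y, norm_nonneg (σ y - y.2), abs_nonneg (1 - sk κ y.1.1 * l y.2)]
  · have d1 := (h.gl.smAt y).hasFDerivAt.sub (hasFDerivAt_id y.2)
    have d2 := ((hl.differentiable (by simp) y.2).hasFDerivAt.const_mul (sk κ y.1.1)).const_sub 1
    have d3 := (hasFDerivAt_id y.2).add (d2.smul d1)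
    have e : fd (bl l σ κ) y = _ := d3.fderiv
    rw [e, add_sub_cancel_left]
    refine (norm_add_le _ _).trans (add_le_add ?_ ?_)
    · rw [norm_smul, Real.norm_eq_abs]
      nlinarith [ha y, h.c1 y, norm_nonneg (fd σ y - ContinuousLinearMap.id ℝ (V n)),
        abs_nonneg (1 - sk κ y.1.1 * l y.2)]
    · rw [ContinuousLinearMap.norm_smulRight_apply, norm_neg, norm_smul, Real.norm_eq_abs,
        abs_of_nonneg (sk_mem κ y.1).1]
      refine mul_le_mul ?_ (h.c0 y) (norm_nonneg _) ((norm_nonneg _).trans (h1 0))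
      nlinarith [(sk_mem κ y.1).1, (sk_mem κ y.1).2, h1 y.2, norm_nonneg (fderiv ℝ l y.2)]

/-- cut-off functions with a uniform bound for the derivative -/
theorem exists_cut (u : V n →L[ℝ] ℝ) {η : ℝ} (hη : 0 < η) : ∃ L : ℝ, 0 ≤ L ∧ ∀ c : ℝ,
    ∃ l : V n → ℝ, ContDiff ℝ ∞ l ∧ (∀ x, l x ∈ Set.Icc (0 : ℝ) 1) ∧
      (∀ x, ‖fderiv ℝ l x‖ ≤ L) ∧ (∀ x, u x < c - 7 / 8 * η ∨ c - 2 / 8 * η < u x → l x = 0) ∧
        ∀ x, c - 6 / 8 * η < u x → u x < c - 3 / 8 * η → l x = 1 := by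
  let b : ContDiffBump (-(9 / 16 * η)) := ⟨3 / 16 * η, 5 / 16 * η, by positivity, by linarith⟩
  have hb : ContDiff ℝ ∞ b := b.contDiff
  obtain ⟨C, hC⟩ := (hb.continuous_fderiv (by simp)).bounded_above_of_compact_support
    (b.hasCompactSupport.fderiv ℝ)
  refine ⟨C * ‖u‖, mul_nonneg ((norm_nonneg _).trans (hC 0)) (norm_nonneg _), fun c =>
    ⟨fun x => b (u x - c), hb.comp (u.contDiff.sub contDiff_const), fun x => ⟨b.nonneg, b.le_one⟩,
      fun x => ?_, fun x hx => b.zero_of_le_dist ?_, fun x h1 h2 => b.one_of_mem_closedBall ?_⟩⟩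
  · have := (hb.differentiable (by simp) (u x - c)).hasFDerivAt.comp x (u.hasFDerivAt.sub_const c)
    rw [show fderiv ℝ (fun x => b (u x - c)) x = _ from this.fderiv]
    exact (ContinuousLinearMap.opNorm_comp_le _ _).trans
      (mul_le_mul_of_nonneg_right (hC _) (norm_nonneg _))
  · change 5 / 16 * η ≤ _
    rw [Real.dist_eq, le_abs]
    rcases hx with hx | hx
    · right; linarith
    · left; linarith
  · change dist _ _ ≤ 3 / 16 * η
    rw [Real.dist_eq, abs_le]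
    constructor <;> linarith

variable {p : ℕ}

/-- the damped foliation over a vertex map -/
def bk (Z : Set (V n)) (l : V n → ℝ) (σ : Y n p → V n) {m : ℕ} (θ : Fin m → Fin p)
    (κ : Fin m → Bool) : Raw n m := res Z m (ker (bl l ((TA n).ss.pull θ σ) κ))

theorem bk_nat (Z : Set (V n)) (l : V n → ℝ) (σ : Y n p → V n) {k m : ℕ} (θ : Fin m → Fin p)
    (κ : Fin m → Bool) (f : Fin k → Fin m) :
    pc (bm fun i => vx (f i)) (bk Z l σ θ κ) = bk Z l σ (θ ∘ f) (κ ∘ f) := by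
  rw [bk, pc_bm_res, pc_ker, bl_bm, bk, ← (TA n).ss.pull_comp]

/-- first homotopy: flatten a band -/
def H1 (Z s : Set (V n)) (l : V n → ℝ) (σ : Y n p → V n) :
    Hty ((Fn (Fin p)).prod (RS n)) ((Fn (Fin p)).prod (RS n)) where
  H a κ := (a.1, sel s (bk Z l σ a.1 κ) a.2)
  nat f a κ := Prod.ext rfl ((pc_bm_sel _ _ _ _).trans (by rw [bk_nat]))

/-- second homotopy: contract the vertex map below the band -/
def H2 (Z s s' : Set (V n)) (l : V n → ℝ) (σ : Y n (p + 1) → V n) :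
    Hty ((Fn (Fin (p + 1))).prod (RS n)) ((Fn (Fin (p + 1))).prod (RS n)) where
  H a κ := (fun i => if κ i then 0 else a.1 i,
    sel s' (bk Z l σ (fun i => if κ i then 0 else a.1 i) fun _ => true)
      (sel s (bk Z l σ a.1 fun _ => true) a.2))
  nat f a κ := Prod.ext rfl ((pc_bm_sel _ _ _ _).trans (by rw [pc_bm_sel, bk_nat, bk_nat]; rfl))

theorem car_cl (Z : Set (V n)) (u : V n → ℝ) (c : ℝ) (y : Raw n p) :
    ((Fn (Fin p)).prod (RS n)).Cl (Car Z u c y) := fun _ _ f a h =>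
  ⟨isF_cl Z _ _ h.1, fun x hx hu => (pc_congr _ (h.2 (bm _ x) hx hu)).trans
    (congrFun ((RS n).pull_comp f a.1 y) x)⟩

theorem car_kill {Ω Z : Set (V n)} (D : Dir Ω) (h1 : ∀ x ∈ Ω, 0 ≤ D.u x → x ∈ Z) (h2 : Z ⊆ Ω)
    {η : ℝ} (hη : 0 < η) : ∃ ε > 0, ∀ (δ c : ℝ) (p k : ℕ) (y : Raw n (p + 1)), η ≤ c → c ≤ δ →
      SF ε {x | x ∈ Z ∧ D.u x ≤ δ} _ y → Acy Ω k →
        ((Fn (Fin (p + 1))).prod (RS n)).Kill (Car Z D.u c y) (Car Z D.u (c - η) y) k := by
  obtain ⟨L, hL, hcut⟩ := exists_cut D.u hη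
  refine ⟨1 / (2 * (1 + L)), by positivity, fun δ c p k y hc hδ hy hA z hz hd => ?_⟩
  obtain ⟨hy, σ, hσ, eσ⟩ := hy
  obtain ⟨l, l1, l2, l3, l4, l5⟩ := hcut c
  have hu : Continuous fun x : V n => D.u x := D.u.continuous
  have hε : 1 / (2 * (1 + L)) + L * (1 / (2 * (1 + L))) < 1 := by
    rw [show 1 / (2 * (1 + L)) + L * (1 / (2 * (1 + L))) = 1 / 2 by field_simp]
    norm_num
  have hs : ∀ {m : ℕ} (θ : Fin m → Fin (p + 1)) κ, Sml _ (bl l ((TA n).ss.pull θ σ) κ) :=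
    fun θ κ => sml_bl l1 l2 l3 (hσ.bm _) κ
  have bF : ∀ {m : ℕ} (θ : Fin m → Fin (p + 1)) κ, IsF Z m (bk Z l σ θ κ) :=
    fun θ κ => (hs θ κ).isF hε Z
  have hc0 : ∀ {m : ℕ} (x : Y n m), x.2 ∈ Z → D.u x.2 ≤ c →
      (RS n).pull (fun _ => 0) y x = hor x := fun x hx hu =>
    hy.2.1.const (vx 0) ⟨hx, hu.trans hδ⟩
  have b0 : ∀ {m : ℕ} (θ : Fin m → Fin (p + 1)) κ (x : Y n m), x.2 ∈ Z → D.u x.2 ≤ c →
      (∀ᶠ x' in 𝓝 x, sk κ x'.1.1 * l x'.2 = 0) → bk Z l σ θ κ x = (RS n).pull θ y x := by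
    intro m θ κ x hx hxc h
    rw [bk, res_of_mem _ hx]
    refine (ker_congr (σ' := (TA n).ss.pull θ σ) (h.mono fun x' hx' => ?_)).trans
      (pc_congr _ (eσ (bm _ x) ⟨hx, hxc.trans hδ⟩)).symm
    simp [bl, hx']
  have b0' : ∀ {m : ℕ} (θ : Fin m → Fin (p + 1)) κ (x : Y n m), x.2 ∈ Z → D.u x.2 ≤ c →
      (D.u x.2 < c - 7 / 8 * η ∨ c - 2 / 8 * η < D.u x.2) →
        bk Z l σ θ κ x = (RS n).pull θ y x := by
    intro m θ κ x hx hxc h
    refine b0 θ κ x hx hxc ?_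
    have ho : IsOpen {x' : Y n m | D.u x'.2 < c - 7 / 8 * η ∨ c - 2 / 8 * η < D.u x'.2} :=
      (isOpen_lt (hu.comp continuous_snd) continuous_const).union
        (isOpen_lt continuous_const (hu.comp continuous_snd))
    filter_upwards [ho.mem_nhds h] with x' hx'
    rw [l4 _ hx', mul_zero]
  have b1 : ∀ {m : ℕ} (θ : Fin m → Fin (p + 1)) (x : Y n m), x.2 ∈ Z →
      c - 6 / 8 * η < D.u x.2 → D.u x.2 < c - 3 / 8 * η →
        bk Z l σ θ (fun _ => true) x = hor x := by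
    intro m θ x hx h h'
    rw [bk, res_of_mem _ hx]
    have ho : IsOpen {x' : Y n m | c - 6 / 8 * η < D.u x'.2 ∧ D.u x'.2 < c - 3 / 8 * η} :=
      (isOpen_lt continuous_const (hu.comp continuous_snd)).inter
        (isOpen_lt (hu.comp continuous_snd) continuous_const)
    refine ker_congr ?_
    filter_upwards [ho.mem_nhds ⟨h, h'⟩] with x' hx'
    simp [bl, sk_true, l5 _ hx'.1 hx'.2]
  have b2 : ∀ {m : ℕ} (x : Y n m), x.2 ∈ Z →
      bk Z l σ (fun _ => 0) (fun _ => true) x = hor x := by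
    intro m x hx
    rw [bk, res_of_mem _ hx]
    refine (cht_of_norm ((hs _ _).gl.smAt x) (((hs _ _).c1 x).trans_lt hε)).ker_eq_hor
      (.of_forall fun x' => ?_)
    simp only [bl, sk_true, comp_apply, bm_apply, aff_const]
  have hι : ∀ m F, Fib Z D.u (c - η) m F → Car Z D.u (c - η) y m (fun _ => 0, F) :=
    fun m F hF => ⟨hF.1, fun x hx hu => (hF.2 x hx hu).trans (hc0 x hx (by linarith)).symm⟩
  have nι : (RS n).Nat ((Fn (Fin (p + 1))).prod (RS n)) fun _ F => (fun _ => 0, F) :=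
    fun _ _ _ _ => rfl
  rcases k with _ | k
  · obtain ⟨W, hW, e⟩ := kill_low (Z := Z) (P := IsF Z) (Q := Fib Z D.u (c - η))
      (fun _ _ h => h) (fun m => ⟨isF_oo Z m, fun x hx _ => res_of_mem _ hx⟩) (Nat.zero_le 1)
      (map Prod.snd z) (map_mem _ (fun a ha => ha.1) hz) trivial
    refine ⟨_, map_mem _ (hι _) hW, (SS.map_d nι W).trans ?_⟩
    rw [e, map_map]
    exact map_self_on (f := fun a => (fun _ => 0, a.2))
      (fun a _ => Prod.ext (Subsingleton.elim _ _) rfl) hz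
  let A := H1 Z {x | D.u x ≤ c - 2 / 8 * η} l σ
  let B := H2 Z {x | D.u x ≤ c - 2 / 8 * η} {x | D.u x ≤ c - 5 / 8 * η} l σ
  have mA : ∀ m a κ, Car Z D.u c y m a → Car Z D.u (c - η) y m (A.H a κ) := fun m a κ ha =>
    ⟨(bF a.1 κ).paste ha.1 hu (c' := c) (by linarith) fun x hx h h' =>
      (b0' _ _ x hx h'.le (.inr h)).trans (ha.2 x hx h'.le).symm, fun x hx h =>
      (sel_of_mem _ _ (show D.u x.2 ≤ _ by linarith)).trans
        (b0' _ _ x hx (by linarith) (.inl (by linarith)))⟩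
  have hb : ∀ m (a : ((Fn (Fin (p + 1))).prod (RS n)).X m) (x : Y n m), x.2 ∈ Z →
      c - 5 / 8 * η < D.u x.2 → D.u x.2 ≤ c - 4 / 8 * η → (A.H a fun _ => true).2 x = hor x :=
    fun m a x hx h h' => (sel_of_mem _ _ (show D.u x.2 ≤ _ by linarith)).trans
      (b1 _ x hx (by linarith) (by linarith))
  have mB : ∀ m a κ, Car Z D.u c y m a → Car Z D.u (c - η) y m (B.H a κ) := fun m a κ ha =>
    ⟨(bF _ _).paste (mA m a (fun _ => true) ha).1 hu (c' := c - 4 / 8 * η) (by linarith)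
      fun x hx h h' => (b1 _ x hx (by linarith) (by linarith)).trans (hb m a x hx h h'.le).symm,
      fun x hx h => (sel_of_mem _ _ (show D.u x.2 ≤ _ by linarith)).trans
        (b0' _ _ x hx (by linarith) (.inl (by linarith)))⟩
  have eA : map (A.en false _) z = z := map_self_on (f := A.en false _)
      (fun a ha => Prod.ext rfl (funext fun x => by
    by_cases h : D.u x.2 ≤ c - 2 / 8 * η
    · refine (sel_of_mem _ _ h).trans ?_
      by_cases hx : x.2 ∈ Z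
      · exact (b0 _ _ x hx (by linarith) (.of_forall fun x' => by rw [sk_false, zero_mul])).trans
          (ha.2 x hx (by linarith)).symm
      · exact (res_of_not_mem _ hx).trans (ha.1.1 x hx).symm
    · exact sel_of_not_mem _ _ h)) hz
  have eB : B.en false (k + 1) = A.en true _ := funext fun a => Prod.ext rfl (funext fun x => by
    by_cases h : D.u x.2 ≤ c - 5 / 8 * η
    · exact (sel_of_mem _ _ h).trans (sel_of_mem _ _ (show D.u x.2 ≤ _ by linarith)).symm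
    · exact sel_of_not_mem _ _ h)
  have nB : ((Fn (Fin (p + 1))).prod (RS n)).Nat (RS n) fun m a => (B.en true m a).2 :=
    fun _ _ f a => congrArg Prod.snd (B.en_nat true f a)
  obtain ⟨W, hW, eW⟩ := fib_kill D h1 h2 (c := c - 4 / 8 * η) (c' := c - η) (by linarith)
    (by linarith) hA (map (fun a => (B.en true _ a).2) z)
    (map_mem _ (fun a ha => ⟨(mB _ a _ ha).1, fun x hx h => by
      by_cases h' : D.u x.2 ≤ c - 5 / 8 * η
      · exact (sel_of_mem _ _ h').trans (b2 x hx)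
      · exact (sel_of_not_mem _ _ h').trans (hb _ a x hx (not_le.1 h') h)⟩) hz)
    ((SS.map_d nB z).trans (by rw [show SS.d _ z = 0 from hd, map_zero]))
  refine ⟨map (fun F => (fun _ => 0, F)) W - B.prism z - A.prism z,
    sub_mem (sub_mem (map_mem _ (hι _) hW) (B.prism_mem (car_cl _ _ _ _) mB hz))
      (A.prism_mem (car_cl _ _ _ _) mA hz), ?_⟩
  have e1 := SS.map_d nι W
  rw [eW, map_map] at e1
  rw [map_sub, map_sub, A.d_prism, B.d_prism, show SS.d _ z = 0 from hd, map_zero, map_zero, eA,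
    eB]
  erw [e1]
  change map (B.en true _) z - _ - _ = _
  abel

end

end Pool.Agent.P.MP_878f14_gt.HT.D
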