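import Pool.Agent.P.MP_878f14_gt.HT.D.Sm

/-! Charts. -/

namespace Pool.Agent.P.MP_878f14_gt.HT.D

open Filter Topology Function
open scoped ContDiff

noncomputable section

variable {n m p : ℕ} {y : Y n m}

section aux

variable {E F : Type} [NormedAddCommGroup E] [NormedSpace ℝ E] [NormedAddCommGroup F]
  [NormedSpace ℝ F]

theorem cht_ev_bound [FiniteDimensional ℝ E] {Z : Type} [TopologicalSpace Z] {L : Z → E →L[ℝ] F}
    {z : Z} (hc : ContinuousAt L z) (hi : Injective (L z)) : ∀ᶠ y in 𝓝 z, Injective (L y) := by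
  obtain ⟨K, hK, h⟩ := LinearMap.exists_antilipschitzWith (L z : E →ₗ[ℝ] F)
    (LinearMap.ker_eq_bot.mpr hi)
  have hK' : (0 : ℝ) < K := hK
  filter_upwards [Metric.tendsto_nhds.mp hc (1 / (2 * K)) (by positivity)] with y hy
  refine (injective_iff_map_eq_zero _).mpr fun ξ hξ => ?_
  have a1 : ‖ξ‖ ≤ K * ‖L z ξ‖ := ZeroHomClass.bound_of_antilipschitz _ h ξ
  have a2 : ‖L y ξ - L z ξ‖ ≤ 1 / (2 * K) * ‖ξ‖ :=
    (L y - L z).le_of_opNorm_le (by rw [← dist_eq_norm]; exact hy.le) ξ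
  rw [hξ, zero_sub, norm_neg] at a2
  have a4 : K * (1 / (2 * K) * ‖ξ‖) = ‖ξ‖ / 2 := by field_simp
  have a5 := mul_le_mul_of_nonneg_left a2 hK'.le
  exact norm_le_zero_iff.mp (by linarith)

theorem cht_loc_inv [FiniteDimensional ℝ E] {Θ : E → E} {a : E}
    (hs : ∀ᶠ y in 𝓝 a, ContDiffAt ℝ ∞ Θ y) (hi : Injective (fderiv ℝ Θ a)) :
    ∃ Ξ : E → E, (∀ᶠ y in 𝓝 (Θ a), ContDiffAt ℝ ∞ Ξ y) ∧ (∀ᶠ y in 𝓝 a, Ξ (Θ y) = y) ∧
      ∀ᶠ y in 𝓝 (Θ a), Θ (Ξ y) = y := by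
  have eq : ∀ L : E →L[ℝ] E, Injective L → ∃ e : E ≃L[ℝ] E, (e : E →L[ℝ] E) = L := fun L hL =>
    ⟨(LinearEquiv.ofInjectiveEndo (L : E →ₗ[ℝ] E) hL).toContinuousLinearEquiv, rfl⟩
  obtain ⟨e, he⟩ := eq _ hi
  have cd := hs.self_of_nhds
  have hd : HasFDerivAt Θ (e : E →L[ℝ] E) a := he ▸ (cd.differentiableAt (by simp)).hasFDerivAt
  let f := cd.toOpenPartialHomeomorph Θ hd (by simp)
  have h1 : a ∈ f.source := cd.mem_toOpenPartialHomeomorph_source hd (by simp)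
  have hc := cht_ev_bound (cd.fderiv_right (m := 0) (by simp)).continuousAt hi
  refine ⟨f.symm, ?_, f.eventually_left_inverse h1, f.eventually_right_inverse' h1⟩
  filter_upwards [(f.tendsto_symm h1).eventually (hs.and hc),
    f.open_target.mem_nhds (f.map_source h1)] with y hy hy'
  obtain ⟨e', he'⟩ := eq _ hy.2
  exact f.contDiffAt_symm hy' (he' ▸ (hy.1.differentiableAt (by simp)).hasFDerivAt) hy.1

end aux

theorem cht_tendsto_fibre (y : Y n m) : Tendsto (fun x : V n => ((y.1, x) : Y n m)) (𝓝 y.2) (𝓝 y) :=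
  (Continuous.prodMk_right y.1).tendsto y.2

theorem cht_ev_fibre {τ : Y n m → V n} (h : SmAt τ y) :
    ∀ᶠ x in 𝓝 y.2, ContDiffAt ℝ ∞ (fun x => τ (y.1, x)) x := by
  obtain ⟨φ, h1, h2⟩ := h
  filter_upwards [(cht_tendsto_fibre y).eventually
    ((continuous_amb.tendsto y).eventually h1.eventually_nhds),
    (cht_tendsto_fibre y).eventually h2.eventually_nhds] with x a b
  exact SmAt.contDiffAt_fibre (y := (y.1, x)) ⟨φ, a, b⟩

variable {τ τ' c : Y n m → V n}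

theorem Cht.congr (h : Cht τ y) (e : ∀ᶠ y' in 𝓝 y, τ' y' = τ y') : Cht τ' y :=
  ⟨h.1.congr e, by rw [fd_congr e]; exact h.2⟩

theorem cht_snd (y : Y n m) : Cht Prod.snd y :=
  ⟨gl_snd.smAt y, by rw [fd_snd]; exact injective_id⟩

theorem Cht.bm {τ : Y n p → V n} {v : Fin m → Δ p} (h : Cht τ (bm v y)) : Cht (τ ∘ bm v) y :=
  ⟨h.1.bm, h.2⟩

/-- chain rule in the fibre -/
theorem Cht.fib (h : Cht τ (y.1, c y)) (hc : Cht c y) : Cht (fun y => τ (y.1, c y)) y := by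
  refine ⟨h.1.fib hc.1, ?_⟩
  have e : fd (fun y => τ (y.1, c y)) y = (fd τ (y.1, c y)).comp (fd c y) :=
    (HasFDerivAt.comp (f := fun x => c (y.1, x)) y.2 h.1.hasFDerivAt hc.1.hasFDerivAt).fderiv
  rw [e]
  exact h.2.comp hc.2

theorem cht_of_norm (h : SmAt τ y) (h1 : ‖fd τ y - ContinuousLinearMap.id ℝ (V n)‖ < 1) :
    Cht τ y := by
  refine ⟨h, (injective_iff_map_eq_zero _).mpr fun ξ hξ => ?_⟩
  have a := (fd τ y - ContinuousLinearMap.id ℝ (V n)).le_opNorm ξ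
  rw [_root_.sub_apply, hξ, zero_sub, norm_neg, ContinuousLinearMap.id_apply] at a
  by_contra h0
  nlinarith [norm_pos_iff.mpr h0]

/-- moving in a fixed direction -/
theorem cht_dir {f : Y n m → ℝ} (h : SmAt f y) (e : V n) (h1 : 1 + fd f y e ≠ 0) :
    Cht (fun y => y.2 + f y • e) y := by
  have d : fd (fun y => y.2 + f y • e) y = ContinuousLinearMap.id ℝ (V n) + (fd f y).smulRight e :=
    ((hasFDerivAt_id y.2).add (h.hasFDerivAt.smul_const e)).fderiv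
  obtain ⟨φ, a, b⟩ := h
  refine ⟨⟨fun w => w.2 + φ w • e, a.mono fun w hw => contDiffAt_snd.add (hw.smul contDiffAt_const),
    b.mono fun y' hy => congrArg (fun r : ℝ => y'.2 + r • e) hy⟩, ?_⟩
  rw [d]
  refine (injective_iff_map_eq_zero _).mpr fun ξ hξ => ?_
  have h2 : ξ + fd f y ξ • e = 0 := hξ
  have h3 := congrArg (fd f y) h2
  rw [map_add, map_smul, map_zero, smul_eq_mul] at h3
  have h4 : fd f y ξ = 0 := (mul_eq_zero.mp (by linear_combination h3 :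
    fd f y ξ * (1 + fd f y e) = 0)).resolve_right h1
  simpa [h4] using h2

/-- a chart is injective on the fibre near the point (strict derivative, finite dimension) -/
theorem Cht.inj (h : Cht τ y) :
    ∀ᶠ ab in 𝓝 (y.2, y.2), τ (y.1, ab.1) = τ (y.1, ab.2) → ab.1 = ab.2 := by
  obtain ⟨Ξ, -, h, -⟩ := cht_loc_inv (cht_ev_fibre h.1) h.2
  filter_upwards [h.prod_nhds h] with p hp e
  rw [← hp.1, e, hp.2]

/-- a chart that does not depend on the base point defines the horizontal foliation -/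
theorem Cht.ker_eq_hor (h : Cht τ y) (e : ∀ᶠ y' in 𝓝 y, τ y' = τ (y.1, y'.2)) :
    ker τ y = hor y := by
  rw [hor, ker, ker, rel_eq_iff]
  have t : Tendsto (fun ab : Y n m × Y n m => (ab.1.2, ab.2.2)) (𝓝 (y, y)) (𝓝 (y.2, y.2)) :=
    Continuous.tendsto' (by fun_prop) _ _ rfl
  filter_upwards [e.prod_nhds e, t.eventually h.inj] with ab a b
  rw [a.1, a.2]
  exact ⟨b, fun c => by rw [c]⟩

/-- normalising a chart: compose with the local inverse of its restriction to the fibre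
(`ContDiffAt.toOpenPartialHomeomorph`, `ContDiffAt.to_localInverse`) -/
theorem Cht.norm (h : Cht τ y) : ∃ τ' : Y n m → V n, SmAt τ' y ∧
    (∀ᶠ x in 𝓝 y.2, τ' (y.1, x) = x) ∧ ∀ᶠ y' in 𝓝 y, ker τ' y' = ker τ y' := by
  obtain ⟨Ξ, s, l, r⟩ := cht_loc_inv (cht_ev_fibre h.1) h.2
  have ct : Tendsto τ (𝓝 y) (𝓝 (τ (y.1, y.2))) := h.1.continuousAt
  obtain ⟨φ, a, b⟩ := h.1
  refine ⟨fun y => Ξ (τ y), ⟨fun w => Ξ (φ w), ?_, b.mono fun y' hy => congrArg Ξ hy⟩, l,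
    ker_eventually ?_⟩
  · have c : Tendsto φ (𝓝 (amb y)) (𝓝 (τ (y.1, y.2))) := by
      rw [show τ (y.1, y.2) = φ (amb y) from b.self_of_nhds]
      exact a.self_of_nhds.continuousAt
    filter_upwards [a, c.eventually s] with w h1 h2
    exact h2.comp w h1
  · rw [ker, ker, rel_eq_iff]
    filter_upwards [(ct.eventually r).prod_nhds (ct.eventually r)] with ab h1
    exact ⟨fun e => by rw [← h1.1, e, h1.2], fun e => by rw [e]⟩

/-- normalised charts are unique: compare `a` with `(y.1, τ a)` -/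
theorem norm_unique (h : ContinuousAt τ y) (h1 : ∀ᶠ x in 𝓝 y.2, τ (y.1, x) = x)
    (h1' : ∀ᶠ x in 𝓝 y.2, τ' (y.1, x) = x) (e : ker τ y = ker τ' y) :
    ∀ᶠ y' in 𝓝 y, τ y' = τ' y' := by
  rw [ker, ker, rel_eq_iff] at e
  have t0 : Tendsto τ (𝓝 y) (𝓝 y.2) := by
    rw [← h1.self_of_nhds]
    exact h
  have t : Tendsto (fun a : Y n m => (a, ((y.1, τ a) : Y n m))) (𝓝 y) (𝓝 (y, y)) :=
    tendsto_id.prodMk_nhds ((cht_tendsto_fibre y).comp t0)
  filter_upwards [t.eventually e, t0.eventually h1, t0.eventually h1'] with a a1 a2 a3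
  exact (a1.mp a2.symm).trans a3 |>.symm

end

end Pool.Agent.P.MP_878f14_gt.HT.D
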