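import Mathlib

/-! The semi-simplicial set of framed Haefliger structures on the standard simplices: germs along
`Δ ^ p × 0` of smooth foliations of `Δ ^ p × ℝ ^ n` transverse to the fibres. -/

namespace Pool.Agent.P.MP_878f14_gt.HT.D

open Filter Topology
open scoped ContDiff

noncomputable section

/-- the standard `p`-simplex -/
abbrev Sx (p : ℕ) : Type := stdSimplex ℝ (Fin (p + 1))

/-- the trivial bundle over the simplex -/
abbrev Tot (n p : ℕ) : Type := Sx p × (Fin n → ℝ)

/-- germs at `(t, 0)` of relations between two points of the bundle -/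
abbrev Gm (n : ℕ) {p : ℕ} (t : Sx p) : Type :=
  Germ (𝓝 (((t, 0), (t, 0)) : Tot n p × Tot n p)) Prop

/-- `F` is, near every point of the zero section, the germ of the relation of lying in the same
fibre of a smooth map `φ` to `ℝ ^ n` that is a local diffeomorphism along the fibres of the bundle -/
def IsStr {n p : ℕ} (F : ∀ t : Sx p, Gm n t) : Prop :=
  ∀ t₀ : Sx p, ∃ φ : (Fin (p + 1) → ℝ) × (Fin n → ℝ) → Fin n → ℝ,
    (∀ᶠ y in 𝓝 (t₀.1, (0 : Fin n → ℝ)), ContDiffAt ℝ ∞ φ y) ∧
      Function.Bijective (fderiv ℝ (fun x => φ (t₀.1, x)) 0) ∧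
        ∀ᶠ t in 𝓝 t₀, F t = ↑fun ab : Tot n p × Tot n p =>
          φ (ab.1.1.1, ab.1.2) = φ (ab.2.1.1, ab.2.2)

/-- framed Haefliger structures of codimension `n` on the `p`-simplex -/
def Str (n p : ℕ) : Type := {F : ∀ t : Sx p, Gm n t // IsStr F}

/-- the inclusion of the bundle over the `j`-th face -/
def incl {n p : ℕ} (j : Fin (p + 2)) (y : Tot n p) : Tot n (p + 1) :=
  (stdSimplex.map j.succAbove y.1, y.2)

theorem continuous_incl {n p : ℕ} (j : Fin (p + 2)) : Continuous (incl (n := n) j) :=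
  (stdSimplex.continuous_map j.succAbove).prodMap continuous_id

/-- restriction to the `j`-th face -/
def face {n p : ℕ} (j : Fin (p + 2)) (F : Str n (p + 1)) : Str n p :=
  ⟨fun t => (F.1 (stdSimplex.map j.succAbove t)).compTendsto (Prod.map (incl j) (incl j))
    (((continuous_incl j).prodMap (continuous_incl j)).tendsto ((t, 0), (t, 0))), fun t₀ => by
    obtain ⟨φ, h1, h2, h3⟩ := F.2 (stdSimplex.map j.succAbove t₀)
    let L := LinearMap.toContinuousLinearMap (FunOnFinite.linearMap ℝ ℝ j.succAbove)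
    have hL : ContDiff ℝ ∞ (Prod.map L (id : (Fin n → ℝ) → Fin n → ℝ)) :=
      L.contDiff.prodMap contDiff_id
    refine ⟨φ ∘ Prod.map L id, ?_, h2, ?_⟩
    · filter_upwards [(hL.continuous.tendsto (t₀.1, 0)).eventually h1] with y hy
      exact hy.comp y hL.contDiffAt
    · filter_upwards [((stdSimplex.continuous_map j.succAbove).tendsto t₀).eventually h3] with t ht
      rw [ht]
      rfl⟩

/-- the boundary of integral chains -/
def bd {n p : ℕ} : FreeAbelianGroup (Str n (p + 1)) →+ FreeAbelianGroup (Str n p) :=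
  FreeAbelianGroup.lift fun F => ∑ j : Fin (p + 2), (-1 : ℤ) ^ j.1 • .of (face j F)

/-- one vertex, trivial edge path group, and no homology in the degrees from `1` to `m` -/
def Conn (n m : ℕ) : Prop :=
  Nonempty (Unique (Str n 0)) ∧
    (∀ (H : Type) [Group H] (f : Str n 1 → H),
      (∀ w : Str n 2, f (face 1 w) = f (face 2 w) * f (face 0 w)) → ∀ e, f e = 1) ∧
    ∀ k < m, ∀ z : FreeAbelianGroup (Str n (k + 1)), bd z = 0 →
      ∃ w : FreeAbelianGroup (Str n (k + 2)), bd w = z

end

end Pool.Agent.P.MP_878f14_gt.HT.D
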