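import Pool.Agent.P.MP_878f14_gt.HT.D.Rep

/-! The edge path group. -/

namespace Pool.Agent.P.MP_878f14_gt.HT.D

open Filter Topology Function FreeAbelianGroup
open scoped ContDiff

noncomputable section

variable {n : ℕ}

/-- the shear of the prism -/
def edgeC (u : V n) {m : ℕ} (κ : Fin m → Bool) : C(Y n m, V n) where
  toFun y := y.2 + sk κ y.1.1 • u
  continuous_toFun := (gl_snd.add ((gl_sk κ).smul (gl_const u))).continuous

theorem edgeC_cht (u : V n) {m : ℕ} (κ : Fin m → Bool) (y : Y n m) : Cht (edgeC u κ) y := by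
  refine ⟨(gl_snd.add ((gl_sk κ).smul (gl_const u))).smAt y, ?_⟩
  have e : fd (edgeC u κ) y = ContinuousLinearMap.id ℝ (V n) :=
    ((hasFDerivAt_id y.2).add_const (sk κ y.1.1 • u)).fderiv
  rw [e]
  exact injective_id

/-- the simplices of the prism -/
def edgeT (u : V n) (G : Raw n 2) {m : ℕ} (v : Fin m → Fin 2) (κ : Fin m → Bool) : Raw n m :=
  res {0} m (pc (fb (edgeC u κ)) (pc (bm fun i => vx (v i)) G))

theorem edgeT_pull (u : V n) (G : Raw n 2) {k m : ℕ} (g : Fin k → Fin m) (v : Fin m → Fin 2)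
    (κ : Fin m → Bool) : (RS n).pull g (edgeT u G v κ) = edgeT u G (v ∘ g) (κ ∘ g) := by
  change pc (bm fun i => vx (g i)) (edgeT u G v κ) = _
  have e : (edgeC u κ).comp (bm fun i => vx (g i)) = edgeC u (κ ∘ g) :=
    ContinuousMap.ext fun y => congrArg (fun r : ℝ => y.2 + r • u) (sk_aff g κ y.1)
  rw [edgeT, pc_bm_res, pc_bm_fb, e, pc_comp (bm _) (bm _), bm_comp]
  simp only [aff_vx]
  rfl

theorem edgeT_isF (u : V n) {G : Raw n 2} (hG : Lc Set.univ G) {m : ℕ} (v : Fin m → Fin 2)
    (κ : Fin m → Bool) : IsF {0} m (edgeT u G v κ) :=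
  isF_res ((hG.bm _).fb fun y _ => ⟨edgeC_cht u κ y, trivial⟩) (M := 1) fun y hy h1 => by
    rw [show y.2 = 0 from hy, norm_zero] at h1
    exact absurd h1 (by norm_num)

theorem edge_sf (hn : 1 ≤ n) {H : Type} [Group H] (f : Raw n 2 → H)
    (hf : ∀ w : Raw n 3, IsF {0} 3 w → f ((RS n).pull (1 : Fin 3).succAbove w) =
      f ((RS n).pull (2 : Fin 3).succAbove w) * f ((RS n).pull (0 : Fin 3).succAbove w))
    {e : Raw n 2} (he : SF (1 / 2) {0} 2 e) : f e = 1 := by
  obtain ⟨hF, σ, hσ, hE⟩ := he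
  obtain ⟨M, hM⟩ := hσ.far
  have hG : Lc Set.univ (ker σ) := lc_ker fun y _ =>
    cht_of_norm (hσ.gl.smAt y) ((hσ.c1 y).trans_lt (by norm_num))
  have : Nonempty (Fin n) := ⟨⟨0, hn⟩⟩
  let u : V n := fun _ => M + 1
  have hu : M + 1 ≤ ‖u‖ := by
    rw [pi_norm_const]
    exact le_abs_self _
  have ho : f (oo {0} 2) = 1 := by
    have h := hf _ (isF_oo {0} 3)
    have e : ∀ g : Fin 2 → Fin 3, (RS n).pull g (oo {0} 3) = oo {0} 2 := fun g => pc_bm_oo _ _
    rw [e, e, e] at h
    exact left_eq_mul.1 h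
  have hid : pc (bm fun i : Fin 2 => vx (![0, 1] i : Fin 2)) (ker σ) = ker σ := by
    have e : (fun i : Fin 2 => vx (![0, 1] i : Fin 2)) = vx :=
      funext fun i => by fin_cases i <;> rfl
    rw [e, bm_vx, pc_id]
  have h0 : edgeT u (ker σ) ![0, 1] ![false, false] = e := by
    have e1 : fb (edgeC u ![false, false]) = ContinuousMap.id (Y n 2) :=
      ContinuousMap.ext fun y => Prod.ext rfl (by simp [edgeC, sk])
    rw [edgeT, hid, e1, pc_id, ← hF.res_self]
    exact res_congr fun y hy => (hE y hy).symm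
  have h1 : edgeT u (ker σ) ![0, 1] ![true, true] = oo {0} 2 := by
    have e1 : ∀ y : Y n 2, edgeC u ![true, true] y = y.2 + u := fun y => by
      have e2 : (![true, true] : Fin 2 → Bool) = fun _ => true :=
        funext fun i => by fin_cases i <;> rfl
      change y.2 + sk _ y.1.1 • u = _
      rw [e2, sk_true, one_smul]
    rw [edgeT, hid]
    refine res_congr fun y hy => ?_
    have e2 : ker σ (fb (edgeC u ![true, true]) y) = hor (fb (edgeC u ![true, true]) y) := by
      refine hb_ker (Z := Set.univ) hM _ trivial ?_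
      rw [fb_apply, e1, show y.2 = 0 from hy, zero_add]
      exact hu
    rw [pc_congr _ e2]
    refine rel_eq_iff.2 (.of_forall fun ab => ?_)
    change edgeC u _ ab.1 = edgeC u _ ab.2 ↔ ab.1.2 = ab.2.2
    rw [e1, e1, add_left_inj]
  have h2 : ∀ a : Fin 2, edgeT u (ker σ) ![a, a] ![false, true] =
      res {0} 2 (pc (fb (edgeC u ![false, true])) hor) := fun a => by
    have e1 : (fun i : Fin 2 => vx (![a, a] i : Fin 2)) = fun _ => vx a :=
      funext fun i => by fin_cases i <;> rfl
    have e2 : pc (bm (n := n) fun _ : Fin 2 => vx a) (ker σ) = hor :=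
      funext fun y => hG.const _ trivial
    rw [edgeT, e1, e2]
  have v : ∀ {A : Type} (a b c : A), (![a, b, c] ∘ (1 : Fin 3).succAbove = ![a, c]) ∧
      (![a, b, c] ∘ (2 : Fin 3).succAbove = ![a, b]) ∧
      (![a, b, c] ∘ (0 : Fin 3).succAbove = ![b, c]) := fun a b c =>
    ⟨funext fun i => by fin_cases i <;> rfl, funext fun i => by fin_cases i <;> rfl,
      funext fun i => by fin_cases i <;> rfl⟩
  have t1 := hf _ (edgeT_isF u hG ![0, 1, 1] ![false, false, true])
  have t2 := hf _ (edgeT_isF u hG ![0, 0, 1] ![false, true, true])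
  rw [edgeT_pull, edgeT_pull, edgeT_pull] at t1 t2
  simp only [(v _ _ _).1, (v _ _ _).2.1, (v _ _ _).2.2] at t1 t2
  rw [h0, h2] at t1
  rw [h1, h2, ho, mul_one, t1] at t2
  exact mul_eq_right.1 t2

/-- The edge path group is trivial. `f (oo 2) = 1` from `oo 3`; an edge is the product of its two
halves (pull back to a triangle by `![a, mid, b]`), so by a Lebesgue number argument and `loc_sf`
it is enough to treat `res {0} (ker σ)` with `σ` small; for these use the two triangles of the prism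
`(t, x) ↦ σ (t, x + s • R • e₀)`, whose two sides are the same edge. -/
theorem edge_triv (hn : 1 ≤ n) {H : Type} [Group H] (f : Raw n 2 → H)
    (hf : ∀ w : Raw n 3, IsF {0} 3 w → f ((RS n).pull (1 : Fin 3).succAbove w) =
      f ((RS n).pull (2 : Fin 3).succAbove w) * f ((RS n).pull (0 : Fin 3).succAbove w))
    {e : Raw n 2} (he : IsF {0} 2 e) : f e = 1 := by
  let g : Δ 2 → Δ 2 → H := fun a b => f (pc (bm ![a, b]) e)
  have hg : ∀ a c b, g a b = g a c * g c b := fun a c b => by
    have h := hf _ (isF_cl {0} ![a, c, b] e he)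
    have e1 : ∀ j : Fin 2 → Fin 3, (RS n).pull j (pc (bm ![a, c, b]) e) =
        pc (bm (![a, c, b] ∘ j)) e := fun j => by
      change pc (bm fun i => vx (j i)) _ = _
      rw [pc_comp, bm_comp]
      simp only [aff_vx]
      rfl
    have e2 : ![a, c, b] ∘ (1 : Fin 3).succAbove = ![a, b] := funext fun i => by fin_cases i <;> rfl
    have e3 : ![a, c, b] ∘ (2 : Fin 3).succAbove = ![a, c] := funext fun i => by fin_cases i <;> rfl
    have e4 : ![a, c, b] ∘ (0 : Fin 3).succAbove = ![c, b] := funext fun i => by fin_cases i <;> rfl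
    change f ((RS n).pull _ (pc (bm ![a, c, b]) e)) = f ((RS n).pull _ (pc (bm ![a, c, b]) e)) *
      f ((RS n).pull _ (pc (bm ![a, c, b]) e)) at h
    rwa [e1, e1, e1, e2, e3, e4] at h
  have hl : ∀ b, ∀ᶠ b' in 𝓝 b, g b b' = 1 := fun b => by
    obtain ⟨U, hU, h⟩ := loc_sf isClosed_singleton (ε := 1 / 2) (by norm_num) he b
    obtain ⟨r, hr, hb⟩ := Metric.mem_nhds_iff.1 hU
    filter_upwards [Metric.ball_mem_nhds b hr] with b' hb'
    refine edge_sf hn f hf (h 2 ![b, b'] fun t => hb ?_)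
    change lin ![b, b'] t.1 ∈ Metric.ball b.1 r
    rw [lin_apply]
    refine (convex_ball b.1 r).sum_mem (fun i _ => t.2.1 i) t.2.2 fun i _ => ?_
    fin_cases i
    · exact Metric.mem_ball_self hr
    · exact hb'
  have hc : IsLocallyConstant (g (vx 0)) := (IsLocallyConstant.iff_eventually_eq _).2 fun b => by
    filter_upwards [hl b] with b' h
    rw [hg _ b b', h, mul_one]
  have : PreconnectedSpace (Δ 2) :=
    Subtype.preconnectedSpace (convex_stdSimplex ℝ _).isPreconnected
  have h := hc.apply_eq_of_preconnectedSpace (vx 1) (vx 0)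
  rw [(hl (vx 0)).self_of_nhds] at h
  have e1 : (![vx 0, vx 1] : Fin 2 → Δ 2) = vx := funext fun i => by fin_cases i <;> rfl
  simpa only [g, e1, bm_vx, pc_id] using h

end

end Pool.Agent.P.MP_878f14_gt.HT.D
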