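import Pool.Agent.P.MP_878f14_gt.HT.D.Fol2

/-! Restriction to a hyperplane kills cycles. -/

namespace Pool.Agent.P.MP_878f14_gt.HT.D

open Filter Topology Function FreeAbelianGroup
open scoped ContDiff

noncomputable section

variable {n : ℕ}

/-- the height of the push -/
def Null_f (i : Fin n) (b : V n → ℝ) {m : ℕ} (κ : Fin m → Bool) (y : Y n m) : ℝ :=
  sk κ y.1.1 • b (y.2 - y.2 i • Pi.single i (1 : ℝ))

theorem Null_gl (i : Fin n) {b : V n → ℝ} (hb : ContDiff ℝ ∞ b) {m : ℕ} (κ : Fin m → Bool) :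
    Gl (Null_f i b κ) :=
  (gl_sk κ).smul (gl_fibre (g := fun x : V n => b (x - x i • Pi.single i (1 : ℝ)))
    (hb.comp (contDiff_id.sub ((contDiff_apply ℝ ℝ i).smul contDiff_const))))

theorem Null_fd (i : Fin n) {b : V n → ℝ} (hb : ContDiff ℝ ∞ b) {m : ℕ} (κ : Fin m → Bool)
    (y : Y n m) : fd (Null_f i b κ) y (Pi.single i (1 : ℝ)) = 0 := by
  have h1 := (((Null_gl i hb κ).smAt y).hasFDerivAt.hasLineDerivAt (Pi.single i (1 : ℝ)))
  have h2 : HasLineDerivAt ℝ (fun x => Null_f i b κ (y.1, x)) 0 y.2 (Pi.single i (1 : ℝ)) := by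
    have e : (fun t : ℝ => Null_f i b κ (y.1, y.2 + t • Pi.single i (1 : ℝ))) =
        fun _ => Null_f i b κ y := by
      funext t
      simp only [Null_f]
      congr 2
      simp [add_smul]
    unfold HasLineDerivAt
    rw [e]
    exact hasDerivAt_const _ _
  exact h1.unique h2

/-- the push -/
def Null_c (i : Fin n) {b : V n → ℝ} (hb : ContDiff ℝ ∞ b) {m : ℕ} (κ : Fin m → Bool) :
    C(Y n m, V n) :=
  ⟨fun y => y.2 + Null_f i b κ y • Pi.single i (1 : ℝ),
    continuous_snd.add ((Null_gl i hb κ).continuous.smul continuous_const)⟩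

theorem Null_c_apply (i : Fin n) {b : V n → ℝ} (hb : ContDiff ℝ ∞ b) {m : ℕ} (κ : Fin m → Bool)
    (y : Y n m) : Null_c i hb κ y = y.2 + Null_f i b κ y • Pi.single i (1 : ℝ) := rfl

theorem Null_cht (i : Fin n) {b : V n → ℝ} (hb : ContDiff ℝ ∞ b) {m : ℕ} (κ : Fin m → Bool)
    (y : Y n m) : Cht (Null_c i hb κ) y :=
  cht_dir ((Null_gl i hb κ).smAt y) _ (by rw [Null_fd i hb]; norm_num)

/-- the homotopy -/
def Null_h (Z : Set (V n)) (i : Fin n) {b : V n → ℝ} (hb : ContDiff ℝ ∞ b) :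
    Hty (RS n) (RS n) where
  H F κ := res Z _ (pc (fb (Null_c i hb κ)) F)
  nat {m p} f F κ := by
    change pc (bm fun j => vx (f j)) (res Z p (pc (fb (Null_c i hb κ)) F)) =
      res Z m (pc (fb (Null_c i hb (κ ∘ f))) (pc (bm fun j => vx (f j)) F))
    have e : (Null_c i hb κ).comp (bm fun j => vx (f j)) = Null_c i hb (κ ∘ f) := by
      ext1 y
      simp only [ContinuousMap.comp_apply, Null_c_apply, bm_apply, Null_f, sk_aff]
    rw [pc_bm_res, pc_bm_fb, e]

theorem Null_norm {i : Fin n} {x : V n} (hx : x i = 0) (s : ℝ) :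
    ‖x‖ ≤ ‖x + s • Pi.single i (1 : ℝ)‖ := by
  refine (pi_norm_le_iff_of_nonneg (norm_nonneg _)).2 fun j => ?_
  by_cases h : j = i
  · rw [h, hx, norm_zero]; exact norm_nonneg _
  · have := norm_le_pi_norm (x + s • Pi.single i (1 : ℝ)) j
    simpa [h] using this

theorem Null_pc {m : ℕ} {c : C(Y n m, V n)} {F : Raw n m} {y : Y n m}
    (h : F (fb c y) = hor (fb c y)) : pc (fb c) F y = ker c y := pc_congr _ h

/-- Choose `M` with `z ∈ Ch (IsF Ω ∧ Hb Ω M)` (`ev_mem`). `Hty` with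
`H F κ = res Z (pc (fb c) F)`, `c (t, x) = x + (sk κ t * R * β (Function.update x i 0)) • single i 1`,
`β` a bump that is `1` on the ball of radius `M` and `0` outside radius `M + 1`, `R ≥ M`.
Ends: `res Z F` and `oo Z`; `Lc.fb`, `cht_dir`, `Cht.ker_eq_hor`, `kill_oo`. -/
theorem null {Ω Z : Set (V n)} (i : Fin n) (hZ : ∀ x ∈ Z, x i = 0)
    (hΩ : ∀ x ∈ Z, ∀ s : ℝ, x + s • Pi.single i (1 : ℝ) ∈ Ω) {k : ℕ} {z : FA (Raw n (k + 1))}
    (hz : z ∈ Ch (IsF Ω _)) (hd : (RS n).d z = 0) :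
    ∃ w ∈ Ch (IsF Z (k + 2)), (RS n).d w = map (res Z _) z := by
  have h0 := ev_mem (l := (atTop : Filter ℝ)) (fun _ => AddMonoidHom.id _)
    (fun M => Ch fun F : Raw n (k + 1) => IsF Ω _ F ∧ Hb Ω M F) (fun F hF => by
      obtain ⟨M, hM⟩ := hF.2.2
      filter_upwards [eventually_ge_atTop M] with M' hM'
      exact of_mem ⟨hF, hM.mono hM'⟩) hz
  obtain ⟨M, hzM, hM⟩ := (h0.and (eventually_ge_atTop 0)).exists
  let β : ContDiffBump (0 : V n) := ⟨M + 1, M + 2, by linarith, by linarith⟩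
  have hb : ContDiff ℝ ∞ fun x => M * β x := contDiff_const.mul β.contDiff
  let P : (RS n).Pr := fun m (F : Raw n m) => IsF Ω m F ∧ Hb Ω M F
  have hP : (RS n).Cl P := fun _ _ _ F hF => ⟨isF_cl Ω _ F hF.1, hF.2.bm _⟩
  have hzP : z ∈ Ch (P (k + 1)) := hzM
  let h := Null_h Z i hb
  have hmem : ∀ {m : ℕ} (κ : Fin m → Bool) (y : Y n m), y.2 ∈ Z → Null_c i hb κ y ∈ Ω :=
    fun κ y hy => hΩ _ hy _
  have hQ : ∀ m (F : Raw n m) (κ : Fin m → Bool), P m F → IsF Z m (h.H F κ) := by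
    intro m F κ hF
    refine isF_res (hF.1.2.1.fb fun y hy => ⟨Null_cht i hb κ y, hmem κ y hy⟩) (M := M + 3)
      fun y hy hn => ?_
    rw [Null_pc (hF.2 _ (hmem κ y hy)
      (le_trans (by linarith) (Null_norm (hZ _ hy) (Null_f i _ κ y))))]
    refine ker_congr ?_
    have hc : Continuous fun y : Y n m => ‖y.2 - y.2 i • (Pi.single i (1 : ℝ) : V n)‖ :=
      (continuous_snd.sub (((continuous_apply i).comp continuous_snd).smul continuous_const)).norm
    have hlt : M + 2 < ‖y.2 - y.2 i • (Pi.single i (1 : ℝ) : V n)‖ := by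
      rw [hZ _ hy, zero_smul, sub_zero]; linarith
    filter_upwards [hc.continuousAt.eventually (lt_mem_nhds hlt)] with y' hy'
    have e : β (y'.2 - y'.2 i • Pi.single i (1 : ℝ)) = 0 :=
      β.zero_of_le_dist (by rw [dist_zero_right]; exact hy'.le)
    simp [Null_c_apply, Null_f, e]
  have e0 : ∀ F : Raw n (k + 1), h.en false _ F = res Z _ F := by
    intro F
    change res Z _ (pc (fb (Null_c i hb fun _ => false)) F) = _
    have e : fb (Null_c (m := k + 1) i hb fun _ => false) = ContinuousMap.id _ := by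
      ext1 y
      simp [Null_c_apply, Null_f, sk_false]
    rw [e, pc_id]
  have e1 : ∀ F : Raw n (k + 1), P _ F → h.en true _ F = oo Z _ := by
    intro F hF
    change res Z _ (pc (fb (Null_c i hb fun _ => true)) F) = res Z _ hor
    refine res_congr fun y hy => ?_
    have hn : M ≤ ‖Null_c i hb (fun _ => true) y‖ := by
      rcases le_total ‖y.2‖ (M + 1) with h1 | h1
      · have e : β y.2 = 1 := β.one_of_mem_closedBall (by rwa [mem_closedBall_zero_iff])
        have h2 := norm_le_pi_norm (Null_c i hb (fun _ => true) y) i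
        have h3 : Null_c i hb (fun _ => true) y i = M := by
          simp [Null_c_apply, Null_f, sk_true, hZ _ hy, e]
        rw [h3, Real.norm_eq_abs] at h2
        exact (le_abs_self M).trans h2
      · exact le_trans (by linarith) (Null_norm (hZ _ hy) _)
    rw [Null_pc (hF.2 _ (hmem _ y hy) hn)]
    refine (Null_cht i hb _ y).ker_eq_hor (.of_forall fun y' => ?_)
    simp only [Null_c_apply, Null_f, sk_true]
  have hz1 : map (h.en true _) z ∈ Ch fun F : Raw n (k + 1) => F = oo Z _ := map_mem _ e1 hzP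
  have hc1 : (RS n).d (map (h.en true _) z) = 0 := by
    rw [SS.map_d (h.en_nat true), hd, map_zero]
  obtain ⟨w, hw, dw⟩ := kill_oo Z (k + 1) _ hz1 hc1
  refine ⟨w - h.prism z, sub_mem (Ch_mono (fun F hF => hF ▸ isF_oo Z _) hw)
    (h.prism_mem (Q := IsF Z) hP hQ hzP), ?_⟩
  rw [map_sub, dw, h.d_prism, hd, map_zero, sub_zero, sub_sub_cancel]
  exact congrArg (fun f => map f z) (funext e0)

end

end Pool.Agent.P.MP_878f14_gt.HT.D
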