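import Pool.Agent.P.MP_878f14_gt.HT.D.Car
import Pool.Agent.P.MP_878f14_gt.HT.D.Null

/-! Restriction to a half space is onto in homology, one degree beyond the acyclicity range. -/

namespace Pool.Agent.P.MP_878f14_gt.HT.D

open Filter Topology Function FreeAbelianGroup
open scoped ContDiff

noncomputable section

variable {n : ℕ}

theorem d_res (Z : Set (V n)) {k : ℕ} (z : FA (Raw n (k + 1))) :
    (RS n).d (map (res Z _) z) = map (res Z _) ((RS n).d z) := SS.map_d (res_nat Z) z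

theorem onto {Ω Z : Set (V n)} (D : Dir Ω) (hZ : IsClosed Z) (h1 : ∀ x ∈ Ω, 0 ≤ D.u x → x ∈ Z)
    (h2 : Z ⊆ Ω) {k : ℕ} (h : ∀ j ≤ k, Acy Ω j) {z : FA (Raw n (k + 1))}
    (hz : z ∈ Ch (IsF {x | x ∈ Z ∧ D.u x ≤ 0} _)) (hd : (RS n).d z = 0) :
    ∃ x ∈ Ch (IsF Z (k + 1)), (RS n).d x = 0 ∧ ∃ w ∈ Ch (IsF {x | x ∈ Z ∧ D.u x ≤ 0} (k + 2)),
      (RS n).d w = map (res {x | x ∈ Z ∧ D.u x ≤ 0} _) x - z := by
  obtain ⟨T, hT⟩ : ∃ T : ℝ → Set (V n), T = fun δ => {x | x ∈ Z ∧ D.u x ≤ δ} := ⟨_, rfl⟩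
  have mT : ∀ δ x, x ∈ T δ ↔ x ∈ Z ∧ D.u x ≤ δ := fun δ x => by rw [hT]; rfl
  have cT : ∀ δ, IsClosed (T δ) := fun δ => by
    rw [hT]; exact hZ.inter (isClosed_le D.u.continuous continuous_const)
  have sT : ∀ δ, T δ ⊆ Z := fun δ x hx => ((mT δ x).1 hx).1
  have e0 : {x | x ∈ Z ∧ D.u x ≤ 0} = T 0 := by rw [hT]
  rw [e0] at hz ⊢
  obtain ⟨z1, hz1, hd1, w1, hw1, e1⟩ := AS.small (A := RA n) (Q := SF (1 / 2) (T 0))
    (isF_cl (T 0)) (fun F hF => loc_sf (cT 0) (by norm_num) hF) hz hd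
  obtain ⟨zh, hzh, eh⟩ := exists_map_eq (P := IsF Z (k + 1)) (res (T 0) (k + 1))
    (fun F hF => by
      obtain ⟨hF, σ, hσ, e⟩ := hF
      refine ⟨_, hσ.isF (by norm_num) Z, ?_⟩
      rw [res_res (sT 0), ← hF.res_self]
      exact res_congr fun y hy => (e y hy).symm) hz1
  have hb : ∀ᶠ δ in 𝓝[>] (0 : ℝ), map (res (T δ) k) ((RS n).d zh) = 0 :=
    ev_zero (P := IsF Z k) (res (T 0) k) (fun δ => map (res (T δ) k)) (fun F G hF hG e => by
      filter_upwards [IsF.band hZ hF hG D.u.continuous fun y hy hu => by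
        have hy' := (mT 0 _).2 ⟨hy, hu⟩
        rw [← res_of_mem F hy', e, res_of_mem G hy']] with δ hδ
      exact congrArg of (res_congr fun y hy => hδ y ((mT δ _).1 hy).1 ((mT δ _).1 hy).2))
      (SS.d_mem (isF_cl Z).ss hzh) (by rw [← d_res, eh, hd1])
  obtain ⟨δ, hδ, hδ0⟩ := (hb.and self_mem_nhdsWithin).exists
  replace hδ0 : 0 < δ := hδ0
  have hη : 0 < δ / (k + 1) := by positivity
  have eη : δ / (k + 1) * (k + 1) = δ := div_mul_cancel₀ _ (by positivity)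
  obtain ⟨ε, hε, hk⟩ := car_kill D h1 h2 hη
  obtain ⟨z3, hz3, hd3, w2, hw2, e2⟩ := AS.small (A := RA n) (Q := SF ε (T δ))
    (isF_cl (T δ)) (fun F hF => loc_sf (cT δ) hε hF)
    (map_mem (res (T δ) (k + 1)) (fun F hF => hF.res (sT δ)) hzh) (by rw [← hδ]; exact d_res _ _)
  have s0 : T 0 ⊆ T δ := fun x hx => (mT _ _).2 ⟨sT _ hx, ((mT _ _).1 hx).2.trans hδ0.le⟩
  obtain ⟨x, hx, hdx, w3, hw3, e3⟩ := carrier (K := RS n) (X := RS n) (B := RS n)
    (P := SF ε (T δ)) (sf_cl ε _).ss (res (T 0)) (res_nat _) (res (T 0)) (res_nat _)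
    (Q := IsF Z) (R := IsF (T 0)) (isF_cl _).ss (fun m y hy => hy.1.res s0)
    (fun i _ y => Car Z D.u (δ - i * (δ / (k + 1))) y) (oo Z 0) (k + 1)
    (fun y _ => ⟨isF_oo Z 0, fun x => isEmptyElim x.1⟩)
    (fun i m y j l θ F _ hc => ⟨hc.1, fun x hx hu => (hc.2 x hx hu).trans
      (congrFun ((RS n).pull_comp θ j.succAbove y) x)⟩)
    (fun i hi m y l θ F _ hc => ⟨hc.1, by
      rw [res_nat]
      refine res_congr fun x hx => hc.2 x (sT _ hx) (((mT _ _).1 hx).2.trans ?_)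
      have : (i : ℝ) ≤ k + 1 := by exact_mod_cast hi
      nlinarith⟩)
    (fun j hj y hy => by
      have hj' : (j : ℝ) + 1 ≤ k + 1 := by exact_mod_cast hj
      have := hk δ (δ - j * (δ / (k + 1))) j j y (by nlinarith)
        (by have : (0 : ℝ) ≤ j := Nat.cast_nonneg j; nlinarith) (by rw [hT] at hy; exact hy)
        (h j (by omega))
      rwa [show δ - j * (δ / (k + 1)) - δ / (k + 1) = δ - ((j + 1 : ℕ) : ℝ) * (δ / (k + 1)) by
        push_cast; ring] at this)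
    (Nat.lt_succ_self k) hz3 hd3
  refine ⟨x, hx, hdx, w3 - map (res (T 0) _) w2 - w1,
    sub_mem (sub_mem hw3 (map_mem _ (fun F hF => hF.res s0) hw2)) hw1, ?_⟩
  have e4 : map (res (T 0) _) (map (res (T δ) (k + 1)) zh) = z1 := by
    rw [map_map, ← eh]
    congr 2
    exact funext fun F => res_res s0 F
  have e5 : (RS n).d (map (res (T 0) _) w2) = z1 - map (res (T 0) _) z3 := by
    rw [d_res, ← e4, ← map_sub]
    exact congrArg _ e2
  rw [map_sub, map_sub, e3, e5]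
  erw [e1]
  abel

/-- the coordinate subspaces -/
def Zs (n j : ℕ) : Set (V n) := {x | ∀ i : Fin n, j ≤ i.1 → x i = 0}

theorem isClosed_Zs (j : ℕ) : IsClosed (Zs n j) := by
  simp only [Zs, Set.ofPred_forall]
  exact isClosed_iInter fun i => isClosed_iInter fun _ =>
    isClosed_eq (continuous_apply i) continuous_const

theorem Zs_mv (i : Fin n) {x : V n} (hx : x ∈ Zs n (i + 1)) (s : ℝ) :
    x + s • Pi.single i (1 : ℝ) ∈ Zs n (i + 1) := fun l hl => by
  have : l ≠ i := fun e => by rw [e] at hl; omega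
  simp [hx l hl, this]

theorem acy_step (i : Fin n) {k : ℕ} (h : ∀ j ≤ k, Acy (Zs n (i + 1)) j) :
    Acy (Zs n i) (k + 1) := by
  intro z hz hd
  let D1 : Dir (Zs n (i + 1)) := ⟨ContinuousLinearMap.proj i, Pi.single i 1, by simp,
    fun x hx s => Zs_mv i hx s⟩
  let D2 : Dir (Zs n (i + 1)) := ⟨-ContinuousLinearMap.proj i, -Pi.single i 1, by simp,
    fun x hx s => by simpa using Zs_mv i hx (-s)⟩
  have e : Zs n i = {x | x ∈ {x | x ∈ Zs n (i + 1) ∧ D1.u x ≤ 0} ∧ D2.u x ≤ 0} := by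
    ext x
    constructor
    · intro hx
      have : x i = 0 := hx i le_rfl
      exact ⟨⟨fun l hl => hx l (by omega), by simp [D1, this]⟩, by simp [D2, this]⟩
    · rintro ⟨⟨h1, h2⟩, h3⟩ l hl
      rcases hl.eq_or_lt with hl | hl
      · rw [← Fin.ext hl]
        exact le_antisymm (by simpa [D1] using h2) (by simpa [D2] using h3)
      · exact h1 l hl
  have sub : Zs n i ⊆ {x | x ∈ Zs n (i + 1) ∧ D1.u x ≤ 0} := fun x hx => (e ▸ hx).1
  obtain ⟨x, hx, hdx, w, hw, e1⟩ := onto D2 (Z := {x | x ∈ Zs n (i + 1) ∧ D1.u x ≤ 0})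
    ((isClosed_Zs _).inter (isClosed_le D1.u.continuous continuous_const))
    (fun x hx hu => ⟨hx, by simpa [D1, D2] using hu⟩) (fun x hx => hx.1) h (e ▸ hz) hd
  obtain ⟨x', hx', hdx', w', hw', e2⟩ := onto D1 (isClosed_Zs _) (fun x hx _ => hx) subset_rfl h
    hx hdx
  obtain ⟨w'', hw'', e3⟩ := null (Z := Zs n i) i (fun x hx => hx i le_rfl)
    (fun x hx s => Zs_mv i (sub hx).1 s) hx' hdx'
  rw [← e] at hw e1
  refine ⟨w'' - map (res (Zs n i) _) w' - w,
    sub_mem (sub_mem hw'' (map_mem _ (fun F hF => hF.res sub) hw')) hw, ?_⟩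
  rw [map_sub, map_sub, e3, d_res, e2, e1, map_sub, map_map]
  simp only [res_res sub]
  abel

theorem acy_zero (h2 : Acy (Set.univ : Set (V n)) 2) (h3 : Acy (Set.univ : Set (V n)) 3) :
    ∀ k ≤ n + 3, Acy ({0} : Set (V n)) k := by
  have low : ∀ Z : Set (V n), ∀ k ≤ 1, Acy Z k := fun Z k hk =>
    kill_low (fun _ _ h => h) (isF_oo Z) hk
  have key : ∀ l j, j + l = n → ∀ k ≤ l + 3, Acy (Zs n j) k := by
    intro l
    induction l with
    | zero =>
      intro j hj k hk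
      have : Zs n j = Set.univ := Set.eq_univ_of_forall fun x i hi => by omega
      rw [this]
      rcases (by omega : k ≤ 1 ∨ k = 2 ∨ k = 3) with hk | rfl | rfl
      exacts [low _ k hk, h2, h3]
    | succ l ih =>
      intro j hj k hk
      rcases k with _ | k
      · exact low _ 0 (by omega)
      · exact acy_step ⟨j, by omega⟩ fun i hi => ih (j + 1) (by omega) i (by omega)
  have : Zs n 0 = {0} := by
    ext x
    simp [Zs, funext_iff]
  exact this ▸ key n 0 (by omega)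

end

end Pool.Agent.P.MP_878f14_gt.HT.D
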