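import Pool.Agent.P.MP_878f14_gt.HT.D.Bridge
import Pool.Agent.P.MP_878f14_gt.HT.D.Edge
import Pool.Agent.P.MP_878f14_gt.HT.D.Onto
import Pool.Agent.P.MP_878f14_gt.HT.D.Base

/-! The main theorem. -/

namespace Pool.Agent.P.MP_878f14_gt.HT.D

open Filter Topology Function FreeAbelianGroup
open scoped ContDiff

noncomputable section

theorem main {n : ℕ} (hn : 2 ≤ n) : Conn n (n + 2) := by
  obtain ⟨ι, hi, hF, hd⟩ := exists_bridge n
  have nat : ∀ p (z : FA (Str n (p + 1))),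
      (RS n).d (FreeAbelianGroup.map (ι (p + 1)) z) = FreeAbelianGroup.map (ι p) (bd z) := by
    intro p z
    refine hom_eq ((RS n).d.comp (FreeAbelianGroup.map (ι (p + 1))))
      ((FreeAbelianGroup.map (ι p)).comp bd) (fun s => ?_) z
    simp only [AddMonoidHom.comp_apply, map_of_apply, bd, lift_apply_of, map_sum, map_zsmul, hd]
    exact SS.d_of (RS n) _
  refine ⟨?_, fun H _ f hf e => ?_, fun k hk z hz => ?_⟩
  · obtain ⟨s, hs⟩ := (hF 0 _).1 (isF_oo {0} 1)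
    exact ⟨⟨⟨s⟩, fun s' => hi 0 (((hF 0 _).2 ⟨s', rfl⟩).eq_oo.trans hs.symm)⟩⟩
  · have := edge_triv (n := n) (by omega) (extend (ι 1) f fun _ => 1) (fun w hw => by
      obtain ⟨s, rfl⟩ := (hF 2 w).1 hw
      rw [← hd 1 1 s, ← hd 1 2 s, ← hd 1 0 s, (hi 1).extend_apply, (hi 1).extend_apply,
        (hi 1).extend_apply]
      exact hf s) ((hF 1 _).2 ⟨e, rfl⟩)
    rwa [(hi 1).extend_apply] at this
  · have h1 : FreeAbelianGroup.map (ι (k + 1)) z ∈ Ch (IsF {0} (k + 2)) :=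
      map_mem _ (fun s _ => (hF _ _).2 ⟨s, rfl⟩) (mem_Ch_true z)
    obtain ⟨w', h2, h3⟩ := acy_zero acy_two (acy_three hn) (k + 2) (by omega) _ h1
      (show (RS n).d _ = 0 by rw [nat, hz, map_zero])
    obtain ⟨w, -, rfl⟩ := exists_map_eq (P := fun _ => True) (ι (k + 2))
      (fun y hy => ((hF _ y).1 hy).imp fun _ h => ⟨trivial, h⟩) h2
    refine ⟨w, sub_eq_zero.1 (map_inj (hi (k + 1)) ?_)⟩
    rw [map_sub, ← nat, h3, sub_self]

end

end Pool.Agent.P.MP_878f14_gt.HT.D
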