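import Pool.Agent.P.MP_878f14_gt.HT.D.Rep
import Pool.Agent.P.MP_878f14_gt.HT.Inv

/-! Foliations given by their leaves, and small families of diffeomorphisms. -/

namespace Pool.Agent.P.MP_878f14_gt.HT.D

open Filter Topology Function Metric
open scoped ContDiff

noncomputable section

variable {n m p : ℕ}

/-- the foliation with leaves `t ↦ (t, σ (t, v))` -/
def lf (σ : Y n m → V n) : Raw n m :=
  rel fun ab => ∃ v, σ (ab.1.1, v) = ab.1.2 ∧ σ (ab.2.1, v) = ab.2.2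

theorem pc_bm_lf (v : Fin m → Δ p) (σ : Y n p → V n) : pc (bm v) (lf σ) = lf (σ ∘ bm v) := rfl

theorem lf_nat : (TA n).ss.Nat (RS n) fun _ => lf := fun _ _ _ _ => rfl

/-- invariance under right translation -/
theorem lf_comp (σ : Y n m → V n) (g : Pm n) : lf (fun y => σ (y.1, g y.2)) = lf σ := by
  refine congrArg rel (funext fun ab => propext ⟨fun ⟨v, h⟩ => ⟨g v, h⟩, fun ⟨v, h⟩ => ?_⟩)
  obtain ⟨u, rfl⟩ := g.surjective v
  exact ⟨u, h⟩

/-- admissible families -/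
structure Adm (σ : Y n m → V n) : Prop where
  gl : Gl σ
  c1 : ∀ y, ‖fd σ y - ContinuousLinearMap.id ℝ (V n)‖ ≤ 1 / 2
  far : ∃ M, ∀ y : Y n m, M ≤ ‖y.2‖ → σ y = y.2

theorem Adm.bm {σ : Y n p → V n} (h : Adm σ) (v : Fin m → Δ p) : Adm (σ ∘ bm v) :=
  ⟨h.gl.bm v, fun y => h.c1 (D.bm v y), h.far.imp fun _ h y => h (D.bm v y)⟩

/-- each member of the family is in the group (`mkG`) -/
theorem Adm.exists_Gc {σ : Y n m → V n} (h : Adm σ) (t : Δ m) :
    ∃ g : Gc n, ∀ x, (g : Pm n) x = σ (t, x) := by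
  obtain ⟨M, hM⟩ := h.far
  have hc : ContDiff ℝ ∞ fun x => σ (t, x) - x := (h.gl.contDiff_fibre t).sub contDiff_id
  have hv : Van (ball 0 M) fun x => σ (t, x) - x := fun x hx =>
    sub_eq_zero.2 (hM (t, x) (by simpa using hx))
  obtain ⟨g, hg⟩ := mkG (sm_of_van hc hv isBounded_ball) (sn_one_le fun x =>
    (congrArg norm ((h.gl.smAt (t, x)).hasFDerivAt.fun_sub (hasFDerivAt_id x)).fderiv).trans_le
      (h.c1 (t, x))) hv isBounded_ball
  exact ⟨g, fun x => by rw [apply_eq_add_dp, hg]; simp⟩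

/-- the inverse family -/
theorem leaf_inv {σ : Y n m → V n} (h : Adm σ) : ∃ ψ : Y n m → V n,
    (∀ t x, σ (t, ψ (t, x)) = x) ∧ (∀ t v, ψ (t, σ (t, v)) = v) ∧
      (∀ t, Differentiable ℝ fun x => ψ (t, x)) ∧ lf σ = ker ψ := by
  choose g hg using h.exists_Gc
  have h1 : ∀ t x, σ (t, (g t : Pm n)⁻¹ x) = x := fun t x => by rw [← hg]; simp
  have h2 : ∀ t v, (g t : Pm n)⁻¹ (σ (t, v)) = v := fun t v => by rw [← hg]; simp
  refine ⟨fun y => (g y.1 : Pm n)⁻¹ y.2, h1, h2,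
    fun t => (g t).2.2.1.differentiable (by simp), congrArg rel (funext fun ab => propext
      ⟨fun ⟨v, a, b⟩ => ?_, fun e => ⟨_, h1 _ _, ?_⟩⟩)⟩
  · show (g ab.1.1 : Pm n)⁻¹ ab.1.2 = (g ab.2.1 : Pm n)⁻¹ ab.2.2
    rw [← a, ← b, h2, h2]
  · exact (congrArg (fun v => σ (ab.2.1, v)) e).trans (h1 _ _)

theorem leaf_smAt {σ ψ : Y n m → V n} (h : Adm σ) (h1 : ∀ t x, σ (t, ψ (t, x)) = x)
    (h2 : ∀ t v, ψ (t, σ (t, v)) = v) (y : Y n m) : SmAt ψ y := by
  obtain ⟨φ, hφ, e⟩ := h.gl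
  have hΦ : ContDiff ℝ ∞ fun w : Am n m => (w.1, φ w) := contDiff_fst.prodMk hφ
  have hD : ∀ w, HasFDerivAt (fun w : Am n m => (w.1, φ w))
      (fderiv ℝ (fun w : Am n m => (w.1, φ w)) w) w := fun w =>
    (hΦ.differentiable (by simp) w).hasFDerivAt
  have hi : Injective (fderiv ℝ (fun w : Am n m => (w.1, φ w)) (amb (y.1, ψ y))) := by
    have d := (hφ.differentiable (by simp) (amb (y.1, ψ y))).hasFDerivAt
    have d2 : fd σ (y.1, ψ y) = (fderiv ℝ φ (amb (y.1, ψ y))).comp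
        (ContinuousLinearMap.inr ℝ (Fin m → ℝ) (V n)) := by
      rw [fd, show (fun x => σ ((y.1, ψ y).1, x)) = φ ∘ fun x => (y.1.1, x) from
        funext fun x => e _]
      exact (d.comp (ψ y) (hasFDerivAt_prodMk_right y.1.1 (ψ y))).fderiv
    rw [(hasFDerivAt_fst.prodMk d).fderiv, injective_iff_map_eq_zero]
    rintro ⟨a, b⟩ hab
    obtain ⟨rfl, hb⟩ : a = 0 ∧ fderiv ℝ φ (amb (y.1, ψ y)) (a, b) = 0 := Prod.ext_iff.1 hab
    have : b = 0 := (cht_of_norm (h.gl.smAt (y.1, ψ y)) ((h.c1 _).trans_lt (by norm_num))).2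
      (by rw [d2, map_zero]; exact hb)
    rw [this]
    rfl
  obtain ⟨L, hL⟩ : fderiv ℝ (fun w : Am n m => (w.1, φ w)) (amb (y.1, ψ y)) ∈
      Set.range ((↑) : (Am n m ≃L[ℝ] Am n m) → Am n m →L[ℝ] Am n m) :=
    ⟨(LinearEquiv.ofInjectiveEndo (fderiv ℝ (fun w : Am n m => (w.1, φ w))
      (amb (y.1, ψ y))).toLinearMap hi).toContinuousLinearEquiv, ContinuousLinearMap.ext fun _ => rfl⟩
  have hd := hD (amb (y.1, ψ y))
  rw [← hL] at hd
  obtain ⟨o, ho, hs⟩ : ∃ o : OpenPartialHomeomorph (Am n m) (Am n m),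
      (o : Am n m → Am n m) = (fun w => (w.1, φ w)) ∧ amb (y.1, ψ y) ∈ o.source :=
    ⟨hΦ.contDiffAt.toOpenPartialHomeomorph _ hd (by simp), rfl,
      hΦ.contDiffAt.mem_toOpenPartialHomeomorph_source hd (by simp)⟩
  have e0 : o (amb (y.1, ψ y)) = amb y := by
    rw [ho]
    exact Prod.ext rfl ((e _).symm.trans (h1 y.1 y.2))
  have ht : amb y ∈ o.target := e0 ▸ o.map_source hs
  have e1 : o.symm (amb y) = amb (y.1, ψ y) := by rw [← e0, o.left_inv hs]
  have hn := o.open_target.mem_nhds ht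
  refine ⟨fun w => (o.symm w).2, ?_, ?_⟩
  · have := (o.continuousAt_symm ht).eventually (p := fun w => fderiv ℝ
      (fun w : Am n m => (w.1, φ w)) w ∈ Set.range ((↑) : (Am n m ≃L[ℝ] Am n m) → _)) (by
      rw [e1]
      exact (hΦ.continuous_fderiv (by simp)).continuousAt.eventually
        (ContinuousLinearEquiv.isOpen.mem_nhds ⟨L, hL⟩))
    filter_upwards [hn, this] with w hw ⟨L', hL'⟩
    refine (o.contDiffAt_symm (f₀' := L') hw ?_ ?_).snd
    · rw [ho, hL']; exact hD _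
    · rw [ho]; exact hΦ.contDiffAt
  · filter_upwards [continuous_amb.continuousAt.eventually hn] with y' hy'
    have a := o.right_inv hy'
    rw [ho] at a
    obtain ⟨a1, a2⟩ := Prod.ext_iff.1 a
    have a4 : amb (y'.1, (o.symm (amb y')).2) = o.symm (amb y') := Prod.ext a1.symm rfl
    have a3 : σ (y'.1, (o.symm (amb y')).2) = y'.2 := (e _).trans ((congrArg φ a4).trans a2)
    exact (congrArg (fun x => ψ (y'.1, x)) a3.symm).trans (h2 _ _)

/-- the inverse function theorem for `(t, v) ↦ (t, φ (t, v))` gives the charts -/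
theorem Adm.isF {σ : Y n m → V n} (h : Adm σ) : IsF Set.univ m (lf σ) := by
  obtain ⟨ψ, h1, h2, h3, e⟩ := leaf_inv h
  obtain ⟨M, hM⟩ := h.far
  rw [e]
  refine ⟨fun _ hy => absurd trivial hy, lc_ker fun y _ => ⟨leaf_smAt h h1 h2 y, ?_⟩, M + 1,
    hb_ker fun y hy => (congrArg (fun x => ψ (y.1, x)) (hM y hy).symm).trans (h2 _ _)⟩
  have d := (h.gl.smAt (y.1, ψ y)).hasFDerivAt.comp y.2 (h3 y.1 y.2).hasFDerivAt
  rw [show ((fun x => σ ((y.1, ψ y).1, x)) ∘ fun x => ψ (y.1, x)) = id from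
    funext fun x => h1 _ _] at d
  exact LeftInverse.injective (g := fd σ (y.1, ψ y)) fun b =>
    DFunLike.congr_fun (d.unique (hasFDerivAt_id _)) b

/-- the leaves determine the family up to a right translation (`Δ` is preconnected) -/
theorem Adm.eq_of_lf {σ σ' : Y n (m + 1) → V n} (h : Adm σ) (h' : Adm σ') (e : lf σ = lf σ') :
    ∃ g : Pm n, ∀ y : Y n (m + 1), σ' y = σ (y.1, g y.2) := by
  obtain ⟨ψ, h1, h2, -, e1⟩ := leaf_inv h
  obtain ⟨ψ', h1', h2', -, e1'⟩ := leaf_inv h'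
  rw [e1, e1'] at e
  have : PreconnectedSpace (Δ (m + 1)) :=
    Subtype.preconnectedSpace (convex_stdSimplex ℝ _).isPreconnected
  have key : ∀ v, IsLocallyConstant fun t => ψ (t, σ' (t, v)) := fun v => by
    refine (IsLocallyConstant.iff_eventually_eq _).2 fun t => ?_
    have c : Continuous fun s : Δ (m + 1) => ((s, σ' (s, v)), (t, σ' (t, v))) :=
      (continuous_id.prodMk (h'.gl.continuous.comp (continuous_id.prodMk continuous_const))).prodMk
        continuous_const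
    filter_upwards [(c.tendsto t).eventually (rel_eq_iff.1 (congrFun e (t, σ' (t, v))))] with s hs
    exact hs.2 ((h2' _ _).trans (h2' _ _).symm)
  refine ⟨⟨fun v => ψ (vx 0, σ' (vx 0, v)), fun v => ψ' (vx 0, σ (vx 0, v)), fun v => ?_,
    fun v => ?_⟩, fun y => ?_⟩
  · simp only [h1, h2']
  · simp only [h1', h2]
  · exact (h1 y.1 _).symm.trans (congrArg (fun x => σ (y.1, x))
      ((key y.2).apply_eq_of_preconnectedSpace y.1 (vx 0)))

end

end Pool.Agent.P.MP_878f14_gt.HT.D
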