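import Pool.Agent.P.MP_878f14_gt.HT.D.Leaf

/-! Small families of diffeomorphisms. -/

namespace Pool.Agent.P.MP_878f14_gt.HT.D

open Filter Topology Function Metric
open scoped ContDiff

noncomputable section

variable {n m p : ℕ}

/-- families whose quotients are small and supported in a ball -/
def TS (R : ℕ) (e M : ℝ) (m : ℕ) (σ : Y n m → V n) : Prop :=
  Adm σ ∧ ∀ (t t' : Δ m) (g g' : Gc n), (∀ x, (g : Pm n) x = σ (t, x)) →
    (∀ x, (g' : Pm n) x = σ (t', x)) →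
      Fix (closedBall 0 M) ((g * g'⁻¹ : Gc n) : Pm n) ∧ nm R (dp ((g * g'⁻¹ : Gc n) : Pm n)) ≤ e

theorem ts_cl (R : ℕ) (e M : ℝ) : (TA n).Cl (TS R e M) := fun _ _ v _ h =>
  ⟨h.1.bm v, fun t t' g g' hg hg' => h.2 (aff v t) (aff v t') g g' hg hg'⟩

/-- cutting off in the parameter -/
theorem leaf2_cut (t₀ : Fin m → ℝ) {U : Set (Fin m → ℝ)} (hU : U ∈ 𝓝 t₀) :
    ∃ c : (Fin m → ℝ) → Fin m → ℝ, ContDiff ℝ ∞ c ∧ (∀ t, c t ∈ U) ∧ ∀ᶠ t in 𝓝 t₀, c t = t := by
  obtain ⟨δ, hδ, hb⟩ := Metric.mem_nhds_iff.1 hU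
  obtain ⟨χ, h1, h2, h3, h4⟩ := exists_bump_ball (n := m) t₀ (a := δ / 2) (b := δ) (by linarith)
  refine ⟨fun t => t₀ + χ t • (t - t₀),
    contDiff_const.add (h1.1.smul (contDiff_id.sub contDiff_const)), fun t => hb ?_, ?_⟩
  · by_cases ht : t ∈ ball t₀ δ
    · rw [mem_ball_iff_norm] at ht ⊢
      rw [add_sub_cancel_left, norm_smul, Real.norm_of_nonneg (h2 t).1]
      exact (mul_le_of_le_one_left (norm_nonneg _) (h2 t).2).trans_lt ht
    · simp only [h3 t ht, zero_smul, add_zero]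
      exact mem_ball_self hδ
  · filter_upwards [closedBall_mem_nhds t₀ (half_pos hδ)] with t ht
    rw [h4 t ht, one_smul, add_sub_cancel]

/-- the derivative of `(t, x) ↦ (t, φ (t, x))` is invertible -/
theorem leaf2_deriv {φ : Am n m → V n} (hφ : ContDiff ℝ ∞ φ) (a : Am n m)
    (h1 : ‖fderiv ℝ (fun x => φ (a.1, x)) a.2 - ContinuousLinearMap.id ℝ (V n)‖ ≤ 1 / 2) :
    ∃ L : Am n m ≃L[ℝ] Am n m,
      HasFDerivAt (fun w : Am n m => (w.1, φ w)) (L : Am n m →L[ℝ] Am n m) a := by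
  have hd : HasFDerivAt φ (fderiv ℝ φ a) a := (hφ.differentiable (by simp) a).hasFDerivAt
  have hx : HasFDerivAt (fun x => φ (a.1, x))
      ((fderiv ℝ φ a).comp (ContinuousLinearMap.inr ℝ (Fin m → ℝ) (V n))) a.2 :=
    HasFDerivAt.comp (f := fun x => (a.1, x)) a.2 hd (hasFDerivAt_prodMk_right a.1 a.2)
  rw [hx.fderiv] at h1
  let D : Am n m →L[ℝ] Am n m := (ContinuousLinearMap.fst ℝ (Fin m → ℝ) (V n)).prod (fderiv ℝ φ a)
  have hD : HasFDerivAt (fun w : Am n m => (w.1, φ w)) D a := hasFDerivAt_fst.prodMk hd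
  have hi : Injective (D : Am n m →ₗ[ℝ] Am n m) := by
    rw [injective_iff_map_eq_zero]
    rintro ⟨s, v⟩ hv
    have e1 : s = 0 := congrArg Prod.fst hv
    subst e1
    have e2 : fderiv ℝ φ a (0, v) = 0 := congrArg Prod.snd hv
    have e3 := (ContinuousLinearMap.le_opNorm _ v).trans
      (mul_le_mul_of_nonneg_right h1 (norm_nonneg v))
    simp only [sub_apply, ContinuousLinearMap.comp_apply,
      ContinuousLinearMap.inr_apply, e2, ContinuousLinearMap.id_apply, zero_sub, norm_neg] at e3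
    have e4 : v = 0 := norm_le_zero_iff.1 (by linarith)
    rw [e4]
    rfl
  exact ⟨(LinearEquiv.ofInjectiveEndo _ hi).toContinuousLinearEquiv,
    hD.congr_fderiv (by ext1 <;> rfl)⟩

/-- fibrewise inverse of a family that is small for all parameters -/
theorem leaf2_inv {φ : Am n m → V n} {M : ℝ} (hφ : ContDiff ℝ ∞ φ)
    (hf : ∀ t x, M ≤ ‖x‖ → φ (t, x) = x)
    (h1 : ∀ t x, ‖fderiv ℝ (fun x => φ (t, x)) x - ContinuousLinearMap.id ℝ (V n)‖ ≤ 1 / 2) :
    ∃ ψ : Am n m → V n, ContDiff ℝ ∞ ψ ∧ (∀ t x, ψ (t, φ (t, x)) = x) ∧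
      ∀ t x, φ (t, ψ (t, x)) = x := by
  have hc : ∀ t, ContDiff ℝ ∞ fun x => φ (t, x) := fun t =>
    hφ.comp (contDiff_const.prodMk contDiff_id)
  have hs : ∀ t, Sm fun x => φ (t, x) - x := fun t =>
    sm_of_van (K := closedBall 0 M) ((hc t).sub contDiff_id) (fun x hx => by
      rw [mem_closedBall_zero_iff, not_le] at hx
      simp only [hf t x hx.le, sub_self]) isBounded_closedBall
  have hn : ∀ t, sn 1 (fun x => φ (t, x) - x) ≤ 1 / 2 := fun t => sn_one_le fun x => by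
    rw [fderiv_fun_sub ((hc t).differentiable (by simp) x) differentiableAt_fun_id, fderiv_fun_id]
    exact h1 t x
  choose E hE using fun t => mkP (hs t) (hn t)
  have hE' : ∀ t x, E t x = φ (t, x) := fun t x => by
    rw [apply_eq_add_dp, hE, add_sub_cancel]
  have hr : ∀ (e : Pm n) x, e (e⁻¹ x) = x := fun e x => e.apply_symm_apply x
  have hl0 : ∀ (e : Pm n) x, e⁻¹ (e x) = x := fun e x => e.symm_apply_apply x
  have hl : ∀ t x y, ‖(E t)⁻¹ x - (E t)⁻¹ y‖ ≤ 2 * ‖x - y‖ := fun t =>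
    norm_sub_le_two (by rw [hE]; exact hs t) (by rw [hE]; exact hn t)
  have hcont : Continuous fun w : Am n m => (E w.1)⁻¹ w.2 := by
    refine continuous_iff_continuousAt.2 fun a => tendsto_iff_norm_sub_tendsto_zero.2 ?_
    have h2 : Continuous fun w : Am n m => 2 * ‖w.2 - φ (w.1, (E a.1)⁻¹ a.2)‖ :=
      continuous_const.mul (continuous_snd.sub
        (hφ.continuous.comp (continuous_fst.prodMk continuous_const))).norm
    have h3 := h2.tendsto a
    rw [← hE', hr, sub_self, norm_zero, mul_zero] at h3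
    refine squeeze_zero (fun _ => norm_nonneg _) (fun w => ?_) h3
    have h4 := hl w.1 w.2 (E w.1 ((E a.1)⁻¹ a.2))
    rwa [hl0, hE' w.1] at h4
  let o : Am n m ≃ₜ Am n m :=
    { toFun := fun w => (w.1, φ w)
      invFun := fun w => (w.1, (E w.1)⁻¹ w.2)
      left_inv := fun w => Prod.ext rfl (by
        change (E w.1)⁻¹ (φ (w.1, w.2)) = w.2
        rw [← hE', hl0])
      right_inv := fun w => Prod.ext rfl (by
        change φ (w.1, (E w.1)⁻¹ w.2) = w.2
        rw [← hE', hr])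
      continuous_toFun := continuous_fst.prodMk hφ.continuous
      continuous_invFun := continuous_fst.prodMk hcont }
  choose L hL using fun a : Am n m => leaf2_deriv hφ a (h1 a.1 a.2)
  have h5 : ContDiff ℝ ∞ o.symm := o.contDiff_symm hL (contDiff_fst.prodMk hφ)
  refine ⟨fun w => (E w.1)⁻¹ w.2, h5.snd, fun t x => ?_, fun t x => ?_⟩
  · change (E t)⁻¹ (φ (t, x)) = x
    rw [← hE', hl0]
  · change φ (t, (E t)⁻¹ x) = x
    rw [← hE', hr]

/-- Inverting a family: cut `φ` off in `t` so that it is small for all `t`, invert fibrewise,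
smoothness by the inverse function theorem. -/
theorem Fam.inv {φ : Am n m → V n} {t₀ : Fin m → ℝ} {M : ℝ} (h : Fam φ t₀ M) :
    ∃ ψ : Am n m → V n, Fam ψ t₀ M ∧
      ∀ᶠ t in 𝓝 t₀, (∀ x, ψ (t, φ (t, x)) = x) ∧ ∀ x, φ (t, ψ (t, x)) = x := by
  obtain ⟨c, hc, hU, he⟩ := leaf2_cut t₀ (h.small_one (e := 1 / 2) (by norm_num))
  obtain ⟨ψ, h1, h2, h3⟩ := leaf2_inv (φ := fun w : Am n m => φ (c w.1, w.2)) (M := M)
    (h.sm.comp ((hc.comp contDiff_fst).prodMk contDiff_snd)) (fun t x hx => h.far _ x hx)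
    fun t x => (hU t x).2
  refine ⟨ψ, ⟨h1, fun x => ?_, fun t x hx => ?_⟩, ?_⟩
  · have := h2 t₀ x
    simp only [he.self_of_nhds, h.id] at this
    exact this
  · have := h2 t x
    simp only [h.far _ x hx] at this
    exact this
  · filter_upwards [he] with t ht
    refine ⟨fun x => ?_, fun x => ?_⟩
    · have := h2 t x
      simp only [ht] at this
      exact this
    · have := h3 t x
      simp only [ht] at this
      exact this

/-- `rep`, `Fam.inv`, and `Fam.small` for `((t, t'), x) ↦ ψ (t, φ (t', x))` -/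
theorem loc_ts (R : ℕ) {e M M' : ℝ} (he : 0 < e) (hM : M < M') {F : Raw n m}
    (h : IsF Set.univ m F) (hb : Hb Set.univ M F) :
    (RA n).Loc (fun k G => ∃ σ, TS R e M' k σ ∧ lf σ = G) F := by
  intro t₀
  obtain ⟨φ, hφ, hF⟩ := rep isClosed_univ h.2.1 hb hM t₀
  obtain ⟨ψ, hψ, hi⟩ := hφ.inv
  have hθ : Fam (P := (Fin m → ℝ) × (Fin m → ℝ))
      (fun w => ψ (w.1.1, φ (w.1.2, w.2))) (t₀.1, t₀.1) M' :=
    ⟨hψ.sm.comp (contDiff_fst.fst.prodMk (hφ.sm.comp (contDiff_fst.snd.prodMk contDiff_snd))),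
      fun x => by simp only [hφ.id, hψ.id], fun t x hx => by
        simp only [hφ.far _ x hx, hψ.far _ x hx]⟩
  have hR : (0 : ℝ) < R + 1 := by positivity
  have hs := (eventually_all_finset (Finset.range (R + 1))).2
    fun j _ => hθ.small j (div_pos he hR)
  rw [nhds_prod_eq] at hs
  obtain ⟨W, hW, hWs⟩ := mem_prod_self_iff.1 hs
  have hv : Tendsto (fun t : Δ m => t.1) (𝓝 t₀) (𝓝 t₀.1) := continuous_subtype_val.tendsto t₀
  refine ⟨_, (hF.and (hv.eventually hi)).and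
    ((hv.eventually (hψ.small_one (e := 1 / 2) (by norm_num))).and (hv.eventually hW)),
    fun k v hU => ⟨(ψ ∘ amb) ∘ bm v, ⟨⟨(gl_amb hψ.sm).bm v, fun y => ((hU y.1).2.1 y.2).2,
      M', fun y hy => hψ.far _ _ hy⟩, fun t t' g g' hg hg' => ?_⟩, funext fun y => ?_⟩⟩
  · have e1 : ∀ x, ((g * g'⁻¹ : Gc n) : Pm n) x = ψ ((aff v t).1, φ ((aff v t').1, x)) := fun x => by
      have e2 : (g' : Pm n)⁻¹ x = φ ((aff v t').1, x) := by
        rw [Equiv.Perm.inv_eq_iff_eq, hg']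
        exact ((hU t').1.2.1 x).symm
      rw [Subgroup.coe_mul, Subgroup.coe_inv, Equiv.Perm.mul_apply, e2, hg]
      rfl
    refine ⟨fun x hx => ?_, ?_⟩
    · rw [mem_closedBall_zero_iff, not_le] at hx
      rw [e1]
      exact hθ.far ((aff v t).1, (aff v t').1) x hx.le
    · have e3 : dp ((g * g'⁻¹ : Gc n) : Pm n) =
          fun x => ψ ((aff v t).1, φ ((aff v t').1, x)) - x := funext fun x => by rw [dp, e1]
      rw [e3]
      refine (nm_le_of_sn_le (A := e / (R + 1)) fun j hj => sn_le fun x => ?_).trans_eq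
        (mul_div_cancel₀ e hR.ne')
      exact hWs (Set.mk_mem_prod (hU t).2.2 (hU t').2.2) j (Finset.mem_range.2 (by omega)) x
  · refine Eq.trans ?_ (pc_congr (bm v) ((hU y.1).1.1 y.2 trivial)).symm
    rw [pc_ker, lf, ker, rel_eq_iff]
    refine .of_forall fun ab => ⟨?_, fun hab => ⟨φ ((aff v ab.1.1).1, ab.1.2), ?_, ?_⟩⟩
    · rintro ⟨x, h1, h2⟩
      change φ ((aff v ab.1.1).1, ab.1.2) = φ ((aff v ab.2.1).1, ab.2.2)
      rw [← h1, ← h2]
      exact ((hU ab.1.1).1.2.2 x).trans ((hU ab.2.1).1.2.2 x).symm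
    · exact (hU ab.1.1).1.2.1 _
    · change φ ((aff v ab.1.1).1, ab.1.2) = φ ((aff v ab.2.1).1, ab.2.2) at hab
      rw [hab]
      exact (hU ab.2.1).1.2.1 _

end

end Pool.Agent.P.MP_878f14_gt.HT.D
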