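import Pool.Agent.P.MP_878f14_gt.HT.D.Sub
import Pool.Agent.P.MP_878f14_gt.HT.Stmt

/-! Families of germs of relations on the bundle over a simplex, and the natural operations. -/

namespace Pool.Agent.P.MP_878f14_gt.HT.D

open Filter Topology

noncomputable section

abbrev Y (n m : ℕ) : Type := Δ m × V n

/-- a germ of a relation at every point -/
def Raw (n m : ℕ) : Type := ∀ y : Y n m, Germ (𝓝 (y, y)) Prop

variable {n k m p : ℕ}

/-- pull-back by a continuous map -/
def pc (f : C(Y n m, Y n p)) (F : Raw n p) : Raw n m := fun y =>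
  (F (f y)).compTendsto (Prod.map f f) ((f.continuous.prodMap f.continuous).tendsto (y, y))

theorem pc_id (F : Raw n p) : pc (ContinuousMap.id _) F = F := funext fun y => by
  change (F y).compTendsto _ _ = F y
  induction F y using Germ.inductionOn
  rfl

theorem pc_comp (f : C(Y n k, Y n m)) (g : C(Y n m, Y n p)) (F : Raw n p) :
    pc f (pc g F) = pc (g.comp f) F := funext fun y => by
  change ((F (g (f y))).compTendsto _ _).compTendsto _ _ = (F (g (f y))).compTendsto _ _
  induction F (g (f y)) using Germ.inductionOn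
  rfl

theorem pc_congr (f : C(Y n m, Y n p)) {F G : Raw n p} {y : Y n m} (h : F (f y) = G (f y)) :
    pc f F y = pc f G y := by
  simp only [pc, h]

/-- the germs of a relation -/
def rel (R : Y n m × Y n m → Prop) : Raw n m := fun y => (R : Germ (𝓝 (y, y)) Prop)

theorem rel_eq_iff {R R' : Y n m × Y n m → Prop} {y : Y n m} :
    rel R y = rel R' y ↔ ∀ᶠ ab in 𝓝 (y, y), (R ab ↔ R' ab) := by
  simp only [rel, Germ.coe_eq, EventuallyEq, eq_iff_iff]

theorem rel_eventually {R R' : Y n m × Y n m → Prop} {y : Y n m} (h : rel R y = rel R' y) :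
    ∀ᶠ y' in 𝓝 y, rel R y' = rel R' y' := by
  simp only [rel_eq_iff] at h ⊢
  exact ((continuous_id.prodMk continuous_id).tendsto y).eventually h.eventually_nhds

theorem pc_rel (f : C(Y n m, Y n p)) (R : Y n p × Y n p → Prop) :
    pc f (rel R) = rel (R ∘ Prod.map f f) := rfl

/-- a pull-back at a point depends only on the germ of the map -/
theorem pc_eq_of_eventuallyEq {f g : C(Y n m, Y n p)} {y : Y n m} (h : ∀ᶠ y' in 𝓝 y, f y' = g y')
    (F : Raw n p) : pc f F y = pc g F y := by
  obtain ⟨R, hR⟩ : ∃ R, F (f y) = rel R (f y) := by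
    induction F (f y) using Germ.inductionOn with
    | h R => exact ⟨R, rfl⟩
  have hR' : F (g y) = rel R (g y) := h.self_of_nhds ▸ hR
  rw [pc_congr f hR, pc_congr g hR', pc_rel, pc_rel, rel_eq_iff, nhds_prod_eq]
  filter_upwards [h.prod_mk h] with ab hab
  simp only [Function.comp_apply, Prod.map, hab.1, hab.2]

/-- the fibres of a map -/
def ker (σ : Y n m → V n) : Raw n m := rel fun ab => σ ab.1 = σ ab.2

/-- the horizontal foliation -/
def hor : Raw n m := ker Prod.snd

theorem pc_ker (f : C(Y n m, Y n p)) (σ : Y n p → V n) : pc f (ker σ) = ker (σ ∘ f) := rfl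

theorem ker_congr {σ σ' : Y n m → V n} {y : Y n m} (h : ∀ᶠ y' in 𝓝 y, σ y' = σ' y') :
    ker σ y = ker σ' y := by
  rw [ker, ker, rel_eq_iff, nhds_prod_eq]
  filter_upwards [h.prod_mk h] with ab hab
  rw [hab.1, hab.2]

theorem ker_eventually {σ σ' : Y n m → V n} {y : Y n m} (h : ker σ y = ker σ' y) :
    ∀ᶠ y' in 𝓝 y, ker σ y' = ker σ' y' := rel_eventually h

/-- the map of bundles over an affine simplex -/
def bm (v : Fin m → Δ p) : C(Y n m, Y n p) := (aff v).prodMap (ContinuousMap.id _)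

@[simp] theorem bm_apply (v : Fin m → Δ p) (y : Y n m) : bm v y = (aff v y.1, y.2) := rfl

theorem bm_vx : bm (n := n) (vx (m := m)) = ContinuousMap.id _ := by
  rw [bm, aff_id]; rfl

theorem bm_comp (v : Fin k → Δ m) (w : Fin m → Δ p) :
    (bm (n := n) w).comp (bm v) = bm fun i => aff w (v i) :=
  ContinuousMap.ext fun y => Prod.ext (aff_aff w v y.1) rfl

/-- germ families as a presheaf -/
@[reducible] def RA (n : ℕ) : AS where
  X := Raw n
  pl v := pc (bm v)
  pl_comp v w F := by rw [pc_comp, bm_comp]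
  pl_id F := by rw [bm_vx, pc_id]

/-- maps to the fibre as a presheaf -/
@[reducible] def TA (n : ℕ) : AS where
  X m := Y n m → V n
  pl v σ := σ ∘ bm v
  pl_comp v w σ := by rw [← bm_comp]; rfl
  pl_id σ := by rw [bm_vx]; rfl

abbrev RS (n : ℕ) : SS := (RA n).ss

theorem pc_bm_hor (v : Fin m → Δ p) : pc (bm (n := n) v) hor = hor := rfl

open Classical in
/-- cut and paste -/
def sel (s : Set (V n)) (G F : Raw n m) : Raw n m := fun y => if y.2 ∈ s then G y else F y

theorem sel_of_mem {s : Set (V n)} (G F : Raw n m) {y : Y n m} (h : y.2 ∈ s) :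
    sel s G F y = G y := if_pos h

theorem sel_of_not_mem {s : Set (V n)} (G F : Raw n m) {y : Y n m} (h : y.2 ∉ s) :
    sel s G F y = F y := if_neg h

theorem pc_bm_sel (v : Fin m → Δ p) (s : Set (V n)) (G F : Raw n p) :
    pc (bm v) (sel s G F) = sel s (pc (bm v) G) (pc (bm v) F) := funext fun y => by
  by_cases h : y.2 ∈ s
  · rw [sel_of_mem _ _ h]; exact pc_congr _ (sel_of_mem _ _ h)
  · rw [sel_of_not_mem _ _ h]; exact pc_congr _ (sel_of_not_mem _ _ h)

/-- the empty relation -/
def nul : Raw n m := rel fun _ => False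

/-- restriction -/
def res (Z : Set (V n)) (m : ℕ) (F : Raw n m) : Raw n m := sel Z F nul

theorem res_of_mem {Z : Set (V n)} (F : Raw n m) {y : Y n m} (h : y.2 ∈ Z) : res Z m F y = F y :=
  sel_of_mem _ _ h

theorem res_of_not_mem {Z : Set (V n)} (F : Raw n m) {y : Y n m} (h : y.2 ∉ Z) :
    res Z m F y = nul y := sel_of_not_mem _ _ h

theorem pc_bm_res (v : Fin m → Δ p) (Z : Set (V n)) (F : Raw n p) :
    pc (bm v) (res Z p F) = res Z m (pc (bm v) F) := pc_bm_sel v Z F nul

theorem res_nat (Z : Set (V n)) : (RS n).Nat (RS n) (res Z) := fun _ _ _ F => pc_bm_res _ Z F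

theorem res_congr {Z : Set (V n)} {F G : Raw n m} (h : ∀ y, y.2 ∈ Z → F y = G y) :
    res Z m F = res Z m G := funext fun y => by
  by_cases hy : y.2 ∈ Z
  · rw [res_of_mem _ hy, res_of_mem _ hy, h y hy]
  · rw [res_of_not_mem _ hy, res_of_not_mem _ hy]

theorem res_res {Z Z' : Set (V n)} (h : Z ⊆ Z') (F : Raw n m) :
    res Z m (res Z' m F) = res Z m F := res_congr fun _ hy => res_of_mem _ (h hy)

theorem res_univ (F : Raw n m) : res Set.univ m F = F := funext fun _ => res_of_mem _ trivial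

/-- a fibre preserving map -/
def fb (c : C(Y n m, V n)) : C(Y n m, Y n m) := ContinuousMap.fst.prodMk c

@[simp] theorem fb_apply (c : C(Y n m, V n)) (y : Y n m) : fb c y = (y.1, c y) := rfl

theorem pc_bm_fb (v : Fin m → Δ p) (c : C(Y n p, V n)) (F : Raw n p) :
    pc (bm v) (pc (fb c) F) = pc (fb (c.comp (bm v))) (pc (bm v) F) := by
  rw [pc_comp, pc_comp]; rfl

/-- the affine function with values `0` or `1` at the vertices -/
def sk (κ : Fin m → Bool) (t : Fin m → ℝ) : ℝ := ∑ i, t i * if κ i then 1 else 0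

theorem sk_aff (f : Fin m → Fin p) (κ : Fin p → Bool) (t : Δ m) :
    sk κ (aff (fun i => vx (f i)) t).1 = sk (κ ∘ f) t.1 :=
  sum_aff_vx f t fun l => if κ l then (1 : ℝ) else 0

theorem sk_false (t : Fin m → ℝ) : sk (fun _ => false) t = 0 := by simp [sk]

theorem sk_true (t : Δ m) : sk (fun _ => true) t.1 = 1 := by simpa [sk] using t.2.2

theorem sk_mem (κ : Fin m → Bool) (t : Δ m) : sk κ t.1 ∈ Set.Icc (0 : ℝ) 1 := by
  refine ⟨Finset.sum_nonneg fun i _ => mul_nonneg (t.2.1 i) (by split_ifs <;> norm_num), ?_⟩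
  rw [← t.2.2]
  exact Finset.sum_le_sum fun i _ => by split_ifs <;> simp [t.2.1 i]

theorem contDiff_sk (κ : Fin m → Bool) : ContDiff ℝ (⊤ : ℕ∞) (sk κ) :=
  ContDiff.sum fun i _ => (contDiff_apply ℝ ℝ i).mul contDiff_const

instance : IsEmpty (Δ 0) := ⟨fun t => by simpa using t.2.2⟩

instance : Unique (Raw n 0) := ⟨⟨nul⟩, fun _ => funext fun y => isEmptyElim y.1⟩

end

end Pool.Agent.P.MP_878f14_gt.HT.D
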