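import Pool.Agent.P.MP_878f14_gt.HT.D.SS

/-! Universal chains: homotopies, prisms and the acyclic carrier lemma. -/

namespace Pool.Agent.P.MP_878f14_gt.HT.D

open FreeAbelianGroup

noncomputable section

/-- cosimplicial families -/
structure CoS where
  S : ℕ → SS
  pu : ∀ {n m : ℕ}, (Fin n → Fin m) → ∀ k, (S n).X k → (S m).X k
  nat : ∀ {n m : ℕ} (f : Fin n → Fin m), (S n).Nat (S m) (pu f)
  comp : ∀ {n m l : ℕ} (f : Fin n → Fin m) (g : Fin m → Fin l) (k : ℕ) (x : (S n).X k),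
    pu g k (pu f k x) = pu (g ∘ f) k x

namespace CoS

variable (A : CoS) {K T : SS} {n k : ℕ}

def del (α : K.X n → FA ((A.S n).X k)) (y : K.X (n + 1)) : FA ((A.S (n + 1)).X k) :=
  ∑ j : Fin (n + 1), (-1 : ℤ) ^ j.1 • map (A.pu j.succAbove k) (α (K.pull j.succAbove y))

theorem d_del (α : K.X n → FA ((A.S n).X (k + 1))) (y : K.X (n + 1)) :
    (A.S _).d (A.del α y) = A.del (fun x => (A.S n).d (α x)) y := by
  simp only [del, map_sum, map_zsmul, SS.map_d (A.nat _)]

theorem del_del (α : K.X n → FA ((A.S n).X k)) (y : K.X (n + 2)) : A.del (A.del α) y = 0 := by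
  simp only [del, map_sum, map_zsmul, map_map, A.comp, K.pull_comp]
  exact sum_sign_zero (fun i j => map (fun x => A.pu (i.succAbove ∘ j.succAbove) k x)
    (α (K.pull (i.succAbove ∘ j.succAbove) y))) fun i j => by rw [sa_sa]

theorem del_congr {α β : K.X n → FA ((A.S n).X k)} {y : K.X (n + 1)}
    (h : ∀ j : Fin (n + 1), α (K.pull j.succAbove y) = β (K.pull j.succAbove y)) :
    A.del α y = A.del β y := by
  simp only [del, h]

theorem del_sub (α β : K.X n → FA ((A.S n).X k)) (y : K.X (n + 1)) :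
    A.del (fun x => α x - β x) y = A.del α y - A.del β y := by
  simp only [del, map_sub, smul_sub, Finset.sum_sub_distrib]

theorem del_zero (y : K.X (n + 1)) : A.del (fun _ => (0 : FA ((A.S n).X k))) y = 0 := by
  simp [del]

/-- evaluation of universal simplices -/
structure Ev (A : CoS) (K T : SS) where
  ev : ∀ {n : ℕ}, K.X n → ∀ k, (A.S n).X k → T.X k
  nat : ∀ {n : ℕ} (y : K.X n), (A.S n).Nat T (ev y)
  face : ∀ {n : ℕ} (y : K.X (n + 1)) (j : Fin (n + 1)) (k : ℕ) (a : (A.S n).X k),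
    ev y k (A.pu j.succAbove k a) = ev (K.pull j.succAbove y) k a

variable {A}

def Ev.E (e : Ev A K T) (α : K.X n → FA ((A.S n).X k)) : FA (K.X n) →+ FA (T.X k) :=
  lift fun y => map (e.ev y k) (α y)

theorem Ev.E_of (e : Ev A K T) (α : K.X n → FA ((A.S n).X k)) (y : K.X n) :
    e.E α (of y) = map (e.ev y k) (α y) := lift_apply_of _ _

theorem Ev.d_E (e : Ev A K T) (α : K.X n → FA ((A.S n).X (k + 1))) (z : FA (K.X n)) :
    T.d (e.E α z) = e.E (fun y => (A.S n).d (α y)) z :=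
  hom_eq (T.d.comp (e.E α)) _ (fun y => by
    simp only [AddMonoidHom.comp_apply, Ev.E_of, SS.map_d (e.nat y)]) z

theorem Ev.E_del (e : Ev A K T) (α : K.X n → FA ((A.S n).X k)) (z : FA (K.X (n + 1))) :
    e.E (A.del α) z = e.E α (K.d z) :=
  hom_eq _ ((e.E α).comp K.d) (fun y => by
    simp only [AddMonoidHom.comp_apply, Ev.E_of, SS.d_of, del, map_sum, map_zsmul, map_map,
      e.face]) z

theorem Ev.E_congr (e : Ev A K T) {P : K.X n → Prop} {α β : K.X n → FA ((A.S n).X k)}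
    (h : ∀ y, P y → α y = β y) {z : FA (K.X n)} (hz : z ∈ Ch P) : e.E α z = e.E β z :=
  hom_eq_on _ _ (fun y hy => by rw [Ev.E_of, Ev.E_of, h y hy]) hz

theorem Ev.E_sub (e : Ev A K T) (α β : K.X n → FA ((A.S n).X k)) (z : FA (K.X n)) :
    e.E (fun y => α y - β y) z = e.E α z - e.E β z :=
  hom_eq _ (e.E α - e.E β) (fun y => by simp [Ev.E_of]) z

end CoS

/-- functors on the finite ordinals -/
structure Co where
  A : ℕ → Type
  push : ∀ {n m : ℕ}, (Fin n → Fin m) → A n → A m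
  comp : ∀ {n m l : ℕ} (f : Fin n → Fin m) (g : Fin m → Fin l) (a : A n),
    push g (push f a) = push (g ∘ f) a
  pt : ∀ n, A (n + 1)

@[reducible] def Co.fn (C : Co) : CoS where
  S n := Fn (C.A n)
  pu f _ θ := fun i => C.push f (θ i)
  nat _ _ _ _ _ := rfl
  comp f g _ θ := funext fun i => C.comp f g (θ i)

theorem Co.dF_del (C : Co) {K : SS} {n k : ℕ} (α : K.X n → FA (Fin (k + 1) → C.A n))
    (y : K.X (n + 1)) : dF (C.fn.del α y) = C.fn.del (fun x => dF (α x)) y := C.fn.d_del α y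

/-- the homotopy defined by a family of universal cycles -/
def Co.hty (C : Co) {K : SS} (γ : ∀ n, K.X n → FA (Fin n → C.A n)) :
    ∀ n, K.X n → FA (Fin (n + 1) → C.A n)
  | 0 => fun _ => 0
  | n + 1 => fun y => cone (C.pt n) (γ _ y - C.fn.del (C.hty γ n) y)

theorem Co.hty_succ (C : Co) {K : SS} (γ : ∀ n, K.X n → FA (Fin n → C.A n)) (n : ℕ)
    (y : K.X (n + 1)) :
    C.hty γ (n + 1) y = cone (C.pt n) (γ _ y - C.fn.del (C.hty γ n) y) := rfl

theorem Co.d_hty (C : Co) {K : SS} {P : K.Pr} (hP : K.Cl P) (γ : ∀ n, K.X n → FA (Fin n → C.A n))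
    (N : ℕ) (h0 : ∀ y, P 0 y → γ 0 y = 0)
    (h1 : ∀ n < N, ∀ y, P (n + 1) y → dF (γ (n + 1) y) = C.fn.del (γ n) y) :
    ∀ n < N, ∀ y, P (n + 1) y →
      dF (C.hty γ (n + 1) y) = γ _ y - C.fn.del (C.hty γ n) y := by
  intro n
  induction n with
  | zero =>
    intro hn y hy
    rw [Co.hty_succ, d_cone, map_sub, h1 0 hn y hy, C.dF_del,
      C.fn.del_congr (β := fun _ => 0) fun j => h0 _ (hP _ _ hy),
      C.fn.del_congr (α := fun x => dF (C.hty γ 0 x)) (β := fun _ => 0)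
        fun j => by simp [Co.hty]]
    simp
  | succ n ih =>
    intro hn y hy
    rw [Co.hty_succ, d_cone, map_sub, h1 _ hn y hy, C.dF_del,
      C.fn.del_congr (α := fun x => dF (C.hty γ (n + 1) x))
        (β := fun x => γ _ x - C.fn.del (C.hty γ n) x)
        fun j => ih (by omega) _ (hP _ _ hy), C.fn.del_sub, C.fn.del_del]
    simp

/-- the prism operator of a family of universal cycles -/
theorem Co.homot (C : Co) {K T : SS} {P : K.Pr} (hP : K.Cl P) (e : CoS.Ev C.fn K T)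
    (γ : ∀ n, K.X n → FA (Fin n → C.A n)) (N : ℕ) (h0 : ∀ y, P 0 y → γ 0 y = 0)
    (h1 : ∀ n < N, ∀ y, P (n + 1) y → dF (γ (n + 1) y) = C.fn.del (γ n) y)
    {n : ℕ} (hn : n < N) {z : FA (K.X (n + 1))} (hz : z ∈ Ch (P _)) :
    T.d (e.E (C.hty γ (n + 1)) z) = e.E (γ _) z - e.E (C.hty γ n) (K.d z) := by
  rw [e.d_E, ← e.E_del, ← e.E_sub]
  exact e.E_congr (fun y hy => C.d_hty hP γ N h0 h1 n hn y hy) hz

theorem CoS.Ev.E_mem {A : CoS} {K T : SS} (e : CoS.Ev A K T) {n k : ℕ} {P : K.X n → Prop}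
    {Q : T.X k → Prop} (h : ∀ y, P y → ∀ a, Q (e.ev y k a)) (α : K.X n → FA ((A.S n).X k))
    {z : FA (K.X n)} (hz : z ∈ Ch P) : e.E α z ∈ Ch Q :=
  hom_mem _ (fun y hy => by
    rw [e.E_of]; exact map_mem _ (fun a _ => h y hy a) (mem_Ch_true _)) hz

@[reducible] def coV : Co where
  A := Fin
  push f := f
  comp _ _ _ := rfl
  pt _ := 0

@[reducible] def coP : Co where
  A n := Fin n × Bool
  push f a := (f a.1, a.2)
  comp _ _ _ := rfl
  pt _ := (0, false)

/-- natural homotopies -/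
structure Hty (K T : SS) where
  H : ∀ {n : ℕ}, K.X n → (Fin n → Bool) → T.X n
  nat : ∀ {m p : ℕ} (f : Fin m → Fin p) (x : K.X p) (κ : Fin p → Bool),
    T.pull f (H x κ) = H (K.pull f x) (κ ∘ f)

namespace Hty

variable {K T : SS} (h : Hty K T) {n : ℕ}

def ev : CoS.Ev coP.fn K T where
  ev y _ a := h.H (K.pull (fun i => (a i).1) y) fun i => (a i).2
  nat y _ _ f a := by rw [h.nat, K.pull_comp]; rfl
  face y j _ a := by rw [K.pull_comp]; rfl

def gam (n : ℕ) (_ : K.X n) : FA (Fin n → Fin n × Bool) :=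
  of (fun i => (i, true)) - of fun i => (i, false)

/-- the prism operator -/
def prism : FA (K.X n) →+ FA (T.X (n + 1)) := h.ev.E (coP.hty gam n)

/-- an end of the homotopy -/
def en (b : Bool) (n : ℕ) (x : K.X n) : T.X n := h.H x fun _ => b

theorem en_nat (b : Bool) : K.Nat T (h.en b) := fun _ _ f x => h.nat f x _

theorem d_prism (z : FA (K.X (n + 1))) :
    T.d (h.prism z) = map (h.en true _) z - map (h.en false _) z - h.prism (K.d z) := by
  have := coP.homot (P := fun _ _ => True) (fun _ _ _ _ _ => trivial) h.ev gam (n + 1)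
    (fun y _ => by
      rw [gam, sub_eq_zero]
      congr 1
      exact Subsingleton.elim _ _)
    (fun m _ y _ => by
      simp only [gam, map_sub, dF_of, CoS.del, map_of_apply, smul_sub, Finset.sum_sub_distrib]
      rfl) (Nat.lt_succ_self n) (mem_Ch_true z)
  rw [prism, this]
  congr 1
  refine hom_eq _ (map (h.en true _) - map (h.en false _)) (fun y => ?_) z
  simp only [CoS.Ev.E_of, gam, map_sub, map_of_apply, AddMonoidHom.sub_apply]
  congr 2 <;> exact congrArg (fun x => h.H x _) (K.pull_id y)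

theorem prism_mem {P : K.Pr} {Q : T.Pr} (hP : K.Cl P) (hQ : ∀ n x κ, P n x → Q n (h.H x κ))
    {z : FA (K.X n)} (hz : z ∈ Ch (P n)) : h.prism z ∈ Ch (Q (n + 1)) :=
  h.ev.E_mem (fun y hy _ => hQ _ _ _ (hP _ y hy)) _ hz

theorem hty_indep : ∀ (n : ℕ) (x x' : K.X n), coP.hty gam n x = coP.hty gam n x'
  | 0, _, _ => rfl
  | n + 1, x, x' => by
    rw [Co.hty_succ, Co.hty_succ]
    congr 2
    exact Finset.sum_congr rfl fun j _ => by rw [hty_indep n _ (K.pull j.succAbove x')]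

/-- the prism of a simplex depends only on the homotopy on its pull-backs -/
theorem map_prism {U : SS} (π : ∀ n, T.X n → U.X n) {x x' : K.X n}
    (e : ∀ m (f : Fin m → Fin n) κ, π m (h.H (K.pull f x) κ) = π m (h.H (K.pull f x') κ)) :
    map (π _) (h.prism (of x)) = map (π _) (h.prism (of x')) := by
  rw [prism, CoS.Ev.E_of, CoS.Ev.E_of, map_map, map_map, hty_indep n x x']
  congr 2
  exact funext fun a => e _ _ _

end Hty

/-- cycles in the augmented complex -/
def SS.Cyc (S : SS) : ∀ k, FA (S.X k) → Prop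
  | 0, _ => True
  | _ + 1, z => S.d z = 0

/-- cycles carried by `P` bound chains carried by `Q` -/
def SS.Kill (S : SS) (P Q : S.Pr) (k : ℕ) : Prop :=
  ∀ z ∈ Ch (P k), S.Cyc k z → ∃ w ∈ Ch (Q (k + 1)), S.d w = z

@[reducible] def coX (X : SS) : CoS where
  S n := (Fn (Fin n)).prod X
  pu f _ a := (f ∘ a.1, a.2)
  nat _ _ _ _ _ := rfl
  comp _ _ _ _ := rfl

open Classical in
/-- the lifts chosen in the carriers -/
def lam {K X : SS} (Car : ℕ → ∀ {n : ℕ}, K.X n → ((Fn (Fin n)).prod X).Pr) (x₀ : X.X 0) :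
    ∀ n, K.X n → FA (((coX X).S n).X n)
  | 0 => fun _ => of (id, x₀)
  | n + 1 => fun y =>
    if h : ∃ w ∈ Ch (Car (n + 1) y (n + 1)), ((coX X).S _).d w = (coX X).del (lam Car x₀ n) y then
      h.choose else 0

/-- The acyclic carrier lemma. `Car i y` is the carrier of level `i` of the simplex `y`. -/
theorem carrier {K X B : SS} {P : K.Pr} (hP : K.Cl P) (r : ∀ n, K.X n → B.X n) (hr : K.Nat B r)
    (ρ : ∀ n, X.X n → B.X n) (hρ : X.Nat B ρ) {Q : X.Pr} {R : B.Pr} (hR : B.Cl R)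
    (hPR : ∀ n y, P n y → R n (r n y))
    (Car : ℕ → ∀ {n : ℕ}, K.X n → ((Fn (Fin n)).prod X).Pr) (x₀ : X.X 0) (N : ℕ)
    (c0 : ∀ y : K.X 0, P 0 y → Car 0 y 0 (id, x₀))
    (cf : ∀ i n (y : K.X (n + 1)) (j : Fin (n + 1)) k θ F, P _ y →
      Car i (K.pull j.succAbove y) k (θ, F) → Car i y k (j.succAbove ∘ θ, F))
    (ce : ∀ i ≤ N, ∀ n (y : K.X n) k θ F, P n y → Car i y k (θ, F) →
      Q k F ∧ ρ k F = B.pull θ (r n y))
    (ck : ∀ k < N, ∀ y : K.X (k + 1), P _ y →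
      ((Fn (Fin (k + 1))).prod X).Kill (Car k y) (Car (k + 1) y) k)
    {n : ℕ} (hn : n < N) {z : FA (K.X (n + 1))} (hz : z ∈ Ch (P _)) (hd : K.d z = 0) :
    ∃ x ∈ Ch (Q (n + 1)), X.d x = 0 ∧ ∃ w ∈ Ch (R (n + 2)), B.d w = map (ρ _) x - map (r _) z := by
  have step : ∀ k < N, (∀ y, P k y → lam @Car x₀ k y ∈ Ch (Car k y k)) →
      (∀ y, P (k + 1) y → ((coX X).S _).Cyc k ((coX X).del (lam @Car x₀ k) y)) →
      ∀ y, P (k + 1) y → lam @Car x₀ (k + 1) y ∈ Ch (Car (k + 1) y (k + 1)) ∧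
        ((coX X).S _).d (lam @Car x₀ (k + 1) y) = (coX X).del (lam @Car x₀ k) y := by
    intro k hk h1 h2 y hy
    have h := ck k hk y hy ((coX X).del (lam @Car x₀ k) y)
      (sum_mem fun j _ => zsmul_mem (map_mem _ (fun a ha => cf k k y j k a.1 a.2 hy ha)
        (h1 _ (hP _ _ hy))) _) (h2 y hy)
    have e : lam @Car x₀ (k + 1) y = h.choose := dif_pos h
    rw [e]
    exact h.choose_spec
  have key : ∀ k ≤ N, (∀ y, P k y → lam @Car x₀ k y ∈ Ch (Car k y k)) ∧
      ∀ y, P (k + 1) y → ((coX X).S _).Cyc k ((coX X).del (lam @Car x₀ k) y) := by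
    intro k
    induction k with
    | zero => exact fun _ => ⟨fun y hy => of_mem (c0 y hy), fun _ _ => trivial⟩
    | succ k ih =>
      intro hk
      obtain ⟨h1, h2⟩ := ih (by omega)
      refine ⟨fun y hy => (step k hk h1 h2 y hy).1, fun y hy => ?_⟩
      show ((coX X).S _).d _ = 0
      rw [CoS.d_del, (coX X).del_congr (β := (coX X).del (lam @Car x₀ k))
        fun j => (step k hk h1 h2 _ (hP _ _ hy)).2, CoS.del_del]
  have hdl : ∀ k < N, ∀ y, P (k + 1) y →
      ((coX X).S _).d (lam @Car x₀ (k + 1) y) = (coX X).del (lam @Car x₀ k) y :=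
    fun k hk y hy => (step k hk (key k hk.le).1 (key k hk.le).2 y hy).2
  let e1 : CoS.Ev (coX X) K X := ⟨fun _ _ a => a.2, fun _ _ _ _ _ => rfl, fun _ _ _ _ => rfl⟩
  let e2 : CoS.Ev coV.fn K B := ⟨fun y _ θ => B.pull θ (r _ y),
    fun _ _ _ _ _ => B.pull_comp _ _ _, fun y j _ θ => by rw [← hr, B.pull_comp]; rfl⟩
  let γ : ∀ k, K.X k → FA (Fin k → Fin k) := fun k y => map Prod.fst (lam @Car x₀ k y) - of id
  have hf : ∀ k, ((coX X).S k).Nat (Fn (Fin k)) fun _ => Prod.fst := fun _ _ _ _ _ => rfl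
  refine ⟨e1.E (lam @Car x₀ (n + 1)) z, hom_mem _ (fun y hy => ?_) hz, ?_,
    e2.E (coV.hty γ (n + 1)) z, e2.E_mem (fun y hy θ => hR _ _ (hPR _ _ hy)) _ hz, ?_⟩
  · rw [CoS.Ev.E_of]
    exact map_mem _ (fun a ha => (ce _ hn _ y _ a.1 a.2 hy ha).1) ((key _ hn).1 y hy)
  · rw [e1.d_E, e1.E_congr (hdl n hn) hz, e1.E_del, hd, map_zero]
  · rw [coV.homot hP e2 γ N (fun y _ => sub_self _) (fun k hk y hy => ?_) hn hz, hd, map_zero,
      sub_zero]
    · refine hom_eq_on _ ((map (ρ _)).comp (e1.E _) - map (r _)) (fun y hy => ?_) hz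
      simp only [CoS.Ev.E_of, γ, map_sub, AddMonoidHom.sub_apply, AddMonoidHom.comp_apply,
        map_of_apply, map_map]
      refine congrArg₂ (· - ·) ?_ (congrArg of (B.pull_id _))
      exact map_eq_on (fun a ha => (ce _ hn _ y _ a.1 a.2 hy ha).2.symm) ((key _ hn).1 y hy)
    · have := SS.map_d (hf (k + 1)) (lam @Car x₀ (k + 1) y)
      rw [hdl k hk y hy] at this
      simp only [γ, map_sub]
      rw [coV.fn.del_sub]
      refine congrArg₂ (· - ·) (this.trans ?_) (dF_of _)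
      simp only [CoS.del, map_sum, map_zsmul, map_map]
      rfl

end

end Pool.Agent.P.MP_878f14_gt.HT.D
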