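import Pool.Agent.P.MP_878f14_gt.HT.D.Rep1

/-! Foliations defined by small maps. -/

namespace Pool.Agent.P.MP_878f14_gt.HT.D

open Filter Topology Function
open scoped ContDiff

noncomputable section

variable {n m p : ℕ} {Z : Set (V n)} {F : Raw n m} {M M' : ℝ}

/-- small maps -/
structure Sml (ε : ℝ) (σ : Y n m → V n) : Prop where
  gl : Gl σ
  c0 : ∀ y, ‖σ y - y.2‖ ≤ ε
  c1 : ∀ y, ‖fd σ y - ContinuousLinearMap.id ℝ (V n)‖ ≤ ε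
  far : ∃ M, ∀ y : Y n m, M ≤ ‖y.2‖ → σ y = y.2

theorem Sml.bm {ε : ℝ} {σ : Y n p → V n} (h : Sml ε σ) (v : Fin m → Δ p) : Sml ε (σ ∘ bm v) :=
  ⟨h.gl.bm v, fun y => h.c0 (D.bm v y), fun y => h.c1 (D.bm v y),
    h.far.imp fun _ h y => h (D.bm v y)⟩

theorem hb_ker {σ : Y n m → V n} (h : ∀ y : Y n m, M ≤ ‖y.2‖ → σ y = y.2) :
    Hb Z (M + 1) (ker σ) := fun y _ hy => by
  refine ker_congr ?_
  have hc : Continuous fun y : Y n m => ‖y.2‖ := continuous_snd.norm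
  filter_upwards [(isOpen_lt continuous_const hc).mem_nhds
    (show M < ‖y.2‖ by linarith)] with y' hy' using h y' (le_of_lt hy')

theorem Sml.isF {ε : ℝ} {σ : Y n m → V n} (h : Sml ε σ) (hε : ε < 1) (Z : Set (V n)) :
    IsF Z m (res Z m (ker σ)) := by
  obtain ⟨M, hM⟩ := h.far
  exact isF_res (lc_ker fun y _ => cht_of_norm (h.gl.smAt y) ((h.c1 y).trans_lt hε)) (hb_ker hM)

/-- foliations defined by a small map -/
def SF (ε : ℝ) (Z : Set (V n)) (m : ℕ) (F : Raw n m) : Prop :=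
  IsF Z m F ∧ ∃ σ, Sml ε σ ∧ ∀ y : Y n m, y.2 ∈ Z → F y = ker σ y

theorem sf_cl (ε : ℝ) (Z : Set (V n)) : (RA n).Cl (SF ε Z) := fun _ _ v _ h =>
  ⟨isF_cl Z v _ h.1, h.2.elim fun σ hσ =>
    ⟨σ ∘ bm v, hσ.1.bm v, fun y hy => pc_congr _ (hσ.2 (bm v y) hy)⟩⟩

/-- `rep` and `Fam.small_one` -/
theorem loc_sf (hZ : IsClosed Z) {ε : ℝ} (hε : 0 < ε) (h : IsF Z m F) :
    (RA n).Loc (SF ε Z) F := fun t₀ => by
  obtain ⟨M, hM⟩ := h.2.2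
  obtain ⟨φ, hφ, he⟩ := rep hZ h.2.1 hM (lt_add_one M) t₀
  have hs := (continuous_subtype_val.tendsto t₀).eventually (hφ.small_one hε)
  refine ⟨_, he.and hs, fun k v hv => ⟨isF_cl Z v F h, (φ ∘ amb) ∘ bm v,
    ⟨(gl_amb hφ.sm).bm v, fun y => ((hv y.1).2 y.2).1, fun y => ((hv y.1).2 y.2).2,
      M + 1, fun y hy => hφ.far _ _ hy⟩, fun y hy => ?_⟩⟩
  exact pc_congr (bm v) (G := ker (φ ∘ amb)) ((hv y.1).1 y.2 hy)

end

end Pool.Agent.P.MP_878f14_gt.HT.D
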