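import Pool.Agent.P.MP_878f14_gt.HT.D.Fol

/-! Smooth families through the identity. -/

namespace Pool.Agent.P.MP_878f14_gt.HT.D

open Filter Topology Function
open scoped ContDiff

noncomputable section

variable {n m p : ℕ} {Z : Set (V n)} {F : Raw n m} {M M' : ℝ}

/-- a smooth family through the identity with supports in a ball -/
structure Fam {P : Type} [NormedAddCommGroup P] [NormedSpace ℝ P] (φ : P × V n → V n) (p₀ : P)
    (M : ℝ) : Prop where
  sm : ContDiff ℝ ∞ φ
  id : ∀ x, φ (p₀, x) = x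
  far : ∀ t x, M ≤ ‖x‖ → φ (t, x) = x

/-- All derivatives in `x` are uniformly small near `p₀`: the derivative is jointly continuous
(`ContinuousLinearMap.iteratedFDeriv_comp_right` with `inr`), vanishes at `p₀` and for `M < ‖x‖`;
`IsCompact.eventually_forall_of_forall_eventually`. -/
theorem Fam.small {P : Type} [NormedAddCommGroup P] [NormedSpace ℝ P] {φ : P × V n → V n} {p₀ : P}
    (h : Fam φ p₀ M) (r : ℕ) {e : ℝ} (he : 0 < e) :
    ∀ᶠ t in 𝓝 p₀, ∀ x, ‖iteratedFDeriv ℝ r (fun x => φ (t, x) - x) x‖ ≤ e := by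
  have hψ : ContDiff ℝ ∞ fun z : P × V n => φ z - z.2 := h.sm.sub contDiff_snd
  have key : ∀ z : P × V n, iteratedFDeriv ℝ r (fun x => φ (z.1, x) - x) z.2 =
      (iteratedFDeriv ℝ r (fun z : P × V n => φ z - z.2) z).compContinuousLinearMap
        fun _ => ContinuousLinearMap.inr ℝ P (V n) := by
    rintro ⟨t, x⟩
    have h1 : ContDiff ℝ ∞ fun w : P × V n => (fun z : P × V n => φ z - z.2) ((t, 0) + w) :=
      hψ.comp (contDiff_const.add contDiff_id)
    have h2 := (ContinuousLinearMap.inr ℝ P (V n)).iteratedFDeriv_comp_right h1 x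
      (i := r) (by exact_mod_cast le_top)
    rw [iteratedFDeriv_comp_add_left (f := fun z : P × V n => φ z - z.2)] at h2
    simpa [Function.comp_def] using h2
  have hc : Continuous fun z : P × V n => iteratedFDeriv ℝ r (fun x => φ (z.1, x) - x) z.2 := by
    simp only [key]
    exact (ContinuousMultilinearMap.compContinuousLinearMapL
      (fun _ => ContinuousLinearMap.inr ℝ P (V n))).continuous.comp
      (hψ.continuous_iteratedFDeriv (by exact_mod_cast le_top))
  have h0 : ∀ x, iteratedFDeriv ℝ r (fun x => φ (p₀, x) - x) x = 0 := by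
    intro x
    simp [h.id]
  have hK := (isCompact_closedBall (0 : V n) M).eventually_forall_of_forall_eventually
    (x₀ := p₀) (P := fun t x => ‖iteratedFDeriv ℝ r (fun x => φ (t, x) - x) x‖ ≤ e)
    (fun x _ => ((hc.norm.tendsto (p₀, x)).eventually (ge_mem_nhds (by simpa [h0] using he))))
  filter_upwards [hK] with t ht x
  by_cases hx : x ∈ Metric.closedBall (0 : V n) M
  · exact ht x hx
  · have e1 : (fun x => φ (t, x) - x) =ᶠ[𝓝 x] fun _ => 0 := by
      filter_upwards [Metric.isClosed_closedBall.isOpen_compl.mem_nhds hx] with z hz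
      rw [h.far t z (le_of_lt (by simpa using hz)), sub_self]
    rw [(e1.iteratedFDeriv ℝ r).self_of_nhds]
    simpa using he.le

theorem Fam.small_one {P : Type} [NormedAddCommGroup P] [NormedSpace ℝ P] {φ : P × V n → V n}
    {p₀ : P} (h : Fam φ p₀ M) {e : ℝ} (he : 0 < e) : ∀ᶠ t in 𝓝 p₀, ∀ x, ‖φ (t, x) - x‖ ≤ e ∧
      ‖fderiv ℝ (fun x => φ (t, x)) x - ContinuousLinearMap.id ℝ (V n)‖ ≤ e := by
  filter_upwards [h.small 0 he, h.small 1 he] with t h0 h1 x
  refine ⟨by simpa using h0 x, ?_⟩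
  have hd : DifferentiableAt ℝ (fun x => φ (t, x)) x :=
    ((h.sm.comp (contDiff_const.prodMk contDiff_id)).differentiable (by simp)) x
  have := h1 x
  rw [norm_iteratedFDeriv_one, fderiv_fun_sub hd differentiableAt_fun_id, fderiv_fun_id] at this
  exact this

/-- local step: cut off a normalised chart (`Cht.norm`) by a bump function on `Am n m` -/
theorem rep_loc (h : Lc Z F) {y : Y n m} (hy : y.2 ∈ Z) :
    ∃ φ M, Fam φ y.1.1 M ∧ F y = ker (φ ∘ amb) y := by
  obtain ⟨σ, hσ, hF⟩ := h y hy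
  obtain ⟨τ, ⟨ψ, h1, h2⟩, h3, h4⟩ := hσ.norm
  have h5 : ∀ᶠ x in 𝓝 y.2, ψ (y.1.1, x) = x := by
    have ht : Tendsto (fun x : V n => (y.1, x)) (𝓝 y.2) (𝓝 y) :=
      (continuous_const.prodMk continuous_id).tendsto y.2
    filter_upwards [h3, ht.eventually h2] with x e1 e2
    exact e2.symm.trans e1
  obtain ⟨ε₁, hε₁, H1⟩ := Metric.eventually_nhds_iff.1 h1
  obtain ⟨ε₂, hε₂, H2⟩ := Metric.eventually_nhds_iff.1 h5
  have hε : 0 < min ε₁ ε₂ := lt_min hε₁ hε₂
  let b : ContDiffBump (amb y) := ⟨min ε₁ ε₂ / 4, min ε₁ ε₂ / 2, by linarith, by linarith⟩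
  have hb0 : ∀ w : Am n m, min ε₁ ε₂ / 2 ≤ dist w (amb y) → b w = 0 := fun w hw =>
    b.zero_of_le_dist hw
  have hb2 : ∀ (t : Fin m → ℝ) (x : V n), min ε₁ ε₂ ≤ dist x y.2 → b (t, x) = 0 := by
    intro t x hx
    refine hb0 _ ?_
    have : dist x y.2 ≤ dist ((t, x) : Am n m) (amb y) := le_max_right _ _
    linarith
  refine ⟨fun w => w.2 + b w • (ψ w - w.2), ‖y.2‖ + min ε₁ ε₂, ⟨?_, fun x => ?_, fun t x hx => ?_⟩,
    ?_⟩
  · refine contDiff_snd.add (contDiff_iff_contDiffAt.2 fun w => ?_)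
    rcases lt_or_ge (dist w (amb y)) (min ε₁ ε₂) with hw | hw
    · exact b.contDiff.contDiffAt.smul
        ((H1 (hw.trans_le (min_le_left _ _))).sub contDiff_snd.contDiffAt)
    · have ho : IsOpen {w : Am n m | min ε₁ ε₂ / 2 < dist w (amb y)} :=
        isOpen_lt continuous_const (continuous_id.dist continuous_const)
      refine (contDiffAt_const (c := (0 : V n))).congr_of_eventuallyEq ?_
      filter_upwards [ho.mem_nhds (show min ε₁ ε₂ / 2 < dist w (amb y) by linarith)] with z hz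
      rw [hb0 z (le_of_lt hz), zero_smul]
  · rcases lt_or_ge (dist x y.2) (min ε₁ ε₂) with hx | hx
    · simp [H2 (hx.trans_le (min_le_right _ _))]
    · simp [hb2 _ x hx]
  · have : min ε₁ ε₂ ≤ dist x y.2 := by
      rw [dist_eq_norm]
      linarith [norm_sub_norm_le x y.2]
    simp [hb2 t x this]
  · rw [hF.self_of_nhds hy, ← h4.self_of_nhds]
    refine ker_congr ?_
    have h6 : ∀ᶠ w in 𝓝 (amb y), b w = 1 := b.eventuallyEq_one
    filter_upwards [h2, (continuous_amb.tendsto y).eventually h6] with z e1 e2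
    simp [e1, e2]

end

end Pool.Agent.P.MP_878f14_gt.HT.D
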