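import Pool.Agent.P.MP_878f14_gt.HT.D.Rep0

/-! Near a point of the simplex a foliation is defined by one global map. -/

namespace Pool.Agent.P.MP_878f14_gt.HT.D

open Filter Topology Function
open scoped ContDiff

noncomputable section

variable {n m p : ℕ} {Z : Set (V n)} {F : Raw n m} {M M' : ℝ}

theorem rep1_agree (h : Lc Z F) {σ' : Y n m → V n} {y : Y n m} (hy : y.2 ∈ Z)
    (e : F y = ker σ' y) : ∀ᶠ y' in 𝓝 y, y'.2 ∈ Z → F y' = ker σ' y' := by
  obtain ⟨σ, -, he⟩ := h y hy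
  have e' : ker σ y = ker σ' y := (he.self_of_nhds hy).symm.trans e
  filter_upwards [he, ker_eventually e'] with y' h1 h2 hz
  rw [h1 hz, h2]

theorem rep1_snd (t₀ : Fin m → ℝ) (M : ℝ) : Fam (Prod.snd : Am n m → V n) t₀ M :=
  ⟨contDiff_snd, fun _ => rfl, fun _ _ _ => rfl⟩

theorem rep1_bump {S T : Set (V n)} (hS : IsClosed S) (hT : IsClosed T) (hST : Disjoint S T) :
    ∃ ρ : V n → ℝ, ContDiff ℝ ∞ ρ ∧ (∀ x ∈ S, ∀ᶠ x' in 𝓝 x, ρ x' = 1) ∧
      ∀ x ∈ T, ∀ᶠ x' in 𝓝 x, ρ x' = 0 := by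
  obtain ⟨f, h0, h1, -⟩ := exists_contMDiffMap_zero_one_nhds_of_isClosed (n := ⊤)
    (modelWithCornersSelf ℝ (V n)) hT hS hST.symm
  exact ⟨f, f.contMDiff.contDiff, fun x hx => h1.filter_mono (nhds_le_nhdsSet hx),
    fun x hx => h0.filter_mono (nhds_le_nhdsSet hx)⟩

/-- Gluing step: `ρ φ + (1 - ρ) φ'` with a smooth `ρ` on `V n` that is `1` near `S` and `0` near
`T ∪ {z ∈ Z | F ≠ ker φ}` (closed by `Lc.agree`-like openness: `ker_eventually` and the chart of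
`F`); where both are good `norm_unique` applies. -/
theorem rep_glue (hZ : IsClosed Z) (h : Lc Z F) {t₀ : Δ m} {φ φ' : Am n m → V n}
    (hφ : Fam φ t₀.1 M) (hφ' : Fam φ' t₀.1 M') {S T : Set (V n)} (hS : IsClosed S)
    (hT : IsClosed T) (hST : Disjoint S T)
    (hg : ∀ z ∈ Z, z ∈ S → F (t₀, z) = ker (φ ∘ amb) (t₀, z)) :
    ∃ ψ, Fam ψ t₀.1 (max M M') ∧ (∀ t, ∀ x ∈ T, ψ (t, x) = φ' (t, x)) ∧
      ∀ z ∈ Z, (z ∈ S ∨ F (t₀, z) = ker (φ' ∘ amb) (t₀, z)) →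
        F (t₀, z) = ker (ψ ∘ amb) (t₀, z) := by
  have hB : IsClosed {z | z ∈ Z ∧ F (t₀, z) ≠ ker (φ ∘ amb) (t₀, z)} := by
    rw [← isOpen_compl_iff, isOpen_iff_mem_nhds]
    intro z hz
    by_cases hzZ : z ∈ Z
    · have e : F (t₀, z) = ker (φ ∘ amb) (t₀, z) := by
        by_contra e
        exact hz ⟨hzZ, e⟩
      filter_upwards [(cht_tendsto_fibre (t₀, z)).eventually (rep1_agree h (y := (t₀, z)) hzZ e)]
        with x hx hx'
      exact hx'.2 (hx hx'.1)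
    · filter_upwards [hZ.isOpen_compl.mem_nhds hzZ] with x hx hx'
      exact hx hx'.1
  obtain ⟨ρ, hρ, h1, h0⟩ := rep1_bump hS (hT.union hB)
    (Set.disjoint_union_right.2 ⟨hST, Set.disjoint_left.2 fun z hz hz' => hz'.2 (hg z hz'.1 hz)⟩)
  have hs : ∀ z : V n, Tendsto (fun y : Y n m => y.2) (𝓝 (t₀, z)) (𝓝 z) := fun z =>
    continuous_snd.tendsto (t₀, z)
  refine ⟨fun w => φ' w + ρ w.2 • (φ w - φ' w), ⟨?_, fun x => ?_, fun t x hx => ?_⟩,
    fun t x hx => ?_, fun z hz hor' => ?_⟩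
  · exact hφ'.sm.add ((hρ.comp contDiff_snd).smul (hφ.sm.sub hφ'.sm))
  · simp [hφ.id, hφ'.id]
  · simp [hφ.far t x ((le_max_left _ _).trans hx), hφ'.far t x ((le_max_right _ _).trans hx)]
  · simp [(h0 x (Or.inl hx)).self_of_nhds]
  · by_cases hzS : z ∈ S
    · rw [hg z hz hzS]
      refine ker_congr ?_
      filter_upwards [(hs z).eventually (h1 z hzS)] with y hy
      have hy' : ρ (amb y).2 = 1 := hy
      simp [hy']
    · have e' := hor'.resolve_left hzS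
      rw [e']
      refine ker_congr ?_
      by_cases e : F (t₀, z) = ker (φ ∘ amb) (t₀, z)
      · have hu := norm_unique (y := (t₀, z)) (τ := φ ∘ amb) (τ' := φ' ∘ amb)
          (hφ.sm.continuous.comp continuous_amb).continuousAt
          (.of_forall fun x => hφ.id x) (.of_forall fun x => hφ'.id x) (e.symm.trans e')
        filter_upwards [hu] with y hy
        have hy' : φ (amb y) = φ' (amb y) := hy
        simp [hy']
      · filter_upwards [(hs z).eventually (h0 z (Or.inr ⟨hz, e⟩))] with y hy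
        have hy' : ρ (amb y).2 = 0 := hy
        simp [hy']

/-- `IsCompact.induction_on` for `Z ∩ closedBall 0 M` (sets contained in a closed good set), then
glue with `Prod.snd` and `T = {x | M' ≤ ‖x‖}`, then spread to `t` near `t₀` by compactness. -/
theorem rep (hZ : IsClosed Z) (h : Lc Z F) (hM : Hb Z M F) (hM' : M < M') (t₀ : Δ m) :
    ∃ φ, Fam φ t₀.1 M' ∧ ∀ᶠ t in 𝓝 t₀, ∀ z ∈ Z, F (t, z) = ker (φ ∘ amb) (t, z) := by
  have hK : ∀ R : ℝ, IsCompact (Z ∩ Metric.closedBall (0 : V n) R) := fun R =>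
    (isCompact_closedBall 0 R).inter_left hZ
  obtain ⟨S, -, hS, φ, N, hφ, hg⟩ : ∃ S, IsClosed S ∧ Z ∩ Metric.closedBall (0 : V n) M ⊆ S ∧
      ∃ (φ : Am n m → V n) (N : ℝ), Fam φ t₀.1 N ∧
        ∀ z ∈ Z, z ∈ S → F (t₀, z) = ker (φ ∘ amb) (t₀, z) := by
    refine (hK M).induction_on (p := fun s => ∃ S, IsClosed S ∧ s ⊆ S ∧
      ∃ (φ : Am n m → V n) (N : ℝ), Fam φ t₀.1 N ∧
        ∀ z ∈ Z, z ∈ S → F (t₀, z) = ker (φ ∘ amb) (t₀, z)) ?_ ?_ ?_ ?_
    · exact ⟨∅, isClosed_empty, subset_rfl, Prod.snd, 0, rep1_snd _ _, fun _ _ h => h.elim⟩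
    · rintro s t hst ⟨S, h1, h2, h3⟩
      exact ⟨S, h1, hst.trans h2, h3⟩
    · rintro s t ⟨S, h1, h2, φ, N, h3, h4⟩ ⟨S', h1', h2', φ', N', h3', h4'⟩
      obtain ⟨ψ, k1, -, k2⟩ := rep_glue hZ h h3 h3' h1 isClosed_empty (Set.disjoint_empty _) h4
      exact ⟨S ∪ S', h1.union h1', Set.union_subset_union h2 h2', ψ, _, k1,
        fun z hz hz' => k2 z hz (hz'.imp id (h4' z hz))⟩
    · intro z hz
      obtain ⟨φ, N, h1, h2⟩ := rep_loc h (y := (t₀, z)) hz.1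
      have h3 := (cht_tendsto_fibre (t₀, z)).eventually (rep1_agree h (y := (t₀, z)) hz.1 h2)
      obtain ⟨S, h4, h5, h6⟩ := exists_mem_nhds_isClosed_subset h3
      exact ⟨S, mem_nhdsWithin_of_mem_nhds h4, S, h5, subset_rfl, φ, N, h1,
        fun x hx hx' => h6 hx' hx⟩
  obtain ⟨ψ, k1, k2, k3⟩ := rep_glue hZ h hφ (rep1_snd t₀.1 M') (S := Metric.closedBall 0 M)
    (T := {x | M' ≤ ‖x‖}) Metric.isClosed_closedBall (isClosed_le continuous_const continuous_norm)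
    (Set.disjoint_left.2 fun x hx hx' => by
      have a : ‖x‖ ≤ M := by simpa using hx
      have b : M' ≤ ‖x‖ := hx'
      linarith) fun z hz hz' => hg z hz (hS ⟨hz, hz'⟩)
  have k4 : ∀ z ∈ Z, F (t₀, z) = ker (ψ ∘ amb) (t₀, z) := fun z hz => by
    refine k3 z hz ?_
    rcases le_total ‖z‖ M with a | a
    · exact Or.inl (by simpa using a)
    · exact Or.inr (hM (t₀, z) hz a)
  refine ⟨ψ, ⟨k1.sm, k1.id, fun t x hx => k2 t x hx⟩, ?_⟩
  have k5 := (hK M').eventually_forall_of_forall_eventually (x₀ := t₀)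
    (P := fun t z => z ∈ Z → F (t, z) = ker (ψ ∘ amb) (t, z))
    fun z hz => rep1_agree h (y := (t₀, z)) hz.1 (k4 z hz.1)
  filter_upwards [k5] with t ht z hz
  rcases le_or_gt ‖z‖ M' with a | a
  · exact ht z ⟨hz, by simpa using a⟩ hz
  · rw [hM (t, z) hz (by show M ≤ ‖z‖; linarith), hor]
    refine ker_congr ?_
    filter_upwards [((continuous_norm.comp continuous_snd).tendsto ((t, z) : Y n m)).eventually
      (lt_mem_nhds a)] with y hy
    exact (k2 y.1.1 y.2 (le_of_lt hy)).symm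

end

end Pool.Agent.P.MP_878f14_gt.HT.D
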