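import Mathlib

/-! Augmented symmetric simplicial sets (presheaves on the finite ordinals `Fin n`, `n ≥ 0`, with
all maps), their chains, cones and the two recursions on universal chains. -/

namespace Pool.Agent.P.MP_878f14_gt.HT.D

open FreeAbelianGroup

noncomputable section

abbrev FA := FreeAbelianGroup

/-- `X n` is the set of simplices with `n` vertices -/
structure SS where
  X : ℕ → Type
  pull : ∀ {m p : ℕ}, (Fin m → Fin p) → X p → X m
  pull_comp : ∀ {k m p : ℕ} (f : Fin k → Fin m) (g : Fin m → Fin p) (x : X p),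
    pull f (pull g x) = pull (g ∘ f) x
  pull_id : ∀ {p : ℕ} (x : X p), pull id x = x

theorem hom_eq {α β : Type} [AddCommGroup β] (f g : FA α →+ β) (h : ∀ a, f (of a) = g (of a))
    (z : FA α) : f z = g z := by
  have : f = g := FreeAbelianGroup.lift_ext _ _ h
  rw [this]

theorem sum_sign_zero {M : Type} [AddCommGroup M] {n : ℕ} (f : Fin (n + 2) → Fin (n + 1) → M)
    (h : ∀ i j, f (i.succAbove j) (j.predAbove i) = f i j) :
    ∑ i : Fin (n + 2), (-1 : ℤ) ^ i.1 • ∑ j : Fin (n + 1), (-1 : ℤ) ^ j.1 • f i j = 0 := by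
  simp only [Finset.smul_sum, smul_smul, ← pow_add]
  rw [← Finset.sum_product']
  refine Finset.sum_involution (fun a _ => (a.1.succAbove a.2, a.2.predAbove a.1)) ?_ ?_ ?_ ?_
  · intro a _
    rw [h, Fin.neg_one_pow_succAbove_add_predAbove, neg_smul, add_neg_cancel]
  · intro a _ _ h'
    exact Fin.succAbove_ne _ _ (congrArg Prod.fst h')
  · intro a _
    simp
  · intro a _
    simp [Fin.succAbove_succAbove_predAbove, Fin.predAbove_predAbove_succAbove]

theorem sa_sa {n : ℕ} (i : Fin (n + 2)) (j : Fin (n + 1)) :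
    (i.succAbove j).succAbove ∘ (j.predAbove i).succAbove = i.succAbove ∘ j.succAbove :=
  funext fun k => Fin.succAbove_succAbove_succAbove_predAbove i j k

namespace SS

variable (S T : SS) {n : ℕ}

/-- the boundary -/
def d : FA (S.X (n + 1)) →+ FA (S.X n) :=
  lift fun x => ∑ j : Fin (n + 1), (-1 : ℤ) ^ j.1 • of (S.pull j.succAbove x)

theorem d_of (x : S.X (n + 1)) :
    S.d (of x) = ∑ j : Fin (n + 1), (-1 : ℤ) ^ j.1 • of (S.pull j.succAbove x) := lift_apply_of _ _

theorem d_d (z : FA (S.X (n + 2))) : S.d (S.d z) = 0 := by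
  refine hom_eq (S.d.comp S.d) 0 (fun x => ?_) z
  simp only [AddMonoidHom.comp_apply, d_of, map_sum, map_zsmul, AddMonoidHom.zero_apply,
    S.pull_comp]
  exact sum_sign_zero (fun i j => of (S.pull (i.succAbove ∘ j.succAbove) x))
    fun i j => by rw [sa_sa]

/-- families of simplices -/
abbrev Pr : Type := ∀ n, S.X n → Prop

/-- closed under pull-back -/
def Cl (P : S.Pr) : Prop := ∀ ⦃m p : ℕ⦄ (f : Fin m → Fin p) (x : S.X p), P p x → P m (S.pull f x)

/-- natural maps -/
def Nat (φ : ∀ n, S.X n → T.X n) : Prop :=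
  ∀ ⦃m p : ℕ⦄ (f : Fin m → Fin p) (x : S.X p), T.pull f (φ p x) = φ m (S.pull f x)

theorem map_d {S T : SS} {φ : ∀ n, S.X n → T.X n} (h : S.Nat T φ) (z : FA (S.X (n + 1))) :
    T.d (map (φ _) z) = map (φ _) (S.d z) := by
  refine hom_eq (T.d.comp (map (φ _))) ((map (φ _)).comp S.d) (fun x => ?_) z
  simp only [AddMonoidHom.comp_apply, map_of_apply, d_of, map_sum, map_zsmul, h _ x]

end SS

/-- chains carried by a set of generators -/
def Ch {α : Type} (P : α → Prop) : AddSubgroup (FA α) :=
  AddSubgroup.closure {z | ∃ x, P x ∧ z = of x}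

theorem of_mem {α : Type} {P : α → Prop} {x : α} (h : P x) : of x ∈ Ch P :=
  AddSubgroup.subset_closure ⟨x, h, rfl⟩

theorem Ch_le {α : Type} {P : α → Prop} {W : AddSubgroup (FA α)} (h : ∀ x, P x → of x ∈ W) :
    Ch P ≤ W := (AddSubgroup.closure_le _).2 (by rintro _ ⟨x, hx, rfl⟩; exact h x hx)

theorem hom_mem {α β : Type} [AddCommGroup β] {P : α → Prop} (f : FA α →+ β) {W : AddSubgroup β}
    (h : ∀ x, P x → f (of x) ∈ W) {z : FA α} (hz : z ∈ Ch P) : f z ∈ W :=
  (Ch_le (W := W.comap f) h) hz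

theorem hom_eq_on {α β : Type} [AddCommGroup β] {P : α → Prop} (f g : FA α →+ β)
    (h : ∀ x, P x → f (of x) = g (of x)) {z : FA α} (hz : z ∈ Ch P) : f z = g z := by
  have := hom_mem (f - g) (W := ⊥) (fun x hx => by simp [h x hx]) hz
  simpa [sub_eq_zero] using this

theorem Ch_mono {α : Type} {P Q : α → Prop} (h : ∀ x, P x → Q x) : Ch P ≤ Ch Q :=
  Ch_le fun x hx => of_mem (h x hx)

theorem mem_Ch_true {α : Type} (z : FA α) : z ∈ Ch fun _ => True := by
  induction z using FreeAbelianGroup.induction_on with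
  | zero => exact zero_mem _
  | of x => exact of_mem trivial
  | neg x _ => exact neg_mem (of_mem trivial)
  | add x y hx hy => exact add_mem hx hy

theorem map_mem {α β : Type} {P : α → Prop} {Q : β → Prop} (f : α → β) (h : ∀ x, P x → Q (f x))
    {z : FA α} (hz : z ∈ Ch P) : map f z ∈ Ch Q :=
  hom_mem (map f) (fun x hx => of_mem (h x hx)) hz

theorem map_map {α β γ : Type} (f : α → β) (g : β → γ) (z : FA α) :
    map g (map f z) = map (fun x => g (f x)) z :=
  hom_eq ((map g).comp (map f)) (map fun x => g (f x)) (fun _ => rfl) z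

theorem map_eq_on {α β : Type} {P : α → Prop} {f g : α → β} (h : ∀ x, P x → f x = g x)
    {z : FA α} (hz : z ∈ Ch P) : map f z = map g z :=
  hom_eq_on _ _ (fun x hx => by simp [h x hx]) hz

theorem map_self_on {α : Type} {P : α → Prop} {f : α → α} (h : ∀ x, P x → f x = x)
    {z : FA α} (hz : z ∈ Ch P) : map f z = z :=
  hom_eq_on _ (AddMonoidHom.id _) (fun x hx => by simp [h x hx]) hz

/-- a chain carried by an image is the image of a chain -/
theorem exists_map_eq {α β : Type} {P : α → Prop} {Q : β → Prop} (f : α → β)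
    (h : ∀ y, Q y → ∃ x, P x ∧ f x = y) {z : FA β} (hz : z ∈ Ch Q) : ∃ w ∈ Ch P, map f w = z := by
  have : Ch Q ≤ (Ch P).map (map f) := Ch_le fun y hy => by
    obtain ⟨x, hx, rfl⟩ := h y hy
    exact ⟨of x, of_mem hx, rfl⟩
  exact this hz

/-- a chain is eventually carried by a family of conditions that hold eventually -/
theorem ev_mem {α β ι : Type} [AddCommGroup β] {l : Filter ι} {P : α → Prop}
    (f : ι → FA α →+ β) (W : ι → AddSubgroup β) (h : ∀ x, P x → ∀ᶠ i in l, f i (of x) ∈ W i)
    {z : FA α} (hz : z ∈ Ch P) : ∀ᶠ i in l, f i z ∈ W i := by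
  induction hz using AddSubgroup.closure_induction with
  | mem z hz => obtain ⟨x, hx, rfl⟩ := hz; exact h x hx
  | zero => exact .of_forall fun i => by simp
  | add a b _ _ ha hb =>
    filter_upwards [ha, hb] with i h1 h2
    rw [map_add]; exact add_mem h1 h2
  | neg a _ ha =>
    filter_upwards [ha] with i h1
    rw [map_neg]; exact neg_mem h1

/-- a chain in the kernel of `map π` is killed by everything that is eventually constant on the
fibres of `π` -/
theorem ev_zero {α β γ ι : Type} [AddCommGroup β] {l : Filter ι} {P : α → Prop} (π : α → γ)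
    (f : ι → FA α →+ β)
    (h : ∀ x x', P x → P x' → π x = π x' → ∀ᶠ i in l, f i (of x) = f i (of x'))
    {z : FA α} (hz : z ∈ Ch P) (h0 : map π z = 0) : ∀ᶠ i in l, f i z = 0 := by
  classical
  let s : γ → FA α := fun c => if hc : ∃ x, P x ∧ π x = c then of hc.choose else 0
  have h1 := ev_mem (l := l) (fun i => f i - ((f i).comp (lift s)).comp (map π)) (fun _ => ⊥)
    (fun x hx => by
      have hc : ∃ x', P x' ∧ π x' = π x := ⟨x, hx, rfl⟩
      filter_upwards [h x hc.choose hx hc.choose_spec.1 hc.choose_spec.2.symm] with i hi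
      simp [s, dif_pos hc, hi]) hz
  filter_upwards [h1] with i hi
  simpa [h0] using hi

theorem zero_of_fibres {α β γ : Type} [AddCommGroup β] {P : α → Prop} (π : α → γ) (f : FA α →+ β)
    (h : ∀ x x', P x → P x' → π x = π x' → f (of x) = f (of x'))
    {z : FA α} (hz : z ∈ Ch P) (h0 : map π z = 0) : f z = 0 :=
  (ev_zero (l := (⊤ : Filter Unit)) π (fun _ => f)
    (fun x x' a b c => .of_forall fun _ => h x x' a b c) hz h0).exists.elim fun _ h => h

theorem map_inj {α β : Type} {f : α → β} (hf : Function.Injective f) {z : FA α}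
    (h : map f z = 0) : z = 0 :=
  zero_of_fibres f (AddMonoidHom.id _) (fun _ _ _ _ e => by rw [hf e]) (mem_Ch_true z) h

theorem SS.d_mem {S : SS} {P : S.Pr} (h : S.Cl P) {n : ℕ} {z : FA (S.X (n + 1))}
    (hz : z ∈ Ch (P _)) : S.d z ∈ Ch (P n) :=
  hom_mem S.d (fun x hx => by
    rw [SS.d_of]
    exact sum_mem fun j _ => zsmul_mem (of_mem (h _ x hx)) _) hz

/-- sum of the coefficients -/
def eps {α : Type} : FA α →+ ℤ := lift fun _ => 1

@[simp] theorem eps_of {α : Type} (x : α) : eps (of x) = 1 := lift_apply_of _ _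

theorem map_const {α β : Type} (b : β) (z : FA α) : map (fun _ => b) z = eps z • of b :=
  hom_eq (map fun _ => b) ((zmultiplesHom _ (of b)).comp eps) (fun x => by simp) z

/-- tuples of elements of a type -/
@[reducible] def Fn (A : Type) : SS where
  X n := Fin n → A
  pull f θ := θ ∘ f
  pull_comp _ _ _ := rfl
  pull_id _ := rfl

/-- the boundary of tuples -/
def dF {A : Type} {n : ℕ} : FA (Fin (n + 1) → A) →+ FA (Fin n → A) := (Fn A).d

theorem dF_of {A : Type} {n : ℕ} (θ : Fin (n + 1) → A) :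
    dF (of θ) = ∑ j : Fin (n + 1), (-1 : ℤ) ^ j.1 • of (θ ∘ j.succAbove) := SS.d_of (Fn A) θ

/-- the product -/
@[reducible] def SS.prod (S T : SS) : SS where
  X n := S.X n × T.X n
  pull f x := (S.pull f x.1, T.pull f x.2)
  pull_comp f g x := by rw [S.pull_comp, T.pull_comp]
  pull_id x := by rw [S.pull_id, T.pull_id]

/-- the cone -/
def cone {A : Type} (a : A) {n : ℕ} : FA (Fin n → A) →+ FA (Fin (n + 1) → A) :=
  map fun θ => Fin.cons a θ

theorem d_cone {A : Type} (a : A) {n : ℕ} (z : FA (Fin (n + 1) → A)) :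
    dF (cone a z) = z - cone a (dF z) := by
  refine hom_eq (dF.comp (cone a)) (AddMonoidHom.id _ - (cone a).comp dF) (fun θ => ?_) z
  simp only [cone, AddMonoidHom.comp_apply, map_of_apply, dF_of, AddMonoidHom.sub_apply,
    AddMonoidHom.id_apply, map_sum, map_zsmul]
  rw [Fin.sum_univ_succ, sub_eq_add_neg, ← Finset.sum_neg_distrib]
  refine congrArg₂ (· + ·) ?_ (Finset.sum_congr rfl fun j _ => ?_)
  · rw [Fin.val_zero, pow_zero, one_smul]
    rfl
  · rw [Fin.val_succ, pow_succ, mul_neg_one, neg_smul]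
    congr 3
    funext k
    refine Fin.cases ?_ (fun k => ?_) k <;> simp

theorem d_cone_zero {A : Type} (a : A) (z : FA (Fin 0 → A)) : dF (cone a z) = z := by
  refine hom_eq (dF.comp (cone a)) (AddMonoidHom.id _) (fun θ => ?_) z
  simp only [cone, AddMonoidHom.comp_apply, map_of_apply, dF_of, AddMonoidHom.id_apply,
    Fin.sum_univ_succ, Finset.univ_eq_empty, Finset.sum_empty, add_zero, Fin.val_zero, pow_zero,
    one_smul]
  exact congrArg of (Subsingleton.elim _ _)

end

end Pool.Agent.P.MP_878f14_gt.HT.D
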