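import Pool.Agent.P.MP_878f14_gt.HT.D.Raw

/-! Smooth maps on the bundle over a simplex, and charts. -/

namespace Pool.Agent.P.MP_878f14_gt.HT.D

open Filter Topology Function
open scoped ContDiff

noncomputable section

variable {n k m p : ℕ} {W W' : Type} [NormedAddCommGroup W] [NormedSpace ℝ W]
  [NormedAddCommGroup W'] [NormedSpace ℝ W']

/-- the ambient space -/
abbrev Am (n m : ℕ) : Type := (Fin m → ℝ) × V n

def amb (y : Y n m) : Am n m := (y.1.1, y.2)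

theorem continuous_amb : Continuous (amb : Y n m → Am n m) :=
  continuous_subtype_val.prodMap continuous_id

/-- smooth near `y` -/
def SmAt (σ : Y n m → W) (y : Y n m) : Prop :=
  ∃ φ : Am n m → W, (∀ᶠ w in 𝓝 (amb y), ContDiffAt ℝ ∞ φ w) ∧ ∀ᶠ y' in 𝓝 y, σ y' = φ (amb y')

/-- restriction of a globally smooth map -/
def Gl (σ : Y n m → W) : Prop := ∃ φ : Am n m → W, ContDiff ℝ ∞ φ ∧ ∀ y, σ y = φ (amb y)

/-- derivative along the fibre -/
def fd (σ : Y n m → W) (y : Y n m) : V n →L[ℝ] W := fderiv ℝ (fun x => σ (y.1, x)) y.2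

/-- a chart at `y` -/
def Cht (σ : Y n m → V n) (y : Y n m) : Prop := SmAt σ y ∧ Injective (fd σ y)

variable {σ σ' : Y n m → W} {y : Y n m}

theorem Gl.smAt (h : Gl σ) (y : Y n m) : SmAt σ y := by
  obtain ⟨φ, hφ, e⟩ := h
  exact ⟨φ, Eventually.of_forall fun _ => hφ.contDiffAt, Eventually.of_forall e⟩

theorem gl_amb {φ : Am n m → W} (h : ContDiff ℝ ∞ φ) : Gl (φ ∘ amb) := ⟨φ, h, fun _ => rfl⟩

theorem Gl.continuous (h : Gl σ) : Continuous σ := by
  obtain ⟨φ, hφ, e⟩ := h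
  rw [show σ = φ ∘ amb from funext e]
  exact hφ.continuous.comp continuous_amb

/-- the ambient linear map of `bm v` -/
def smL (n : ℕ) (v : Fin m → Δ p) : Am n m →L[ℝ] Am n p :=
  (lin v).prodMap (ContinuousLinearMap.id ℝ (V n))

theorem smL_amb (v : Fin m → Δ p) (y : Y n m) : smL n v (amb y) = amb (bm v y) := rfl

theorem Gl.bm {σ : Y n p → W} (h : Gl σ) (v : Fin m → Δ p) : Gl (σ ∘ bm v) := by
  obtain ⟨φ, hφ, e⟩ := h
  exact ⟨φ ∘ smL n v, hφ.comp (smL n v).contDiff, fun y => e _⟩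

theorem gl_snd : Gl (Prod.snd : Y n m → V n) := ⟨Prod.snd, contDiff_snd, fun _ => rfl⟩

theorem gl_const (a : W) : Gl fun _ : Y n m => a := ⟨fun _ => a, contDiff_const, fun _ => rfl⟩

theorem gl_sk (κ : Fin m → Bool) : Gl fun y : Y n m => sk κ y.1.1 := by
  refine ⟨fun w => sk κ w.1, ?_, fun _ => rfl⟩
  unfold sk
  exact ContDiff.sum fun i _ =>
    ((contDiff_apply ℝ ℝ i).comp contDiff_fst).mul contDiff_const

theorem gl_coord (i : Fin m) : Gl fun y : Y n m => y.1.1 i :=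
  ⟨fun w => w.1 i, (contDiff_apply ℝ ℝ i).comp contDiff_fst, fun _ => rfl⟩

theorem Gl.comp_left {g : W → W'} (hg : ContDiff ℝ ∞ g) (h : Gl σ) : Gl fun y => g (σ y) := by
  obtain ⟨φ, hφ, e⟩ := h
  exact ⟨g ∘ φ, hg.comp hφ, fun y => congrArg g (e y)⟩

theorem gl_fibre {g : V n → W} (hg : ContDiff ℝ ∞ g) : Gl fun y : Y n m => g y.2 :=
  gl_snd.comp_left hg

theorem Gl.add (h : Gl σ) (h' : Gl σ') : Gl fun y => σ y + σ' y := by
  obtain ⟨φ, hφ, e⟩ := h
  obtain ⟨ψ, hψ, e'⟩ := h'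
  exact ⟨fun w => φ w + ψ w, hφ.add hψ, fun y => by simp only [e y, e' y]⟩

theorem Gl.sub (h : Gl σ) (h' : Gl σ') : Gl fun y => σ y - σ' y := by
  obtain ⟨φ, hφ, e⟩ := h
  obtain ⟨ψ, hψ, e'⟩ := h'
  exact ⟨fun w => φ w - ψ w, hφ.sub hψ, fun y => by simp only [e y, e' y]⟩

theorem Gl.smul {a : Y n m → ℝ} (ha : Gl a) (h : Gl σ) : Gl fun y => a y • σ y := by
  obtain ⟨φ, hφ, e⟩ := ha
  obtain ⟨ψ, hψ, e'⟩ := h
  exact ⟨fun w => φ w • ψ w, hφ.smul hψ, fun y => by simp only [e y, e' y]⟩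

theorem gl_sum {ι : Type} (s : Finset ι) {f : ι → Y n m → W} (h : ∀ i ∈ s, Gl (f i)) :
    Gl fun y => ∑ i ∈ s, f i y := by
  classical
  induction s using Finset.induction_on with
  | empty => simpa using gl_const (0 : W)
  | insert a s ha ih =>
    simp only [Finset.sum_insert ha]
    exact (h a (Finset.mem_insert_self _ _)).add
      (ih fun i hi => h i (Finset.mem_insert_of_mem hi))

/-- the restriction to a fibre of a globally smooth map -/
theorem Gl.contDiff_fibre (h : Gl σ) (t : Δ m) : ContDiff ℝ ∞ fun x => σ (t, x) := by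
  obtain ⟨φ, hφ, e⟩ := h
  rw [show (fun x => σ (t, x)) = fun x => φ (t.1, x) from funext fun x => e _]
  exact hφ.comp (contDiff_const.prodMk contDiff_id)

theorem Gl.at {σ : Y n p → W} (h : Gl σ) (t : Δ p) : Gl fun y : Y n m => σ (t, y.2) :=
  gl_fibre (h.contDiff_fibre t)

theorem SmAt.congr (h : SmAt σ y) (e : ∀ᶠ y' in 𝓝 y, σ' y' = σ y') : SmAt σ' y := by
  obtain ⟨φ, hφ, e'⟩ := h
  exact ⟨φ, hφ, (e.and e').mono fun _ hy => hy.1.trans hy.2⟩

theorem SmAt.continuousAt (h : SmAt σ y) : ContinuousAt σ y := by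
  obtain ⟨φ, hφ, e⟩ := h
  have h1 : ContinuousAt (fun y' => φ (amb y')) y :=
    ContinuousAt.comp (g := φ) hφ.self_of_nhds.continuousAt continuous_amb.continuousAt
  exact h1.congr (e.mono fun _ hy => hy.symm)

theorem sm_fibre_tendsto (y : Y n m) : Tendsto (fun x : V n => (y.1, x)) (𝓝 y.2) (𝓝 y) :=
  (continuous_const.prodMk continuous_id).tendsto' y.2 y rfl

theorem SmAt.contDiffAt_fibre (h : SmAt σ y) : ContDiffAt ℝ ∞ (fun x => σ (y.1, x)) y.2 := by
  obtain ⟨φ, hφ, e⟩ := h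
  have h1 : ContDiffAt ℝ ∞ (fun x : V n => φ (y.1.1, x)) y.2 :=
    ContDiffAt.comp (g := φ) (f := fun x : V n => ((y.1.1, x) : Am n m)) y.2 hφ.self_of_nhds
      (contDiffAt_const.prodMk contDiffAt_id)
  exact h1.congr_of_eventuallyEq ((sm_fibre_tendsto y).eventually e)

theorem SmAt.hasFDerivAt (h : SmAt σ y) : HasFDerivAt (fun x => σ (y.1, x)) (fd σ y) y.2 :=
  (h.contDiffAt_fibre.differentiableAt (by simp)).hasFDerivAt

theorem SmAt.bm {σ : Y n p → W} {v : Fin m → Δ p} (h : SmAt σ (bm v y)) :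
    SmAt (σ ∘ bm v) y := by
  obtain ⟨φ, hφ, e⟩ := h
  refine ⟨φ ∘ smL n v, ?_, ((D.bm v).continuous.tendsto y).eventually e⟩
  have h1 : Tendsto (smL n v) (𝓝 (amb y)) (𝓝 (amb (D.bm v y))) :=
    (smL n v).continuous.tendsto' _ _ (smL_amb v y)
  exact (h1.eventually hφ).mono fun w hw => hw.comp w (smL n v).contDiff.contDiffAt

theorem SmAt.fib {c : Y n m → V n} (h : SmAt σ (y.1, c y)) (hc : SmAt c y) :
    SmAt (fun y => σ (y.1, c y)) y := by
  have hcc := hc.continuousAt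
  obtain ⟨φ, hφ, e⟩ := h
  obtain ⟨ψ, hψ, e'⟩ := hc
  refine ⟨fun w => φ (w.1, ψ w), ?_, ?_⟩
  · have h1 : Tendsto (fun w : Am n m => ((w.1, ψ w) : Am n m)) (𝓝 (amb y))
        (𝓝 (amb (y.1, c y))) := by
      have h2 : ContinuousAt (fun w : Am n m => ((w.1, ψ w) : Am n m)) (amb y) :=
        continuousAt_fst.prodMk hψ.self_of_nhds.continuousAt
      have h3 : amb (y.1, c y) = (((amb y).1, ψ (amb y)) : Am n m) := by
        rw [← e'.self_of_nhds]; rfl
      rw [h3]; exact h2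
    filter_upwards [h1.eventually hφ, hψ] with w hw hw'
    exact ContDiffAt.comp (g := φ) (f := fun w : Am n m => ((w.1, ψ w) : Am n m)) w hw
      (contDiffAt_fst.prodMk hw')
  · have h1 : Tendsto (fun y' : Y n m => ((y'.1, c y') : Y n m)) (𝓝 y) (𝓝 (y.1, c y)) :=
      continuousAt_fst.prodMk hcc
    filter_upwards [h1.eventually e, e'] with y' hy hy'
    rw [hy, ← hy']; rfl

theorem fd_bm (σ : Y n p → W) (v : Fin m → Δ p) (y : Y n m) :
    fd (σ ∘ bm v) y = fd σ (bm v y) := rfl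

theorem fd_congr (e : ∀ᶠ y' in 𝓝 y, σ' y' = σ y') : fd σ' y = fd σ y :=
  Filter.EventuallyEq.fderiv_eq ((sm_fibre_tendsto y).eventually e)

theorem fd_snd (y : Y n m) : fd Prod.snd y = ContinuousLinearMap.id ℝ (V n) := fderiv_id

end

end Pool.Agent.P.MP_878f14_gt.HT.D
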