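import Pool.Agent.P.MP_878f14_gt.HT.D.Leaf2
import Pool.Agent.P.MP_878f14_gt.HT.LC

/-! Affine families and straightening. -/

namespace Pool.Agent.P.MP_878f14_gt.HT.D

open Filter Topology Function Metric FreeAbelianGroup
open scoped ContDiff

noncomputable section

variable {n m p : ℕ}

/-- the affine family -/
def afs (g : Fin m → Gc n) : Y n m → V n := fun y => ∑ i, y.1.1 i • (g i : Pm n) y.2

/-- convex combinations of admissible families -/
theorem strt_conv {ι : Type} [Fintype ι] {b : ι → Δ m → ℝ} (hb : ∀ i, Gl fun y : Y n m => b i y.1)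
    (h0 : ∀ i t, 0 ≤ b i t) (h1 : ∀ t, ∑ i, b i t = 1) {σ : ι → Y n m → V n}
    (h : ∀ i, Adm (σ i)) : Adm fun y => ∑ i, b i y.1 • σ i y := by
  refine ⟨gl_sum _ fun i _ => (hb i).smul (h i).gl, fun y => ?_, ?_⟩
  · have e : fd (fun y => ∑ i, b i y.1 • σ i y) y = ∑ i, b i y.1 • fd (σ i) y :=
      (HasFDerivAt.fun_sum fun i _ =>
        ((h i).gl.smAt y).hasFDerivAt.fun_const_smul (b i y.1)).fderiv
    have e' : ∑ i, b i y.1 • fd (σ i) y - ContinuousLinearMap.id ℝ (V n) =
        ∑ i, b i y.1 • (fd (σ i) y - ContinuousLinearMap.id ℝ (V n)) := by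
      simp only [smul_sub, Finset.sum_sub_distrib, ← Finset.sum_smul, h1, one_smul]
    rw [e, e']
    refine (norm_sum_le_of_le _ (n := fun i => b i y.1 * (1 / 2)) fun i _ => ?_).trans
      (by rw [← Finset.sum_mul, h1, one_mul])
    rw [norm_smul, Real.norm_of_nonneg (h0 i _)]
    exact mul_le_mul_of_nonneg_left ((h i).c1 y) (h0 i _)
  · choose M hM using fun i => (h i).far
    obtain ⟨M', hM'⟩ := (Set.finite_range M).bddAbove
    refine ⟨M', fun y hy => ?_⟩
    rw [Finset.sum_congr rfl fun i _ => by rw [hM i y ((hM' ⟨i, rfl⟩).trans hy)],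
      ← Finset.sum_smul, h1, one_smul]

theorem strt_at {σ : Y n p → V n} (h : Adm σ) (t : Δ p) : Adm fun y : Y n m => σ (t, y.2) :=
  ⟨h.gl.at t, fun y => h.c1 (t, y.2), h.far.imp fun _ h y => h (t, y.2)⟩

theorem strt_one {g : Gc n} (h : s1 g ≤ 1 / 2) : Adm fun y : Y n m => (g : Pm n) y.2 := by
  refine ⟨gl_fibre g.2.1, fun y => ?_, g.2.2.2.imp fun _ h y => h y.2⟩
  refine le_trans (le_of_eq (congrArg norm ?_)) ((norm_fderiv_le_sn_one (Gc.sm g) y.2).trans h)
  exact (((g.2.1.differentiable (by simp) y.2).hasFDerivAt.sub (hasFDerivAt_id y.2)).fderiv).symm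

theorem adm_afs {g : Fin m → Gc n} (h : ∀ i, s1 (g i) ≤ 1 / 2) : Adm (afs g) :=
  strt_conv (b := fun i t => t.1 i) gl_coord (fun i t => t.2.1 i) (fun t => t.2.2)
    fun i => strt_one (h i)

theorem afs_bm (g : Fin p → Gc n) (f : Fin m → Fin p) :
    afs g ∘ bm (fun i => vx (f i)) = afs (g ∘ f) :=
  funext fun y => sum_aff_vx f y.1 fun l => (g l : Pm n) y.2

theorem lf_afs_mul (g : Fin m → Gc n) (k : Gc n) : lf (afs fun i => g i * k) = lf (afs g) :=
  lf_comp (afs g) k

/-- the straightening homotopy -/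
def strt (n : ℕ) : Hty (TA n).ss (TA n).ss where
  H σ κ y := (1 - sk κ y.1.1) • σ y + sk κ y.1.1 • ∑ i, y.1.1 i • σ (vx i, y.2)
  nat f σ κ := funext fun y => by
    change (1 - sk κ (aff (fun i => vx (f i)) y.1).1) • σ (bm _ y) +
      sk κ (aff (fun i => vx (f i)) y.1).1 •
        ∑ l, (aff (fun i => vx (f i)) y.1).1 l • σ (vx l, y.2) = _
    rw [sk_aff, sum_aff_vx f y.1 fun l => σ (vx l, y.2)]
    simp only [comp_apply, bm_apply, aff_vx]

theorem strt_adm {σ : Y n m → V n} (h : Adm σ) (κ : Fin m → Bool) : Adm ((strt n).H σ κ) := by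
  have := strt_conv (b := fun (i : Bool) (t : Δ m) => if i then 1 - sk κ t.1 else sk κ t.1)
    (σ := fun i => if i then σ else fun y => ∑ i, y.1.1 i • σ (vx i, y.2))
    (fun i => by cases i; exacts [gl_sk κ, (gl_const 1).sub (gl_sk κ)])
    (fun i t => by cases i; exacts [(sk_mem κ t).1, sub_nonneg.2 (sk_mem κ t).2])
    (fun t => by simp) fun i => by
      cases i
      exacts [strt_conv (b := fun i t => t.1 i) gl_coord (fun i t => t.2.1 i) (fun t => t.2.2)
        fun i => strt_at h _, h]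
  simp only [Fintype.sum_bool] at this
  exact this

theorem strt_false (σ : Y n m → V n) : (strt n).en false m σ = σ := funext fun y => by
  change (1 - sk (fun _ => false) y.1.1) • σ y + sk (fun _ => false) y.1.1 • _ = _
  rw [sk_false, sub_zero, one_smul, zero_smul, add_zero]

theorem strt_true {σ : Y n m → V n} {g : Fin m → Gc n} (h : ∀ i x, (g i : Pm n) x = σ (vx i, x)) :
    (strt n).en true m σ = afs g := funext fun y => by
  change (1 - sk (fun _ => true) y.1.1) • σ y + sk (fun _ => true) y.1.1 • _ = _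
  rw [sk_true, sub_self, one_smul, zero_smul, zero_add]
  simp only [afs, h]

/-- A cycle is homologous to a cycle of affine simplices: `AS.small` with `loc_ts`,
`exists_map_eq`, `Hty.d_prism`, and `zero_of_fibres` with `Hty.map_prism`, `Adm.eq_of_lf`. -/
theorem straighten (R : ℕ) {e M M' : ℝ} (he : 0 < e) (hM : M < M') {k : ℕ}
    {z : FA (Raw n (k + 2))} (hz : z ∈ Ch fun F => IsF Set.univ _ F ∧ Hb Set.univ M F)
    (hd : (RS n).d z = 0) : ∃ x ∈ Ch (TS R e M' (k + 2)), map lf ((TA n).ss.d x) = 0 ∧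
      ∃ w ∈ Ch (IsF Set.univ (k + 3)), (RS n).d w = z - map (fun σ => lf ((strt n).en true _ σ)) x := by
  obtain ⟨z', hz', hd', w, hw, e1⟩ := AS.small (A := RA n)
    (P := fun _ F => IsF Set.univ _ F ∧ Hb Set.univ M F)
    (Q := fun k G => ∃ σ, TS R e M' k σ ∧ lf σ = G)
    (fun _ _ v F hF => ⟨isF_cl _ v F hF.1, hF.2.bm v⟩) (fun F hF => loc_ts R he hM hF.1 hF.2) hz hd
  obtain ⟨x, hx, rfl⟩ := exists_map_eq (P := TS R e M' (k + 2)) lf (fun _ h => h) hz'
  have h0 : map lf ((TA n).ss.d x) = 0 := (SS.map_d lf_nat x).symm.trans hd'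
  have h1 : map lf ((strt n).prism ((TA n).ss.d x)) = 0 :=
    zero_of_fibres (P := TS R e M' (k + 1)) lf ((FreeAbelianGroup.map lf).comp (strt n).prism)
      (fun σ σ' hσ hσ' e => by
        obtain ⟨g, hg⟩ := hσ.1.eq_of_lf hσ'.1 e
        refine (strt n).map_prism (U := RS n) (fun _ => lf) fun m f κ => ?_
        rw [← lf_comp _ g, show σ' = fun y => σ (y.1, g y.2) from funext hg]
        rfl) (SS.d_mem (ts_cl R e M').ss hx) h0
  refine ⟨x, hx, h0, w - map lf ((strt n).prism x), sub_mem (Ch_mono (fun _ h => h.1) hw)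
    (map_mem (P := Adm) lf (fun _ h => h.isF) ((strt n).prism_mem (Q := fun _ => Adm)
      (ts_cl R e M').ss (fun _ σ κ h => strt_adm h.1 κ) hx)), ?_⟩
  have h2 := SS.map_d lf_nat ((strt n).prism x)
  rw [(strt n).d_prism, map_sub, map_sub] at h2
  rw [map_sub, e1, h2, h1, map_map, map_map]
  simp only [strt_false]
  abel

end

end Pool.Agent.P.MP_878f14_gt.HT.D
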