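import Pool.Agent.P.MP_878f14_gt.HT.D.Rec

/-! Presheaves on affine simplices and barycentric subdivision in all degrees. -/

namespace Pool.Agent.P.MP_878f14_gt.HT.D

open FreeAbelianGroup Filter Topology

noncomputable section

/-- the simplex with `m` vertices -/
abbrev Δ (m : ℕ) : Type := stdSimplex ℝ (Fin m)

def vx {m : ℕ} (i : Fin m) : Δ m := stdSimplex.vertex i

variable {k m p : ℕ}

/-- the linear map with given images of the vertices -/
def lin (v : Fin m → Δ p) : (Fin m → ℝ) →L[ℝ] Fin p → ℝ :=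
  ∑ i, (ContinuousLinearMap.proj (R := ℝ) (φ := fun _ : Fin m => ℝ) i).smulRight (v i).1

theorem lin_apply (v : Fin m → Δ p) (t : Fin m → ℝ) : lin v t = ∑ i, t i • (v i).1 := by
  simp [lin]

theorem lin_mem (v : Fin m → Δ p) (t : Δ m) : lin v t.1 ∈ stdSimplex ℝ (Fin p) := by
  rw [lin_apply]
  exact (convex_stdSimplex ℝ _).sum_mem (fun i _ => t.2.1 i) t.2.2 fun i _ => (v i).2

/-- the affine simplex with given vertices -/
def aff (v : Fin m → Δ p) : C(Δ m, Δ p) where
  toFun t := ⟨lin v t.1, lin_mem v t⟩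
  continuous_toFun := ((lin v).continuous.comp continuous_subtype_val).subtype_mk _

theorem aff_val (v : Fin m → Δ p) (t : Δ m) : (aff v t).1 = lin v t.1 := rfl

theorem aff_apply (v : Fin m → Δ p) (t : Δ m) (l : Fin p) :
    (aff v t).1 l = ∑ i, t.1 i * (v i).1 l := by
  simp only [aff_val, lin_apply, Finset.sum_apply, Pi.smul_apply, smul_eq_mul]

theorem vx_val (i l : Fin m) : (vx i).1 l = if l = i then 1 else 0 := by
  simp [vx, stdSimplex.vertex, Pi.single_apply]

theorem Δ_ext {s t : Δ m} (h : ∀ l, s.1 l = t.1 l) : s = t := Subtype.ext (funext h)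

@[simp] theorem aff_vx (v : Fin m → Δ p) (i : Fin m) : aff v (vx i) = v i :=
  Δ_ext fun l => by simp only [aff_apply, vx_val, ite_mul, one_mul, zero_mul,
    Finset.sum_ite_eq', Finset.mem_univ, if_true]

theorem aff_id : aff (vx (m := m)) = ContinuousMap.id _ :=
  ContinuousMap.ext fun t => Δ_ext fun l => by
    simp only [aff_apply, vx_val, mul_ite, mul_one, mul_zero, Finset.sum_ite_eq, Finset.mem_univ,
      if_true, ContinuousMap.id_apply]

theorem aff_aff (w : Fin m → Δ p) (v : Fin k → Δ m) (t : Δ k) :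
    aff w (aff v t) = aff (fun i => aff w (v i)) t := Δ_ext fun l => by
  simp only [aff_apply, Finset.sum_mul, Finset.mul_sum, mul_assoc]
  exact Finset.sum_comm

theorem aff_map (f : Fin m → Fin p) (t : Δ m) :
    aff (fun i => vx (f i)) t = stdSimplex.map f t := Δ_ext fun l => by
  rw [aff_apply]
  change _ = FunOnFinite.linearMap ℝ ℝ f t.1 l
  rw [FunOnFinite.linearMap_apply_apply, Finset.sum_filter]
  simp only [vx_val, mul_ite, mul_one, mul_zero, eq_comm]

theorem aff_const (a : Δ p) (t : Δ m) : aff (fun _ => a) t = a := Δ_ext fun l => by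
  rw [aff_apply, ← Finset.sum_mul, t.2.2, one_mul]

/-- a sum over the vertices is natural for vertex maps -/
theorem sum_aff_vx {W : Type} [AddCommGroup W] [Module ℝ W] (f : Fin m → Fin p) (t : Δ m)
    (g : Fin p → W) : ∑ l, (aff (fun i => vx (f i)) t).1 l • g l = ∑ i, t.1 i • g (f i) := by
  simp only [aff_apply, vx_val, Finset.sum_smul]
  rw [Finset.sum_comm]
  simp only [mul_ite, mul_one, mul_zero, ite_smul, zero_smul, Finset.sum_ite_eq', Finset.mem_univ,
    if_true]

/-- the barycentre -/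
def sub_bary (v : Fin (k + 1) → Δ p) : Δ p := aff v stdSimplex.barycenter

/-- the subdivision -/
def sub_sd : ∀ r, FA (Fin r → Δ p) →+ FA (Fin r → Δ p)
  | 0 => AddMonoidHom.id _
  | r + 1 => FreeAbelianGroup.lift fun v => cone (sub_bary v) (sub_sd r (dF (of v)))

theorem sub_sd_of (v : Fin (k + 1) → Δ p) :
    sub_sd (k + 1) (of v) = cone (sub_bary v) (sub_sd k (dF (of v))) := lift_apply_of _ _

theorem sub_dd {B : Type} (z : FA (Fin (k + 2) → B)) : dF (dF z) = 0 := (Fn B).d_d z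

theorem sub_d_sd (z : FA (Fin (k + 1) → Δ p)) : dF (sub_sd (k + 1) z) = sub_sd k (dF z) := by
  induction k with
  | zero =>
    exact hom_eq (dF.comp (sub_sd 1)) ((sub_sd 0).comp dF) (fun v => by
      rw [AddMonoidHom.comp_apply, sub_sd_of, d_cone_zero]; rfl) z
  | succ r ih =>
    exact hom_eq (dF.comp (sub_sd (r + 2))) ((sub_sd (r + 1)).comp dF) (fun v => by
      rw [AddMonoidHom.comp_apply, sub_sd_of, d_cone, ih, sub_dd, map_zero, map_zero, sub_zero]
      rfl) z

theorem sub_map_d {B C : Type} (g : B → C) (z : FA (Fin (k + 1) → B)) :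
    dF (FreeAbelianGroup.map (fun v i => g (v i)) z) =
      FreeAbelianGroup.map (fun v i => g (v i)) (dF z) :=
  SS.map_d (S := Fn B) (T := Fn C) (φ := fun _ v i => g (v i)) (fun _ _ _ _ => rfl) z

theorem sub_map_sd (w : Fin m → Δ p) (z : FA (Fin k → Δ m)) :
    FreeAbelianGroup.map (fun v i => aff w (v i)) (sub_sd k z) =
      sub_sd k (FreeAbelianGroup.map (fun v i => aff w (v i)) z) := by
  induction k with
  | zero => rfl
  | succ r ih =>
    refine hom_eq
      ((FreeAbelianGroup.map fun (v : Fin (r + 1) → Δ m) i => aff w (v i)).comp (sub_sd _))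
      ((sub_sd _).comp (FreeAbelianGroup.map fun (v : Fin (r + 1) → Δ m) i => aff w (v i)))
      (fun v => ?_) z
    have e := sub_map_d (aff w) (of v)
    simp only [AddMonoidHom.comp_apply, map_of_apply, sub_sd_of] at e ⊢
    rw [e, ← ih, cone, cone, D.map_map, D.map_map]
    refine congrArg (fun f => FreeAbelianGroup.map f _) (funext fun u => funext fun i => ?_)
    exact Fin.cases (aff_aff w v _) (fun _ => rfl) i

/-- small diameter -/
def sub_Dm (d : ℝ) (v : Fin k → Δ p) : Prop := ∀ i j l, |(v i).1 l - (v j).1 l| ≤ d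

theorem sub_abs_aff (v : Fin k → Δ p) (t : Δ k) (l : Fin p) {b d : ℝ}
    (h : ∀ i, |(v i).1 l - b| ≤ d) : |(aff v t).1 l - b| ≤ d := by
  have e : (aff v t).1 l - b = ∑ i, t.1 i * ((v i).1 l - b) := by
    simp only [mul_sub, Finset.sum_sub_distrib, ← Finset.sum_mul, t.2.2, one_mul, aff_apply]
  rw [e]
  refine (Finset.abs_sum_le_sum_abs _ _).trans ?_
  calc _ ≤ ∑ i, t.1 i * d := Finset.sum_le_sum fun i _ => by
        rw [abs_mul, abs_of_nonneg (t.2.1 i)]
        exact mul_le_mul_of_nonneg_left (h i) (t.2.1 i)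
    _ = d := by rw [← Finset.sum_mul, t.2.2, one_mul]

theorem sub_abs_bary {v : Fin (k + 1) → Δ p} {d : ℝ} (h : sub_Dm d v) (j : Fin (k + 1))
    (l : Fin p) : |(v j).1 l - (sub_bary v).1 l| ≤ (1 - 1 / (k + 1)) * d := by
  have e : (v j).1 l - (sub_bary v).1 l = ∑ i, ((v j).1 l - (v i).1 l) / (k + 1) := by
    have : ∀ x, (stdSimplex.barycenter : Δ (k + 1)).1 x = (Fintype.card (Fin (k + 1)) : ℝ)⁻¹ :=
      fun _ => rfl
    simp only [sub_bary, aff_apply, this, Fintype.card_fin, ← Finset.sum_div,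
      Finset.sum_sub_distrib, Finset.sum_const, Finset.card_univ, nsmul_eq_mul, ← Finset.mul_sum]
    push_cast
    field_simp
  rw [e, Fin.sum_univ_succAbove _ j, sub_self, zero_div, zero_add]
  refine (Finset.abs_sum_le_sum_abs _ _).trans ?_
  calc _ ≤ ∑ _i : Fin k, d / (k + 1) := Finset.sum_le_sum fun i _ => by
        rw [abs_div, abs_of_pos (by positivity : (0 : ℝ) < k + 1)]
        exact div_le_div_of_nonneg_right (h _ _ _) (by positivity)
    _ = _ := by
      simp only [Finset.sum_const, Finset.card_univ, Fintype.card_fin, nsmul_eq_mul]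
      field_simp
      ring

theorem sub_sd_small {d : ℝ} (hd : 0 ≤ d) (hr : k ≤ m + 1) {v : Fin k → Δ p} (h : sub_Dm d v) :
    sub_sd k (of v) ∈
      Ch fun u => sub_Dm ((1 - 1 / (m + 1)) * d) u ∧ ∀ i, u i ∈ Set.range (aff v) := by
  induction k with
  | zero => exact of_mem ⟨fun i => i.elim0, fun i => i.elim0⟩
  | succ r ih =>
    rw [sub_sd_of, dF_of, map_sum, map_sum]
    refine sum_mem fun φ _ => ?_
    rw [map_zsmul, map_zsmul]
    refine zsmul_mem (map_mem _ (fun u hu => ?_) (ih (by omega) fun i j l => h _ _ l)) _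
    have h1 : ∀ i, u i ∈ Set.range (aff v) := fun i => by
      obtain ⟨t, ht⟩ := hu.2 i
      refine ⟨aff (fun a => vx (φ.succAbove a)) t, ?_⟩
      rw [aff_aff, ← ht]
      simp only [aff_vx]
    have h2 : ∀ i l, |(u i).1 l - (sub_bary v).1 l| ≤ (1 - 1 / (m + 1)) * d := fun i l => by
      obtain ⟨t, ht⟩ := h1 i
      rw [← ht]
      refine sub_abs_aff v t l fun j => (sub_abs_bary h j l).trans ?_
      have : (r : ℝ) ≤ m := by exact_mod_cast (by omega : r ≤ m)
      gcongr
    have h3 : 0 ≤ (1 - 1 / (m + 1 : ℝ)) * d :=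
      mul_nonneg (sub_nonneg.mpr ((div_le_one (by positivity)).mpr (by simp))) hd
    refine ⟨fun i j l => ?_, fun i => Fin.cases ⟨_, rfl⟩ h1 i⟩
    refine Fin.cases (Fin.cases (by simpa using h3) (fun j => ?_) j)
      (fun i => Fin.cases (h2 i l) (fun j => hu.1 i j l) j) i
    rw [abs_sub_comm]
    exact h2 j l

/-- iterated subdivision of the standard simplex -/
def sub_sdm (k : ℕ) : ℕ → FA (Fin k → Δ k)
  | 0 => of vx
  | m + 1 => sub_sd k (sub_sdm k m)

theorem sub_sdm_zero (m : ℕ) : sub_sdm 0 m = sub_sdm 0 0 := by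
  induction m with
  | zero => rfl
  | succ m ih => exact ih

theorem sub_d_sdm (k m : ℕ) : dF (sub_sdm (k + 1) m) =
    ∑ j : Fin (k + 1), (-1 : ℤ) ^ j.1 • FreeAbelianGroup.map
      (fun v i => aff (fun a => vx (j.succAbove a)) (v i)) (sub_sdm k m) := by
  induction m with
  | zero =>
    refine (dF_of _).trans (Finset.sum_congr rfl fun j _ => ?_)
    exact congrArg (fun u => (-1 : ℤ) ^ j.1 • of u)
      (funext fun i => (aff_vx (fun a => vx (j.succAbove a)) i).symm)
  | succ m ih => rw [sub_sdm, sub_d_sd, ih, map_sum]; simp only [sub_sdm, sub_map_sd, map_zsmul]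

theorem sub_sdm_small (k : ℕ) {δ : ℝ} (hδ : 0 < δ) :
    ∀ᶠ m in atTop, sub_sdm k m ∈ Ch (sub_Dm δ) := by
  have c0 : 0 ≤ 1 - 1 / (k + 1 : ℝ) := sub_nonneg.mpr ((div_le_one (by positivity)).mpr (by simp))
  have h : ∀ m, sub_sdm k m ∈ Ch (sub_Dm ((1 - 1 / (k + 1 : ℝ)) ^ m)) := fun m => by
    induction m with
    | zero =>
      refine of_mem fun i j l => abs_le.mpr ⟨?_, ?_⟩ <;>
        linarith [(mem_Icc_of_mem_stdSimplex (vx i).2 l).1, (mem_Icc_of_mem_stdSimplex (vx i).2 l).2,
          pow_zero (1 - 1 / (k + 1 : ℝ)), (mem_Icc_of_mem_stdSimplex (vx j).2 l).1,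
          (mem_Icc_of_mem_stdSimplex (vx j).2 l).2]
    | succ m ih =>
      refine hom_mem _ (fun u hu => Ch_mono (fun w hw => ?_)
        (sub_sd_small (pow_nonneg c0 m) (Nat.le_succ k) hu)) ih
      rw [pow_succ']
      exact hw.1
  filter_upwards [(tendsto_pow_atTop_nhds_zero_of_lt_one c0
    (sub_lt_self _ (by positivity))).eventually_lt_const hδ] with m hm
  exact Ch_mono (fun u hu i j l => (hu i j l).trans hm.le) (h m)

/-- the simplices as a functor on the finite ordinals -/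
@[reducible] def sub_co : Co where
  A := Δ
  push f t := aff (fun a => vx (f a)) t
  comp f g t := by rw [aff_aff]; simp only [aff_vx, Function.comp_apply]
  pt _ := vx 0

/-- presheaves on the affine maps between simplices -/
structure AS where
  X : ℕ → Type
  pl : ∀ {m p : ℕ}, (Fin m → Δ p) → X p → X m
  pl_comp : ∀ {k m p : ℕ} (v : Fin k → Δ m) (w : Fin m → Δ p) (x : X p),
    pl v (pl w x) = pl (fun i => aff w (v i)) x
  pl_id : ∀ {p : ℕ} (x : X p), pl vx x = x

namespace AS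

variable (A : AS)

@[reducible] def ss : SS where
  X := A.X
  pull f := A.pl fun i => vx (f i)
  pull_comp f g x := by simp only [A.pl_comp, aff_vx, Function.comp_apply]
  pull_id := A.pl_id

/-- closed under affine pull-back -/
def Cl (P : A.ss.Pr) : Prop :=
  ∀ ⦃m p : ℕ⦄ (v : Fin m → Δ p) (x : A.X p), P p x → P m (A.pl v x)

theorem Cl.ss {A : AS} {P : A.ss.Pr} (h : A.Cl P) : A.ss.Cl P := fun _ _ _ x hx => h _ x hx

/-- small affine pieces of `x` are in `Q` -/
def Loc (Q : A.ss.Pr) {p : ℕ} (x : A.X p) : Prop :=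
  ∀ t₀ : Δ p, ∃ U ∈ 𝓝 t₀, ∀ (m : ℕ) (v : Fin m → Δ p), (∀ t, aff v t ∈ U) → Q m (A.pl v x)

/-- the Lebesgue number -/
theorem sub_leb {A : AS} {Q : A.ss.Pr} {x : A.X p} (h : A.Loc Q x) :
    ∃ δ > 0, ∀ v : Fin (k + 1) → Δ p, sub_Dm δ v → Q _ (A.pl v x) := by
  choose U hU hQ using h
  obtain ⟨δ, hδ, hb⟩ := Metric.uniformity_basis_dist_le.lebesgue_number_lemma_nhds
    (isCompact_univ (X := Δ p)) fun t _ => hU t
  refine ⟨δ, hδ, fun v hv => ?_⟩
  obtain ⟨y, hy⟩ := hb (v 0) trivial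
  refine hQ y _ v fun t => hy ?_
  change dist (v 0).1 (aff v t).1 ≤ δ
  rw [dist_comm, dist_pi_le_iff hδ.le]
  exact fun l => sub_abs_aff v t l fun i => hv i 0 l

/-- evaluation of affine simplices -/
def sub_ev (A : AS) : CoS.Ev sub_co.fn A.ss A.ss where
  ev y _ v := A.pl v y
  nat y _ _ f v := by
    refine (A.pl_comp _ _ _).trans ?_
    simp only [aff_vx]
    rfl
  face y j _ v := (A.pl_comp _ _ _).symm

/-- Barycentric subdivision. Universal chains `sdU 0 = of elim0`,
`sdU (n + 1) = cone (barycenter) (del sdU)` for the `Co` with `A := Δ`, `push := stdSimplex.map`;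
`Ev` with `ev y v = A.pl v y`; the homotopy is `Co.homot` with `γ = of vx - sdU`; the simplices of
`sdU n` contract diameters by `1 - 1 / n`; Lebesgue number; `ev_mem`. -/
theorem small {A : AS} {P Q : A.ss.Pr} (hP : A.Cl P) {n : ℕ}
    (hl : ∀ x, P (n + 1) x → A.Loc Q x) {z : FA (A.X (n + 1))} (hz : z ∈ Ch (P _))
    (hd : A.ss.d z = 0) :
    ∃ z' ∈ Ch (Q (n + 1)), A.ss.d z' = 0 ∧ ∃ w ∈ Ch (P (n + 2)), A.ss.d w = z - z' := by
  obtain ⟨M, hM⟩ := (ev_mem (l := atTop)
    (fun M => A.sub_ev.E (n := n + 1) fun _ => sub_sdm (n + 1) M) (fun _ => Ch (Q (n + 1)))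
    (fun x hx => by
      obtain ⟨δ, hδ, h⟩ := sub_leb (k := n) (hl x hx)
      filter_upwards [sub_sdm_small (n + 1) hδ] with m hm
      rw [CoS.Ev.E_of]
      exact map_mem _ h hm) hz).exists
  have key := sub_co.homot hP.ss A.sub_ev (fun k _ => sub_sdm k 0 - sub_sdm k M) (n + 1)
    (fun _ _ => sub_eq_zero.mpr (sub_sdm_zero M).symm)
    (fun k _ y _ => by
      rw [sub_co.fn.del_sub, map_sub]
      exact congrArg₂ (· - ·) (sub_d_sdm k 0) (sub_d_sdm k M)) (Nat.lt_succ_self n) hz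
  have e0 : A.sub_ev.E (n := n + 1) (fun _ => sub_sdm (n + 1) 0) z = z :=
    hom_eq _ (AddMonoidHom.id _) (fun y => by
      rw [CoS.Ev.E_of]
      exact congrArg of (A.pl_id y)) z
  rw [hd, map_zero, sub_zero, CoS.Ev.E_sub, e0] at key
  refine ⟨_, hM, ?_, _, A.sub_ev.E_mem (fun y hy v => hP v y hy) _ hz, key⟩
  have := congrArg A.ss.d key
  rw [SS.d_d, map_sub, hd, zero_sub] at this
  exact neg_eq_zero.1 this.symm

end AS

end

end Pool.Agent.P.MP_878f14_gt.HT.D
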